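import Mathlib
open MeasureTheory Filter Topology Set

namespace Pool.Agent.Lib.MP_749de9_pr

/-- `f` is, on `(0, ∞)`, the Laplace transform of a finite measure on `[0, ∞]`, written in the
variable `u = e^{-t} ∈ [0, 1]`. -/
def CM (f : ℝ → ℝ) : Prop :=
  ∃ ν : Measure unitInterval, IsFiniteMeasure ν ∧ ∀ x : ℝ, 0 < x → f x = ∫ u, (u : ℝ) ^ x ∂ν

theorem meas_rpow (x : ℝ) : Measurable (fun u : unitInterval => (u : ℝ) ^ x) :=
  (measurable_subtype_coe).pow_const x

theorem rpow_le_one_unit (u : unitInterval) {x : ℝ} (hx : 0 ≤ x) : (u : ℝ) ^ x ≤ 1 :=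
  Real.rpow_le_one u.2.1 u.2.2 hx

theorem rpow_nonneg_unit (u : unitInterval) (x : ℝ) : 0 ≤ (u : ℝ) ^ x :=
  Real.rpow_nonneg u.2.1 x

theorem integrable_rpow_unit (ν : Measure unitInterval) [IsFiniteMeasure ν] {x : ℝ} (hx : 0 ≤ x) :
    Integrable (fun u : unitInterval => (u : ℝ) ^ x) ν := by
  refine Integrable.of_bound (C := 1) (meas_rpow x).aestronglyMeasurable ?_
  refine Eventually.of_forall (fun u => ?_)
  rw [Real.norm_eq_abs, abs_of_nonneg (rpow_nonneg_unit u x)]
  exact rpow_le_one_unit u hx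

theorem CM.congr {f g : ℝ → ℝ} (hf : CM f) (h : ∀ x : ℝ, 0 < x → g x = f x) : CM g := by
  obtain ⟨ν, hν, hf⟩ := hf
  exact ⟨ν, hν, fun x hx => by rw [h x hx, hf x hx]⟩

theorem CM.nonneg {f : ℝ → ℝ} (hf : CM f) {x : ℝ} (hx : 0 < x) : 0 ≤ f x := by
  obtain ⟨ν, hν, hf⟩ := hf
  rw [hf x hx]
  exact integral_nonneg (fun u => rpow_nonneg_unit u x)

theorem CM.const {c : ℝ} (hc : 0 ≤ c) : CM (fun _ => c) := by
  refine ⟨ENNReal.ofReal c • Measure.dirac 1, ?_, fun x _ => ?_⟩
  · constructor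
    simp
  · rw [integral_smul_measure, integral_dirac]
    simp [hc]

theorem CM.add {f g : ℝ → ℝ} (hf : CM f) (hg : CM g) : CM (fun x => f x + g x) := by
  obtain ⟨ν, hν, hf⟩ := hf
  obtain ⟨ν', hν', hg⟩ := hg
  refine ⟨ν + ν', inferInstance, fun x hx => ?_⟩
  beta_reduce
  rw [integral_add_measure (integrable_rpow_unit ν hx.le) (integrable_rpow_unit ν' hx.le),
    hf x hx, hg x hx]

theorem CM.mul {f g : ℝ → ℝ} (hf : CM f) (hg : CM g) : CM (fun x => f x * g x) := by
  obtain ⟨ν, hν, hf⟩ := hf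
  obtain ⟨ν', hν', hg⟩ := hg
  refine ⟨(ν.prod ν').map (fun p => p.1 * p.2), inferInstance, fun x hx => ?_⟩
  rw [integral_map]
  · beta_reduce
    rw [hf x hx, hg x hx, ← integral_prod_mul]
    apply integral_congr_ae
    refine Eventually.of_forall (fun p => ?_)
    simp only [Set.Icc.coe_mul]
    rw [Real.mul_rpow p.1.2.1 p.2.2.1]
  · exact (measurable_fst.mul measurable_snd).aemeasurable
  · exact (meas_rpow x).aestronglyMeasurable

theorem CM.smul {f : ℝ → ℝ} (hf : CM f) {c : ℝ} (hc : 0 ≤ c) : CM (fun x => c * f x) :=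
  (CM.const hc).mul hf

theorem CM.pow {f : ℝ → ℝ} (hf : CM f) (n : ℕ) : CM (fun x => f x ^ n) := by
  induction n with
  | zero => simpa using CM.const zero_le_one
  | succ n ih => simpa [pow_succ] using ih.mul hf

theorem CM.sum {ι : Type*} (s : Finset ι) {f : ι → ℝ → ℝ} (hf : ∀ i ∈ s, CM (f i)) :
    CM (fun x => ∑ i ∈ s, f i x) := by
  classical
  induction s using Finset.induction_on with
  | empty => simpa using CM.const (le_refl (0:ℝ))
  | insert a s ha ih =>
    have h1 := hf a (Finset.mem_insert_self a s)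
    have h2 := ih (fun i hi => hf i (Finset.mem_insert_of_mem hi))
    refine (h1.add h2).congr (fun x _ => ?_)
    rw [Finset.sum_insert ha]

theorem CM.prod {ι : Type*} (s : Finset ι) {f : ι → ℝ → ℝ} (hf : ∀ i ∈ s, CM (f i)) :
    CM (fun x => ∏ i ∈ s, f i x) := by
  classical
  induction s using Finset.induction_on with
  | empty => simpa using CM.const zero_le_one
  | insert a s ha ih =>
    have h1 := hf a (Finset.mem_insert_self a s)
    have h2 := ih (fun i hi => hf i (Finset.mem_insert_of_mem hi))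
    refine (h1.mul h2).congr (fun x _ => ?_)
    rw [Finset.prod_insert ha]

/-- `u ↦ u ^ c` on the unit interval. -/
noncomputable def powUnit (c : ℝ) (hc : 0 ≤ c) (u : unitInterval) : unitInterval :=
  ⟨(u : ℝ) ^ c, Real.rpow_nonneg u.2.1 c, Real.rpow_le_one u.2.1 u.2.2 hc⟩

theorem measurable_powUnit (c : ℝ) (hc : 0 ≤ c) : Measurable (powUnit c hc) :=
  (meas_rpow c).subtype_mk

theorem CM.comp_mul {f : ℝ → ℝ} (hf : CM f) {c : ℝ} (hc : 0 < c) : CM (fun x => f (c * x)) := by
  obtain ⟨ν, hν, hf⟩ := hf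
  refine ⟨ν.map (powUnit c hc.le), inferInstance, fun x hx => ?_⟩
  beta_reduce
  rw [integral_map (measurable_powUnit c hc.le).aemeasurable (meas_rpow x).aestronglyMeasurable,
    hf _ (mul_pos hc hx)]
  apply integral_congr_ae
  refine Eventually.of_forall (fun u => ?_)
  simp only [powUnit]
  rw [Real.rpow_mul u.2.1]

theorem CM.antitone {f : ℝ → ℝ} (hf : CM f) {x y : ℝ} (hx : 0 < x) (hxy : x ≤ y) : f y ≤ f x := by
  obtain ⟨ν, hν, hf⟩ := hf
  rw [hf x hx, hf y (hx.trans_le hxy)]
  apply integral_mono (integrable_rpow_unit ν (hx.trans_le hxy).le) (integrable_rpow_unit ν hx.le)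
  intro u
  simp only
  rcases eq_or_lt_of_le u.2.1 with h | h
  · have h' : (u : ℝ) = 0 := h.symm
    rw [h', Real.zero_rpow hx.ne', Real.zero_rpow (hx.trans_le hxy).ne']
  · exact Real.rpow_le_rpow_of_exponent_ge h u.2.2 hxy

theorem CM.continuousOn {f : ℝ → ℝ} (hf : CM f) : ContinuousOn f (Ioi 0) := by
  obtain ⟨ν, hν, hf⟩ := hf
  have h1 : ContinuousOn (fun x : ℝ => ∫ u : unitInterval, (u : ℝ) ^ x ∂ν) (Ioi 0) := by
    apply continuousOn_of_dominated (bound := fun _ => 1)
    · intro x _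
      exact (meas_rpow x).aestronglyMeasurable
    · intro x hx
      refine Eventually.of_forall (fun u => ?_)
      rw [Real.norm_eq_abs, abs_of_nonneg (rpow_nonneg_unit u x)]
      exact rpow_le_one_unit u (le_of_lt hx)
    · exact integrable_const _
    · refine Eventually.of_forall (fun u => ?_)
      intro x hx
      apply ContinuousAt.continuousWithinAt
      apply ContinuousAt.rpow continuousAt_const continuousAt_id
      right
      exact hx
  exact h1.congr (fun x hx => hf x hx)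

/-- bound by the limit at zero -/
theorem CM.le_of_tendsto {f : ℝ → ℝ} (hf : CM f) {c : ℝ} (h : Tendsto f (𝓝[>] 0) (𝓝 c)) {x : ℝ}
    (hx : 0 < x) : f x ≤ c := by
  apply ge_of_tendsto h
  filter_upwards [Ioc_mem_nhdsGT hx] with y hy
  exact hf.antitone hy.1 hy.2

/-- The function `1 / (D + x)`. -/
theorem CM.inv_add {D : ℝ} (hD : 0 < D) : CM (fun x => 1 / (D + x)) := by
  have h1 : CM (fun x => 1 / (1 + x)) := by
    refine ⟨volume, inferInstance, fun x hx => ?_⟩
    have h2 : ∫ u : unitInterval, (u : ℝ) ^ x = ∫ u in Icc (0:ℝ) 1, u ^ x :=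
      integral_subtype_comap (f := fun u : ℝ => u ^ x) measurableSet_Icc
    rw [h2, integral_Icc_eq_integral_Ioc, ← intervalIntegral.integral_of_le zero_le_one,
      integral_rpow (Or.inl (by linarith))]
    rw [Real.zero_rpow (by linarith), Real.one_rpow]
    ring
  have h2 := (h1.comp_mul (inv_pos.mpr hD)).smul (inv_pos.mpr hD).le
  refine h2.congr (fun x hx => ?_)
  have : D + x ≠ 0 := by positivity
  field_simp

/-- Shift. -/
theorem CM.shift {f : ℝ → ℝ} (hf : CM f) {a : ℝ} (ha : 0 < a) : CM (fun x => f (x + a)) := by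
  obtain ⟨ν, hν, hf⟩ := hf
  have hmeas : Measurable (fun u : unitInterval => ENNReal.ofReal ((u : ℝ) ^ a)) :=
    (meas_rpow a).ennreal_ofReal
  refine ⟨ν.withDensity (fun u => ENNReal.ofReal ((u : ℝ) ^ a)), ?_, fun x hx => ?_⟩
  · apply isFiniteMeasure_withDensity_ofReal
    exact (integrable_rpow_unit ν ha.le).2
  · beta_reduce
    rw [integral_withDensity_eq_integral_toReal_smul hmeas
      (Eventually.of_forall (fun u => ENNReal.ofReal_lt_top)), hf _ (by linarith)]
    apply integral_congr_ae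
    refine Eventually.of_forall (fun u => ?_)
    simp only [smul_eq_mul]
    rw [ENNReal.toReal_ofReal (rpow_nonneg_unit u a), Real.rpow_add_of_nonneg u.2.1 hx.le ha.le,
      mul_comm]

/-- normalised representing measure -/
theorem CM.exists_mass_le {f : ℝ → ℝ} (hf : CM f) {M : ℝ} (hM : ∀ x : ℝ, 0 < x → f x ≤ M) :
    ∃ ν : FiniteMeasure unitInterval, (ν.mass : ℝ) ≤ M ∧
      (ν : Measure unitInterval) {0} = 0 ∧
      ∀ x : ℝ, 0 < x → f x = ∫ u, (u : ℝ) ^ x ∂(ν : Measure unitInterval) := by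
  obtain ⟨ν, hν, hf⟩ := hf
  set ν' : Measure unitInterval := ν.restrict {0}ᶜ with hν'
  have hfin : IsFiniteMeasure ν' := inferInstance
  have hrep : ∀ x : ℝ, 0 < x → f x = ∫ u, (u : ℝ) ^ x ∂ν' := by
    intro x hx
    rw [hf x hx, hν']
    rw [setIntegral_eq_integral_of_forall_compl_eq_zero]
    intro u hu
    simp only [mem_compl_iff, mem_singleton_iff, not_not] at hu
    rw [hu]
    simp [Real.zero_rpow hx.ne']
  refine ⟨⟨ν', hfin⟩, ?_, ?_, hrep⟩
  · -- mass bound by monotone convergence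
    have h1 : Tendsto (fun n : ℕ => ∫ u : unitInterval, (u : ℝ) ^ (1 / ((n : ℝ) + 1)) ∂ν') atTop
        (𝓝 (∫ _u : unitInterval, (1:ℝ) ∂ν')) := by
      apply tendsto_integral_of_dominated_convergence (fun _ => (1:ℝ))
      · intro n
        exact (meas_rpow _).aestronglyMeasurable
      · exact integrable_const _
      · intro n
        refine Eventually.of_forall (fun u => ?_)
        rw [Real.norm_eq_abs, abs_of_nonneg (rpow_nonneg_unit u _)]
        exact rpow_le_one_unit u (by positivity)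
      · have h2 : ∀ᵐ u ∂ν', u ∈ ({0}ᶜ : Set unitInterval) := by
          rw [hν']
          exact ae_restrict_mem (measurableSet_singleton _).compl
        filter_upwards [h2] with u hu
        have hu' : (u : ℝ) ≠ 0 := by
          intro h
          apply hu
          exact Subtype.ext h
        have h3 : Tendsto (fun n : ℕ => 1 / ((n : ℝ) + 1)) atTop (𝓝 0) :=
          tendsto_one_div_add_atTop_nhds_zero_nat
        have h4 : ContinuousAt (fun y : ℝ => (u : ℝ) ^ y) 0 :=
          (Real.continuousAt_const_rpow hu')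
        have h5 := h4.tendsto.comp h3
        rw [Real.rpow_zero] at h5
        exact h5
    have h2 : ∫ _u : unitInterval, (1:ℝ) ∂ν' ≤ M := by
      apply le_of_tendsto' h1
      intro n
      rw [← hrep _ (by positivity)]
      exact hM _ (by positivity)
    have h3 : ((FiniteMeasure.mass ⟨ν', hfin⟩ : NNReal) : ℝ) = ν'.real univ := rfl
    rw [h3]
    simpa using h2
  · rw [FiniteMeasure.toMeasure_mk, hν', Measure.restrict_apply (measurableSet_singleton _)]
    simp

theorem continuous_rpow_unit {x : ℝ} (hx : 0 < x) : Continuous (fun u : unitInterval => (u : ℝ) ^ x) :=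
  continuous_subtype_val.rpow_const (fun _ => Or.inr hx.le)

/-- Closure under pointwise limits of uniformly bounded sequences. -/
theorem CM.limit {f : ℕ → ℝ → ℝ} {g : ℝ → ℝ} (hf : ∀ n, CM (f n)) (M : ℝ)
    (hM : ∀ n, ∀ x : ℝ, 0 < x → f n x ≤ M)
    (hlim : ∀ x : ℝ, 0 < x → Tendsto (fun n => f n x) atTop (𝓝 (g x))) : CM g := by
  choose ν hνM _ hν using fun n => (hf n).exists_mass_le (hM n)
  have hM0 : 0 ≤ M := le_trans (NNReal.coe_nonneg _) (hνM 0)
  have hcomp := isCompact_setOfPred_finiteMeasure_le_of_compactSpace unitInterval (Real.toNNReal M)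
  set U : Ultrafilter ℕ := Filter.hyperfilter ℕ with hU
  have hmem : ∀ n, (ν n).mass ≤ Real.toNNReal M := by
    intro n
    rw [← NNReal.coe_le_coe, Real.coe_toNNReal _ hM0]
    exact hνM n
  obtain ⟨ν₀, _, hν₀⟩ := hcomp.ultrafilter_le_nhds (U.map ν) (by
    rw [le_principal_iff]
    exact Filter.mem_map.mpr (Filter.univ_mem' (fun n => hmem n)))
  have htend : Tendsto ν (U : Filter ℕ) (𝓝 ν₀) := hν₀
  refine ⟨ν₀, inferInstance, fun x hx => ?_⟩
  rw [FiniteMeasure.tendsto_iff_forall_integral_tendsto] at htend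
  have h1 := htend (BoundedContinuousFunction.mkOfCompact ⟨_, continuous_rpow_unit hx⟩)
  simp only [BoundedContinuousFunction.mkOfCompact_apply, ContinuousMap.coe_mk] at h1
  have h2 : Tendsto (fun n => f n x) (U : Filter ℕ) (𝓝 (g x)) :=
    (hlim x hx).mono_left Nat.hyperfilter_le_atTop
  have h3 : (fun n => f n x) = fun n => ∫ u, (u : ℝ) ^ x ∂(ν n : Measure unitInterval) := by
    funext n
    exact hν n x hx
  rw [h3] at h2
  exact tendsto_nhds_unique h2 h1

/-- Closure under pointwise limits when the limit is continuous and bounded. -/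
theorem CM.limit' {f : ℕ → ℝ → ℝ} {g : ℝ → ℝ} (hf : ∀ n, CM (f n)) (M : ℝ)
    (hM : ∀ x : ℝ, 0 < x → g x ≤ M) (hg : ContinuousOn g (Ioi 0))
    (hlim : ∀ x : ℝ, 0 < x → Tendsto (fun n => f n x) atTop (𝓝 (g x))) : CM g := by
  have hshift : ∀ a : ℝ, 0 < a → CM (fun x => g (x + a)) := by
    intro a ha
    have h1 : ∀ᶠ n in atTop, f n a ≤ g a + 1 :=
      (hlim a ha).eventually_le_const (by linarith)
    obtain ⟨n₀, hn₀⟩ := eventually_atTop.mp h1
    apply CM.limit (f := fun n x => f (n + n₀) (x + a)) (fun n => (hf _).shift ha) (g a + 1)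
    · intro n x hx
      exact ((hf _).antitone ha (by linarith)).trans (hn₀ _ (by omega))
    · intro x hx
      exact (tendsto_add_atTop_iff_nat n₀).mpr (hlim (x + a) (by linarith))
  apply CM.limit (f := fun n x => g (x + 1 / ((n : ℝ) + 1))) (fun n => hshift _ (by positivity)) M
  · intro n x hx
    exact hM _ (by positivity)
  · intro x hx
    have h1 : Tendsto (fun n : ℕ => x + 1 / ((n : ℝ) + 1)) atTop (𝓝 (x + 0)) :=
      tendsto_const_nhds.add tendsto_one_div_add_atTop_nhds_zero_nat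
    rw [add_zero] at h1
    have h2 : ContinuousAt g x := hg.continuousAt (Ioi_mem_nhds hx)
    exact h2.tendsto.comp h1

/-- Geometric closure. -/
theorem CM.geom {ρ : ℝ → ℝ} (hρ : CM ρ) (hρ1 : ∀ x : ℝ, 0 < x → ρ x ≤ 1) {B D : ℝ} (hB : 0 ≤ B)
    (hBD : B < D) : CM (fun x => 1 / (D + x - B * ρ x)) := by
  have hD : 0 < D := lt_of_le_of_lt hB hBD
  have hterm : ∀ j : ℕ, CM (fun x => (1 / (D + x)) * (B * ρ x * (1 / (D + x))) ^ j) := fun j =>
    (CM.inv_add hD).mul (((hρ.smul hB).mul (CM.inv_add hD)).pow j)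
  have hr : ∀ x : ℝ, 0 < x → 0 ≤ B * ρ x * (1 / (D + x)) ∧ B * ρ x * (1 / (D + x)) < 1 := by
    intro x hx
    have h1 := hρ.nonneg hx
    have h2 := hρ1 x hx
    have h3 : B * ρ x ≤ B := by nlinarith
    refine ⟨by positivity, ?_⟩
    rw [mul_one_div, div_lt_one (by linarith)]
    linarith
  have hsum : ∀ x : ℝ, 0 < x → HasSum (fun j : ℕ => (1 / (D + x)) * (B * ρ x * (1 / (D + x))) ^ j)
      (1 / (D + x - B * ρ x)) := by
    intro x hx
    obtain ⟨h1, h2⟩ := hr x hx
    have h3 := (hasSum_geometric_of_lt_one h1 h2).mul_left (1 / (D + x))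
    have h4 : D + x ≠ 0 := by linarith
    have h5 : D + x - B * ρ x ≠ 0 := by
      have : B * ρ x ≤ B := by nlinarith [hρ1 x hx]
      linarith
    have h6 : 1 - B * ρ x * (1 / (D + x)) = (D + x - B * ρ x) / (D + x) := by
      field_simp
    have h7 : 1 / (D + x) * (1 - B * ρ x * (1 / (D + x)))⁻¹ = 1 / (D + x - B * ρ x) := by
      rw [h6]
      field_simp
    rw [h7] at h3
    exact h3
  apply CM.limit (f := fun n x => ∑ j ∈ Finset.range n, (1 / (D + x)) * (B * ρ x * (1 / (D + x))) ^ j)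
    (fun n => CM.sum _ (fun j _ => hterm j)) (1 / (D - B))
  · intro n x hx
    have h1 : ∑ j ∈ Finset.range n, (1 / (D + x)) * (B * ρ x * (1 / (D + x))) ^ j ≤
        1 / (D + x - B * ρ x) := by
      rw [← (hsum x hx).tsum_eq]
      exact (hsum x hx).summable.sum_le_tsum _ (fun j _ => (hterm j).nonneg hx)
    refine h1.trans ?_
    apply one_div_le_one_div_of_le (by linarith)
    have : B * ρ x ≤ B := by nlinarith [hρ1 x hx]
    linarith
  · intro x hx
    exact (hsum x hx).tendsto_sum_nat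

end Pool.Agent.Lib.MP_749de9_pr
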