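import Mathlib
open MeasureTheory Filter Topology Set

namespace Pool.Agent.Lib.MP_749de9_pr

/-- The modified Bessel function of the second kind,
`K_ν(z) = ∫_0^∞ e^{-z cosh t} cosh(ν t) dt`, `z > 0`. -/
noncomputable def besselK (ν z : ℝ) : ℝ :=
  ∫ t in Ioi (0:ℝ), Real.exp (-(z * Real.cosh t)) * Real.cosh (ν * t)

/-- `W_ν(σ, x) = ∫_0^∞ e^{-xu-σ/u} u^{-ν-1} du`. -/
noncomputable def WW (ν σ x : ℝ) : ℝ :=
  ∫ u in Ioi (0:ℝ), Real.exp (-(x * u)) * (Real.exp (-(σ / u)) * u ^ (-(ν + 1)))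

theorem WW_base_integrable {ν : ℝ} (hν : 0 < ν) :
    IntegrableOn (fun u : ℝ => Real.exp (-(1 / u)) * u ^ (-(ν + 1))) (Ioi 0) := by
  have h1 := Real.GammaIntegral_convergent hν
  rw [← integrableOn_Ioi_comp_rpow_iff _ (by norm_num : (-1:ℝ) ≠ 0)] at h1
  refine h1.congr_fun ?_ measurableSet_Ioi
  intro u hu
  have hu' : (0:ℝ) < u := hu
  simp only [smul_eq_mul]
  have e1 : u ^ (-1:ℝ) = u⁻¹ := Real.rpow_neg_one u
  have e2 : (u⁻¹) ^ (ν - 1) = u ^ (-(ν - 1)) := by
    rw [Real.inv_rpow hu'.le, Real.rpow_neg hu'.le]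
  rw [e1, e2]
  have e3 : u ^ ((-1:ℝ) - 1) * u ^ (-(ν - 1)) = u ^ (-(ν + 1)) := by
    rw [← Real.rpow_add hu']; congr 1; ring
  rw [← e3, one_div]
  simp
  ring

theorem WW_zero {ν : ℝ} (hν : 0 < ν) : WW ν 1 0 = Real.Gamma ν := by
  rw [Real.Gamma_eq_integral hν, ← integral_comp_rpow_Ioi _ (by norm_num : (-1:ℝ) ≠ 0)]
  unfold WW
  apply setIntegral_congr_fun measurableSet_Ioi
  intro u hu
  have hu' : (0:ℝ) < u := hu
  simp only [smul_eq_mul]
  have e1 : u ^ (-1:ℝ) = u⁻¹ := Real.rpow_neg_one u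
  have e2 : (u⁻¹) ^ (ν - 1) = u ^ (-(ν - 1)) := by
    rw [Real.inv_rpow hu'.le, Real.rpow_neg hu'.le]
  rw [e1, e2]
  have e3 : u ^ ((-1:ℝ) - 1) * u ^ (-(ν - 1)) = u ^ (-(ν + 1)) := by
    rw [← Real.rpow_add hu']; congr 1; ring
  rw [← e3, one_div]
  simp
  ring

theorem WW_meas (ν σ x : ℝ) :
    Measurable (fun u : ℝ => Real.exp (-(x * u)) * (Real.exp (-(σ / u)) * u ^ (-(ν + 1)))) := by
  fun_prop

theorem WW_integrable {ν x : ℝ} (hν : 0 < ν) (hx : 0 ≤ x) :
    IntegrableOn (fun u : ℝ => Real.exp (-(x * u)) * (Real.exp (-(1 / u)) * u ^ (-(ν + 1))))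
      (Ioi 0) := by
  refine Integrable.mono' (WW_base_integrable hν) (WW_meas ν 1 x).aestronglyMeasurable ?_
  rw [ae_restrict_iff' measurableSet_Ioi]
  refine Eventually.of_forall (fun u hu => ?_)
  have hu' : (0:ℝ) < u := hu
  rw [Real.norm_eq_abs, abs_of_nonneg (by positivity)]
  apply mul_le_of_le_one_left (by positivity)
  rw [Real.exp_le_one_iff]
  have : 0 ≤ x * u := by positivity
  linarith

/-- scaling -/
theorem WW_scale {ν σ x : ℝ} (hσ : 0 < σ) : WW ν σ x = σ ^ (-ν) * WW ν 1 (σ * x) := by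
  have h := integral_comp_mul_left_Ioi
    (fun u : ℝ => Real.exp (-(x * u)) * (Real.exp (-(σ / u)) * u ^ (-(ν + 1)))) 0 hσ
  rw [mul_zero] at h
  have h2 : ∫ v in Ioi (0:ℝ), Real.exp (-(x * (σ * v))) * (Real.exp (-(σ / (σ * v))) *
      (σ * v) ^ (-(ν + 1))) = σ ^ (-(ν + 1)) * WW ν 1 (σ * x) := by
    unfold WW
    rw [← integral_const_mul]
    apply setIntegral_congr_fun measurableSet_Ioi
    intro v hv
    have hv' : (0:ℝ) < v := hv
    simp only
    rw [Real.mul_rpow hσ.le hv'.le]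
    have e1 : x * (σ * v) = σ * x * v := by ring
    have e2 : σ / (σ * v) = 1 / v := by field_simp
    rw [e1, e2]
    ring
  rw [h2, smul_eq_mul] at h
  have h3 : WW ν σ x = σ * (σ ^ (-(ν + 1)) * WW ν 1 (σ * x)) := by
    rw [h]
    unfold WW
    rw [← mul_assoc, mul_inv_cancel₀ hσ.ne', one_mul]
  rw [h3, ← mul_assoc]
  congr 1
  nth_rewrite 1 [← Real.rpow_one σ]
  rw [← Real.rpow_add hσ]
  congr 1; ring

theorem WW_pos {ν x : ℝ} (hν : 0 < ν) (hx : 0 ≤ x) : 0 < WW ν 1 x := by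
  unfold WW
  rw [setIntegral_pos_iff_support_of_nonneg_ae]
  · have : Function.support (fun u : ℝ => Real.exp (-(x * u)) * (Real.exp (-(1 / u)) *
        u ^ (-(ν + 1)))) ∩ Ioi 0 = Ioi 0 := by
      ext u
      simp only [mem_inter_iff, Function.mem_support, mem_Ioi, and_iff_right_iff_imp]
      intro hu
      positivity
    rw [this]
    simp
  · rw [EventuallyLE, ae_restrict_iff' measurableSet_Ioi]
    refine Eventually.of_forall (fun u hu => ?_)
    have hu' : (0:ℝ) < u := hu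
    simp only [Pi.zero_apply]
    positivity
  · exact WW_integrable hν hx

theorem WW_continuousOn {ν : ℝ} (hν : 0 < ν) : ContinuousOn (fun x => WW ν 1 x) (Ici 0) := by
  unfold WW
  apply continuousOn_of_dominated (bound := fun u : ℝ => Real.exp (-(1 / u)) * u ^ (-(ν + 1)))
  · intro x _
    exact (WW_meas ν 1 x).aestronglyMeasurable
  · intro x hx
    have hx' : (0:ℝ) ≤ x := hx
    rw [ae_restrict_iff' measurableSet_Ioi]
    refine Eventually.of_forall (fun u hu => ?_)
    have hu' : (0:ℝ) < u := hu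
    rw [Real.norm_eq_abs, abs_of_nonneg (by positivity)]
    apply mul_le_of_le_one_left (by positivity)
    rw [Real.exp_le_one_iff]
    have : 0 ≤ x * u := by positivity
    linarith
  · exact WW_base_integrable hν
  · refine Eventually.of_forall (fun u => ?_)
    fun_prop

/-- splitting a line integral -/
theorem integral_split {F : ℝ → ℝ} (hF : Integrable F) :
    ∫ t, F t = ∫ t in Ioi (0:ℝ), (F t + F (-t)) := by
  have h1 := intervalIntegral.integral_Iic_add_Ioi (b := 0) hF.integrableOn hF.integrableOn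
  have h2 := integral_comp_neg_Ioi 0 F
  rw [neg_zero] at h2
  rw [← h1, ← h2]
  have h3 : IntegrableOn (fun t => F (-t)) (Ioi 0) := hF.comp_neg.integrableOn
  have h4 : ∫ t in Ioi (0:ℝ), (F t + F (-t)) = (∫ t in Ioi (0:ℝ), F t) +
      ∫ t in Ioi (0:ℝ), F (-t) := integral_add hF.integrableOn h3
  rw [h4]
  ring

theorem range_exp_div {y : ℝ} (hy : 0 < y) : (fun t : ℝ => Real.exp t / y) '' univ = Ioi 0 := by
  ext u
  simp only [image_univ, mem_range, mem_Ioi]
  constructor
  · rintro ⟨t, rfl⟩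
    positivity
  · intro hu
    refine ⟨Real.log (u * y), ?_⟩
    rw [Real.exp_log (by positivity)]
    field_simp

theorem WW_eq_line {ν x : ℝ} (hν : 0 < ν) (hx : 0 < x) :
    WW ν 1 x = x ^ (ν / 2) * ∫ t : ℝ, Real.exp (-(2 * √x * Real.cosh t)) * Real.exp (-(ν * t)) ∧
    Integrable (fun t : ℝ => Real.exp (-(2 * √x * Real.cosh t)) * Real.exp (-(ν * t))) := by
  have hy : 0 < √x := Real.sqrt_pos.mpr hx
  have hderiv : ∀ t ∈ (univ : Set ℝ), HasDerivWithinAt (fun t : ℝ => Real.exp t / √x)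
      (Real.exp t / √x) univ t := fun t _ =>
    ((Real.hasDerivAt_exp t).div_const _).hasDerivWithinAt
  have hinj : InjOn (fun t : ℝ => Real.exp t / √x) univ := by
    intro a _ b _ hab
    have : Real.exp a = Real.exp b := by
      simp only at hab
      field_simp at hab
      exact hab
    exact Real.exp_injective this
  set g : ℝ → ℝ := fun u => Real.exp (-(x * u)) * (Real.exp (-(1 / u)) * u ^ (-(ν + 1))) with hg
  have hpt : ∀ t : ℝ, |Real.exp t / √x| • g (Real.exp t / √x) =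
      x ^ (ν / 2) * (Real.exp (-(2 * √x * Real.cosh t)) * Real.exp (-(ν * t))) := by
    intro t
    rw [abs_of_pos (by positivity), smul_eq_mul, hg]
    simp only
    have hsq : √x * √x = x := Real.mul_self_sqrt hx.le
    have e1 : x * (Real.exp t / √x) = √x * Real.exp t := by
      nth_rewrite 1 [← hsq]
      field_simp
    have e2 : 1 / (Real.exp t / √x) = √x * Real.exp (-t) := by
      rw [Real.exp_neg]; field_simp
    have e3 : Real.exp (-(x * (Real.exp t / √x))) * Real.exp (-(1 / (Real.exp t / √x))) =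
        Real.exp (-(2 * √x * Real.cosh t)) := by
      rw [← Real.exp_add, e1, e2, Real.cosh_eq]
      congr 1; ring
    have e4 : (Real.exp t / √x) * (Real.exp t / √x) ^ (-(ν + 1)) = x ^ (ν / 2) * Real.exp (-(ν * t)) := by
      nth_rewrite 1 [← Real.rpow_one (Real.exp t / √x)]
      rw [← Real.rpow_add (by positivity), Real.div_rpow (by positivity) (by positivity)]
      have e5 : (1:ℝ) + -(ν + 1) = -ν := by ring
      rw [e5, Real.rpow_neg hy.le, Real.sqrt_eq_rpow, ← Real.rpow_mul hx.le,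
        ← Real.exp_mul]
      have e6 : (1:ℝ) / 2 * ν = ν / 2 := by ring
      have e7 : t * -ν = -(ν * t) := by ring
      rw [e6, e7]
      field_simp
    calc Real.exp t / √x * (Real.exp (-(x * (Real.exp t / √x))) *
          (Real.exp (-(1 / (Real.exp t / √x))) * (Real.exp t / √x) ^ (-(ν + 1))))
        = (Real.exp (-(x * (Real.exp t / √x))) * Real.exp (-(1 / (Real.exp t / √x)))) *
          ((Real.exp t / √x) * (Real.exp t / √x) ^ (-(ν + 1))) := by ring
      _ = _ := by rw [e3, e4]; ring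
  constructor
  · have h1 := integral_image_eq_integral_abs_deriv_smul MeasurableSet.univ hderiv hinj g
    rw [range_exp_div hy, setIntegral_univ] at h1
    have h2 : WW ν 1 x = ∫ u in Ioi (0:ℝ), g u := rfl
    rw [h2, h1, ← integral_const_mul]
    exact integral_congr_ae (Eventually.of_forall hpt)
  · have h1 := integrableOn_image_iff_integrableOn_abs_deriv_smul MeasurableSet.univ hderiv hinj g
    rw [range_exp_div hy, integrableOn_univ] at h1
    have h2 := h1.mp (WW_integrable hν hx.le)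
    have h3 : Integrable (fun t : ℝ => x ^ (ν / 2) * (Real.exp (-(2 * √x * Real.cosh t)) *
        Real.exp (-(ν * t)))) := h2.congr (Eventually.of_forall hpt)
    have h4 : IsUnit (x ^ (ν / 2)) := (Real.rpow_pos_of_pos hx _).ne'.isUnit
    exact (integrable_const_mul_iff h4 _).mp h3

theorem WW_eq_besselK {ν x : ℝ} (hν : 0 < ν) (hx : 0 < x) :
    WW ν 1 x = 2 * x ^ (ν / 2) * besselK ν (2 * √x) := by
  obtain ⟨h1, h2⟩ := WW_eq_line hν hx
  rw [h1, integral_split h2]
  unfold besselK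
  have h3 : ∫ t in Ioi (0:ℝ), (Real.exp (-(2 * √x * Real.cosh t)) * Real.exp (-(ν * t)) +
      Real.exp (-(2 * √x * Real.cosh (-t))) * Real.exp (-(ν * (-t)))) =
      2 * ∫ t in Ioi (0:ℝ), Real.exp (-(2 * √x * Real.cosh t)) * Real.cosh (ν * t) := by
    rw [← integral_const_mul]
    apply setIntegral_congr_fun measurableSet_Ioi
    intro t _
    simp only
    rw [Real.cosh_neg, Real.cosh_eq (ν * t)]
    have : -(ν * -t) = ν * t := by ring
    rw [this]
    ring
  rw [h3]
  ring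

theorem image_sinh_half : (fun t : ℝ => Real.sinh (t / 2)) '' (Ioi 0) = Ioi 0 := by
  ext u
  simp only [mem_image, mem_Ioi]
  constructor
  · rintro ⟨t, ht, rfl⟩
    rw [Real.sinh_pos_iff]
    linarith
  · intro hu
    obtain ⟨s, hs⟩ := Real.sinh_surjective u
    refine ⟨2 * s, ?_, ?_⟩
    · rw [← hs, Real.sinh_pos_iff] at hu
      linarith
    · rw [← hs]; congr 1; ring

theorem besselK_half {z : ℝ} (_hz : 0 < z) :
    besselK (1 / 2) z = Real.exp (-z) * √(Real.pi / (2 * z)) := by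
  have hderiv : ∀ t ∈ Ioi (0:ℝ), HasDerivWithinAt (fun t : ℝ => Real.sinh (t / 2))
      (Real.cosh (t / 2) * (1 / 2)) (Ioi 0) t := fun t _ =>
    (((hasDerivAt_id t).div_const 2).sinh).hasDerivWithinAt
  have hinj : InjOn (fun t : ℝ => Real.sinh (t / 2)) (Ioi 0) := by
    intro a _ b _ hab
    have := Real.sinh_injective hab
    linarith
  have h1 := integral_image_eq_integral_abs_deriv_smul measurableSet_Ioi hderiv hinj
    (fun w => Real.exp (-(2 * z) * w ^ 2))
  rw [image_sinh_half, integral_gaussian_Ioi] at h1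
  have h2 : besselK (1 / 2) z = 2 * Real.exp (-z) * ∫ t in Ioi (0:ℝ),
      |Real.cosh (t / 2) * (1 / 2)| • Real.exp (-(2 * z) * Real.sinh (t / 2) ^ 2) := by
    unfold besselK
    rw [← integral_const_mul]
    apply setIntegral_congr_fun measurableSet_Ioi
    intro t _
    simp only [smul_eq_mul]
    have hc : 0 < Real.cosh (t / 2) := Real.cosh_pos _
    rw [abs_of_pos (by positivity)]
    have e1 : Real.cosh t = 1 + 2 * Real.sinh (t / 2) ^ 2 := by
      have h3 := Real.cosh_two_mul (t / 2)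
      have h4 := Real.cosh_sq (t / 2)
      have h5 : 2 * (t / 2) = t := by ring
      rw [h5] at h3
      rw [h3, h4]; ring
    have e2 : Real.exp (-(z * Real.cosh t)) = Real.exp (-z) *
        Real.exp (-(2 * z) * Real.sinh (t / 2) ^ 2) := by
      rw [← Real.exp_add, e1]; congr 1; ring
    have e3 : 1 / 2 * t = t / 2 := by ring
    rw [e2, e3]
    ring
  rw [h2, ← h1]
  ring

theorem WW_half {x : ℝ} (hx : 0 < x) : WW (1 / 2) 1 x = √Real.pi * Real.exp (-(2 * √x)) := by
  rw [WW_eq_besselK (by norm_num) hx, besselK_half (by positivity)]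
  have hy : 0 < √x := Real.sqrt_pos.mpr hx
  have e1 : √(Real.pi / (2 * (2 * √x))) = √Real.pi / (2 * x ^ ((1:ℝ) / 2 / 2)) := by
    rw [Real.sqrt_div Real.pi_pos.le]
    congr 1
    have h4 : 2 * (2 * √x) = 4 * √x := by ring
    rw [h4, Real.sqrt_mul (by norm_num), Real.sqrt_eq_rpow, Real.sqrt_eq_rpow, Real.sqrt_eq_rpow,
      ← Real.rpow_mul hx.le]
    have h5 : (4:ℝ) ^ ((1:ℝ) / 2) = 2 := by
      rw [← Real.sqrt_eq_rpow]
      rw [show (4:ℝ) = 2 ^ 2 by norm_num, Real.sqrt_sq (by norm_num)]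
    rw [h5]
    congr 2
    norm_num
  rw [e1]
  have h6 : 0 < x ^ ((1:ℝ) / 2 / 2) := Real.rpow_pos_of_pos hx _
  field_simp

end Pool.Agent.Lib.MP_749de9_pr
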