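import Pool.Agent.Lib.MP_749de9_pr.KRatio
import Pool.Agent.Lib.MP_749de9_pr.KBessel
open MeasureTheory Filter Topology Set

namespace Pool.Agent.Lib.MP_749de9_pr

/-- scaled integrand -/
noncomputable def scal (ν s N x u : ℝ) : ℝ :=
  Real.exp (-(x * u)) * ((1 + 1 / (N * u)) ^ (-s) * (u + 1 / N) ^ (-(ν + 1)))

theorem JJ_scale {ν s x N : ℝ} (hN : 0 < N) :
    N ^ ν * JJ ν s (x / N) = ∫ u in Ioi (0:ℝ), scal ν s N x u := by
  have h := integral_comp_mul_left_Ioi (phiJ ν s (x / N)) 0 hN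
  rw [mul_zero, smul_eq_mul] at h
  have h1 : JJ ν s (x / N) = N * ∫ u in Ioi (0:ℝ), phiJ ν s (x / N) (N * u) := by
    rw [h, ← mul_assoc, mul_inv_cancel₀ hN.ne', one_mul]; rfl
  rw [h1, ← mul_assoc, ← integral_const_mul]
  apply setIntegral_congr_fun measurableSet_Ioi
  intro u hu
  have hu' : (0:ℝ) < u := hu
  simp only [phiJ, scal]
  have e1 : x / N * (N * u) = x * u := by field_simp
  have e2 : 1 + N * u = (N * u) * (1 + 1 / (N * u)) := by field_simp; ring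
  have e3 : 1 + N * u = N * (u + 1 / N) := by field_simp; ring
  have hNu : 0 < N * u := by positivity
  have e4 : (1 + N * u) ^ (-(s + ν + 1)) = (N * u) ^ (-s) * (1 + 1 / (N * u)) ^ (-s) *
      (N ^ (-(ν + 1)) * (u + 1 / N) ^ (-(ν + 1))) := by
    have e5 : -(s + ν + 1) = -s + -(ν + 1) := by ring
    rw [e5, Real.rpow_add (by positivity)]
    congr 1
    · rw [e2, Real.mul_rpow hNu.le (by positivity)]
    · rw [e3, Real.mul_rpow hN.le (by positivity)]
  rw [e1, e4]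
  have e6 : (N * u) ^ s * (N * u) ^ (-s) = 1 := by
    rw [← Real.rpow_add hNu]; simp
  have e7 : N ^ ν * N * N ^ (-(ν + 1)) = 1 := by
    nth_rewrite 2 [← Real.rpow_one N]
    rw [← Real.rpow_add hN, ← Real.rpow_add hN]
    have : ν + 1 + -(ν + 1) = 0 := by ring
    rw [this, Real.rpow_zero]
  calc N ^ ν * N * (Real.exp (-(x * u)) * ((N * u) ^ s * ((N * u) ^ (-s) *
        (1 + 1 / (N * u)) ^ (-s) * (N ^ (-(ν + 1)) * (u + 1 / N) ^ (-(ν + 1))))))
      = (N ^ ν * N * N ^ (-(ν + 1))) * ((N * u) ^ s * (N * u) ^ (-s)) *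
        (Real.exp (-(x * u)) * ((1 + 1 / (N * u)) ^ (-s) * (u + 1 / N) ^ (-(ν + 1)))) := by ring
    _ = _ := by rw [e6, e7]; ring

theorem scal_bound {ν c s N x u : ℝ} (hc : 0 < c) (hN : 0 < N) (hs : c * N ≤ s)
    (hu : 0 < u) {p : ℕ} (hp : ν + 1 ≤ p) (hν : 0 < ν) :
    |scal ν s N x u| ≤ (1 + p.factorial / c ^ p) * Real.exp (-(x * u)) := by
  have hNu : 0 < N * u := by positivity
  have h1 : 0 < scal ν s N x u := by unfold scal; positivity
  rw [abs_of_pos h1]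
  unfold scal
  rw [mul_comm]
  apply mul_le_mul_of_nonneg_right _ (Real.exp_pos _).le
  -- (1+y)^{-s} ≤ exp(-c z), z = 1/(u+1/N)
  set z : ℝ := 1 / (u + 1 / N) with hz
  have hz0 : 0 < z := by positivity
  have hs0 : 0 < s := lt_of_lt_of_le (by positivity) hs
  have h2 : (1 + 1 / (N * u)) ^ (-s) ≤ Real.exp (-(c * z)) := by
    rw [Real.rpow_def_of_pos (by positivity)]
    apply Real.exp_le_exp.mpr
    have h3 := Real.one_sub_inv_le_log_of_pos (x := 1 + 1 / (N * u)) (by positivity)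
    have h4 : 1 - (1 + 1 / (N * u))⁻¹ = z / N := by
      rw [hz]; field_simp; ring
    rw [h4] at h3
    have h5 : c * z ≤ s * (z / N) := by
      have : s * (z / N) = (s / N) * z := by ring
      rw [this]
      apply mul_le_mul_of_nonneg_right _ hz0.le
      rw [le_div_iff₀ hN]; exact hs
    have h6 : s * (z / N) ≤ s * Real.log (1 + 1 / (N * u)) := mul_le_mul_of_nonneg_left h3 hs0.le
    nlinarith
  have h3 : (u + 1 / N) ^ (-(ν + 1)) = z ^ (ν + 1) := by
    rw [hz, one_div (u + 1 / N), Real.inv_rpow (by positivity), Real.rpow_neg (by positivity)]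
  rw [h3]
  have h4 : z ^ (ν + 1) ≤ 1 + z ^ p := by
    rcases le_total z 1 with h | h
    · have : z ^ (ν + 1) ≤ 1 := Real.rpow_le_one hz0.le h (by linarith)
      have h5 : 0 ≤ z ^ p := by positivity
      linarith
    · have : z ^ (ν + 1) ≤ z ^ (p : ℝ) := Real.rpow_le_rpow_of_exponent_le h hp
      rw [Real.rpow_natCast] at this
      linarith
  have h5 : z ^ p ≤ p.factorial / c ^ p * Real.exp (c * z) := by
    have h6 := Real.pow_div_factorial_le_exp (c * z) (by positivity) p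
    rw [div_le_iff₀ (by positivity), mul_pow] at h6
    rw [div_mul_eq_mul_div, le_div_iff₀ (by positivity)]
    linarith
  have h6 : Real.exp (-(c * z)) * Real.exp (c * z) = 1 := by rw [← Real.exp_add]; simp
  have h7 : Real.exp (-(c * z)) ≤ 1 := by
    rw [Real.exp_le_one_iff]
    have : 0 < c * z := by positivity
    linarith
  calc (1 + 1 / (N * u)) ^ (-s) * z ^ (ν + 1) ≤ Real.exp (-(c * z)) * (1 + z ^ p) :=
        mul_le_mul h2 h4 (by positivity) (Real.exp_pos _).le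
    _ ≤ Real.exp (-(c * z)) * (1 + p.factorial / c ^ p * Real.exp (c * z)) := by
        apply mul_le_mul_of_nonneg_left _ (Real.exp_pos _).le
        linarith
    _ = Real.exp (-(c * z)) + p.factorial / c ^ p * (Real.exp (-(c * z)) * Real.exp (c * z)) := by ring
    _ ≤ 1 + p.factorial / c ^ p := by rw [h6]; linarith

theorem scal_tendsto {ν σ x u : ℝ} (hu : 0 < u) {N s : ℕ → ℝ} (hN : Tendsto N atTop atTop)
    (hs : Tendsto (fun k => s k / N k) atTop (𝓝 σ)) :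
    Tendsto (fun k => scal ν (s k) (N k) x u) atTop
      (𝓝 (Real.exp (-(x * u)) * (Real.exp (-(σ / u)) * u ^ (-(ν + 1))))) := by
  have h1 : Tendsto (fun k => N k * Real.log (1 + (1 / u) / N k)) atTop (𝓝 (1 / u)) :=
    (Real.tendsto_mul_log_one_add_div_atTop (1 / u)).comp hN
  have h2 : Tendsto (fun k => Real.exp (-((s k / N k) * (N k * Real.log (1 + (1 / u) / N k)))))
      atTop (𝓝 (Real.exp (-(σ * (1 / u))))) :=
    (Real.continuous_exp.tendsto _).comp ((hs.mul h1).neg)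
  have h3 : Tendsto (fun k => 1 / N k) atTop (𝓝 0) := by
    have := tendsto_inv_atTop_zero.comp hN
    refine this.congr (fun k => ?_)
    simp
  have h4 : Tendsto (fun k => (u + 1 / N k) ^ (-(ν + 1))) atTop (𝓝 (u ^ (-(ν + 1)))) := by
    have h5 : Tendsto (fun k => u + 1 / N k) atTop (𝓝 (u + 0)) := tendsto_const_nhds.add h3
    rw [add_zero] at h5
    exact h5.rpow_const (Or.inl hu.ne')
  have h5 : Tendsto (fun k => Real.exp (-(x * u)) *
      (Real.exp (-((s k / N k) * (N k * Real.log (1 + (1 / u) / N k)))) *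
        (u + 1 / N k) ^ (-(ν + 1)))) atTop
      (𝓝 (Real.exp (-(x * u)) * (Real.exp (-(σ * (1 / u))) * u ^ (-(ν + 1))))) :=
    tendsto_const_nhds.mul (h2.mul h4)
  have e1 : σ * (1 / u) = σ / u := by ring
  rw [e1] at h5
  refine h5.congr' ?_
  filter_upwards [hN.eventually_gt_atTop 0] with k hk
  unfold scal
  congr 2
  rw [Real.rpow_def_of_pos (by positivity)]
  congr 1
  have e2 : 1 / u / N k = 1 / (N k * u) := by field_simp
  rw [e2]
  field_simp

theorem JJ_scale_tendsto {ν σ x : ℝ} (hν : 0 < ν) (hσ : 0 < σ) (hx : 0 < x) {N s : ℕ → ℝ}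
    (hN : Tendsto N atTop atTop) (hs : Tendsto (fun k => s k / N k) atTop (𝓝 σ)) :
    Tendsto (fun k => N k ^ ν * JJ ν (s k) (x / N k)) atTop (𝓝 (WW ν σ x)) := by
  obtain ⟨p, hp⟩ := exists_nat_ge (ν + 1)
  have h1 : Tendsto (fun k => ∫ u in Ioi (0:ℝ), scal ν (s k) (N k) x u) atTop
      (𝓝 (WW ν σ x)) := by
    unfold WW
    apply tendsto_integral_filter_of_dominated_convergence
      (fun u => (1 + p.factorial / (σ / 2) ^ p) * Real.exp (-(x * u)))
    · refine Eventually.of_forall (fun k => ?_)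
      apply Measurable.aestronglyMeasurable
      unfold scal
      fun_prop
    · filter_upwards [hN.eventually_gt_atTop 0, hs.eventually_const_le (by linarith : σ / 2 < σ)]
        with k hk hk2
      rw [ae_restrict_iff' measurableSet_Ioi]
      refine Eventually.of_forall (fun u hu => ?_)
      rw [Real.norm_eq_abs]
      apply scal_bound (by positivity) hk _ hu hp hν
      rw [le_div_iff₀ hk] at hk2
      exact hk2
    · exact (integrableOn_exp hx).const_mul _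
    · rw [ae_restrict_iff' measurableSet_Ioi]
      refine Eventually.of_forall (fun u hu => ?_)
      exact scal_tendsto hu hN hs
  refine h1.congr' ?_
  filter_upwards [hN.eventually_gt_atTop 0] with k hk
  exact (JJ_scale hk).symm

theorem WW_pos' {ν σ x : ℝ} (hν : 0 < ν) (hσ : 0 < σ) (hx : 0 ≤ x) : 0 < WW ν σ x := by
  rw [WW_scale hσ]
  have := WW_pos hν (by positivity : 0 ≤ σ * x)
  positivity

/-- the scale -/
noncomputable def NN (γ : ℝ) (k : ℕ) : ℝ := ((k : ℝ) + 1) / (1 - γ ^ 2)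

theorem one_sub_sq_pos {γ : ℝ} (h0 : 0 < γ) (h1 : γ < 1) : 0 < 1 - γ ^ 2 := by nlinarith

theorem NN_pos {γ : ℝ} (h0 : 0 < γ) (h1 : γ < 1) (k : ℕ) : 0 < NN γ k := by
  have := one_sub_sq_pos h0 h1
  unfold NN; positivity

theorem NN_tendsto {γ : ℝ} (h0 : 0 < γ) (h1 : γ < 1) : Tendsto (NN γ) atTop atTop := by
  have h2 := one_sub_sq_pos h0 h1
  unfold NN
  apply Tendsto.atTop_div_const h2
  exact tendsto_atTop_add_const_right _ _ tendsto_natCast_atTop_atTop

theorem NN_add {γ : ℝ} (h0 : 0 < γ) (h1 : γ < 1) (k : ℕ) (δ : ℝ) :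
    γ ^ 2 * NN γ k + δ + ((k + 1 : ℕ) : ℝ) = NN γ k + δ := by
  have h2 := one_sub_sq_pos h0 h1
  unfold NN
  push_cast
  field_simp
  ring

theorem NN_lim1 {γ : ℝ} (h0 : 0 < γ) (h1 : γ < 1) (c δ : ℝ) :
    Tendsto (fun k => (c * NN γ k + δ) / NN γ k) atTop (𝓝 c) := by
  have h3 : Tendsto (fun k => c + δ * (NN γ k)⁻¹) atTop (𝓝 (c + δ * 0)) :=
    tendsto_const_nhds.add (tendsto_const_nhds.mul (tendsto_inv_atTop_zero.comp (NN_tendsto h0 h1)))
  rw [mul_zero, add_zero] at h3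
  refine h3.congr (fun k => ?_)
  have := (NN_pos h0 h1 k).ne'
  field_simp

theorem ratio_scale_tendsto {ν γ x δ : ℝ} (hν : 0 < ν) (h0 : 0 < γ) (h1 : γ < 1) (hx : 0 < x)
    (_hδ : 0 ≤ δ) :
    Tendsto (fun k : ℕ => JJ ν (γ ^ 2 * NN γ k + δ + ((k + 1 : ℕ) : ℝ)) (x / NN γ k) /
      JJ ν (γ ^ 2 * NN γ k + δ) (x / NN γ k)) atTop
      (𝓝 (γ ^ (2 * ν) * (WW ν 1 x / WW ν 1 (γ ^ 2 * x)))) := by
  have hN := NN_tendsto h0 h1
  have hA := JJ_scale_tendsto hν one_pos hx hN (s := fun k => NN γ k + δ) (by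
    simpa using NN_lim1 h0 h1 1 δ)
  have hγ2 : 0 < γ ^ 2 := by positivity
  have hB := JJ_scale_tendsto hν hγ2 hx hN (s := fun k => γ ^ 2 * NN γ k + δ) (NN_lim1 h0 h1 _ δ)
  have hC := hA.div hB (WW_pos' hν hγ2 hx.le).ne'
  have e1 : WW ν 1 x / WW ν (γ ^ 2) x = γ ^ (2 * ν) * (WW ν 1 x / WW ν 1 (γ ^ 2 * x)) := by
    rw [WW_scale hγ2]
    have hW := WW_pos hν (by positivity : 0 ≤ γ ^ 2 * x)
    have e2 : (γ ^ 2) ^ (-ν) = (γ ^ (2 * ν))⁻¹ := by
      rw [← Real.rpow_natCast γ 2, ← Real.rpow_mul h0.le, ← Real.rpow_neg h0.le]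
      congr 1
      push_cast
      ring
    rw [e2]
    have hg : 0 < γ ^ (2 * ν) := Real.rpow_pos_of_pos h0 _
    generalize γ ^ (2 * ν) = g at *
    generalize WW ν 1 (γ ^ 2 * x) = w at *
    field_simp
  rw [e1] at hC
  refine hC.congr (fun k => ?_)
  rw [NN_add h0 h1]
  have hNk := NN_pos h0 h1 k
  have hpow : (NN γ k) ^ ν ≠ 0 := (Real.rpow_pos_of_pos hNk _).ne'
  simp only [Pi.div_apply]
  rw [mul_div_mul_left _ _ hpow]

theorem W_ratio_CM {ν γ : ℝ} (hν : 0 < ν) (h0 : 0 < γ) (h1 : γ < 1) :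
    CM (fun x => WW ν 1 x / WW ν 1 (γ ^ 2 * x)) := by
  have hg : 0 < γ ^ (2 * ν) := Real.rpow_pos_of_pos h0 _
  have h2 : CM (fun x => γ ^ (2 * ν) * (WW ν 1 x / WW ν 1 (γ ^ 2 * x))) := by
    apply CM.limit (f := fun k x => JJ ν (γ ^ 2 * NN γ k + 0 + ((k + 1 : ℕ) : ℝ)) (x / NN γ k) /
      JJ ν (γ ^ 2 * NN γ k + 0) (x / NN γ k)) _ 1
    · intro k x hx
      have hNk := NN_pos h0 h1 k
      have hs : 0 ≤ γ ^ 2 * NN γ k + 0 := by positivity
      have hxN : 0 < x / NN γ k := by positivity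
      rw [div_le_one (JJ_pos hν hs hxN)]
      exact JJ_add_nat_le hν hs hxN (k + 1)
    · intro x hx
      exact ratio_scale_tendsto hν h0 h1 hx (le_refl 0)
    · intro k
      have hNk := NN_pos h0 h1 k
      have hs : 0 ≤ γ ^ 2 * NN γ k + 0 := by positivity
      refine ((JJ_ratio_CM hν hs (k + 1)).comp_mul (inv_pos.mpr hNk)).congr (fun x _ => ?_)
      rw [div_eq_inv_mul x]
  refine (h2.smul (inv_pos.mpr hg).le).congr (fun x _ => ?_)
  rw [← mul_assoc, inv_mul_cancel₀ hg.ne', one_mul]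

theorem WW_tendsto_zero {ν : ℝ} (hν : 0 < ν) :
    Tendsto (fun x => WW ν 1 x) (𝓝[>] 0) (𝓝 (WW ν 1 0)) := by
  have h := (WW_continuousOn hν) 0 (by simp)
  exact h.tendsto.mono_left (nhdsWithin_mono _ Ioi_subset_Ici_self)

theorem mul_tendsto_zero_right {c : ℝ} (hc : 0 < c) :
    Tendsto (fun x : ℝ => c * x) (𝓝[>] 0) (𝓝[>] 0) := by
  rw [tendsto_nhdsWithin_iff]
  constructor
  · have h : Tendsto (fun x : ℝ => c * x) (𝓝 0) (𝓝 (c * 0)) := by
      exact (continuous_const.mul continuous_id).tendsto 0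
    rw [mul_zero] at h
    exact h.mono_left nhdsWithin_le_nhds
  · filter_upwards [self_mem_nhdsWithin] with x hx
    have : (0:ℝ) < x := hx
    simp only [mem_Ioi]
    positivity

theorem W_ratio2_CM {ν γ : ℝ} (hν : 1 / 2 < ν) (h0 : 0 < γ) (h1 : γ < 1) :
    CM (fun x => Real.exp (-(2 * (1 - γ) * √x)) * (WW ν 1 (γ ^ 2 * x) / WW ν 1 x)) := by
  have hν0 : 0 < ν := by linarith
  set δ : ℝ := (ν - 1 / 2) / 2 with hδ
  have hδ0 : 0 ≤ δ := by rw [hδ]; linarith
  have hd : 2 * δ + 1 / 2 = ν := by rw [hδ]; ring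
  have hg : 0 < γ ^ (2 * ν) := Real.rpow_pos_of_pos h0 _
  have hg' : 0 < γ ^ (2 * (1 / 2 : ℝ)) := Real.rpow_pos_of_pos h0 _
  set c : ℝ := γ ^ (2 * (1 / 2 : ℝ)) / γ ^ (2 * ν) with hc
  have hc0 : 0 < c := by positivity
  set g : ℝ → ℝ := fun x => c * (Real.exp (-(2 * (1 - γ) * √x)) *
    (WW ν 1 (γ ^ 2 * x) / WW ν 1 x)) with hgdef
  set f : ℕ → ℝ → ℝ := fun k x =>
    (JJ (1 / 2) (γ ^ 2 * NN γ k + δ + ((k + 1 : ℕ) : ℝ)) (x / NN γ k) /
      JJ (1 / 2) (γ ^ 2 * NN γ k + δ) (x / NN γ k)) /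
    (JJ ν (γ ^ 2 * NN γ k + 0 + ((k + 1 : ℕ) : ℝ)) (x / NN γ k) /
      JJ ν (γ ^ 2 * NN γ k + 0) (x / NN γ k)) with hf
  have hfCM : ∀ k, CM (f k) := by
    intro k
    have hNk := NN_pos h0 h1 k
    have hs : 0 ≤ γ ^ 2 * NN γ k := by positivity
    refine ((JJ_ratio2_CM hν0 (by norm_num : (0:ℝ) < 1 / 2) hδ0 hd hs (k + 1)).comp_mul
      (inv_pos.mpr hNk)).congr (fun x _ => ?_)
    simp only [hf]
    rw [div_eq_inv_mul x, add_zero]
  have hlim : ∀ x : ℝ, 0 < x → Tendsto (fun k => f k x) atTop (𝓝 (g x)) := by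
    intro x hx
    have hA := ratio_scale_tendsto (ν := 1 / 2) (by norm_num) h0 h1 hx hδ0
    have hB := ratio_scale_tendsto hν0 h0 h1 hx (le_refl 0)
    have hx2 : 0 < γ ^ 2 * x := by positivity
    have hW1 := WW_pos hν0 hx.le
    have hW2 := WW_pos hν0 hx2.le
    have hne : γ ^ (2 * ν) * (WW ν 1 x / WW ν 1 (γ ^ 2 * x)) ≠ 0 := by positivity
    have hC := hA.div hB hne
    have e1 : γ ^ (2 * (1 / 2 : ℝ)) * (WW (1 / 2) 1 x / WW (1 / 2) 1 (γ ^ 2 * x)) /
        (γ ^ (2 * ν) * (WW ν 1 x / WW ν 1 (γ ^ 2 * x))) = g x := by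
      rw [WW_half hx, WW_half hx2]
      have e2 : √(γ ^ 2 * x) = γ * √x := by
        rw [Real.sqrt_mul (by positivity), Real.sqrt_sq h0.le]
      rw [e2]
      have e3 : √Real.pi * Real.exp (-(2 * √x)) / (√Real.pi * Real.exp (-(2 * (γ * √x)))) =
          Real.exp (-(2 * (1 - γ) * √x)) := by
        rw [mul_div_mul_left _ _ (Real.sqrt_pos.mpr Real.pi_pos).ne', ← Real.exp_sub]
        congr 1; ring
      rw [e3]
      simp only [hgdef, hc]
      generalize WW ν 1 x = w1 at *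
      generalize WW ν 1 (γ ^ 2 * x) = w2 at *
      generalize γ ^ (2 * (1 / 2 : ℝ)) = g1 at *
      generalize γ ^ (2 * ν) = g2 at *
      field_simp
    rw [e1] at hC
    exact hC
  have hgtend : Tendsto g (𝓝[>] 0) (𝓝 c) := by
    have hW := WW_tendsto_zero hν0
    have hW2 := hW.comp (mul_tendsto_zero_right (by positivity : 0 < γ ^ 2))
    have hW0 : WW ν 1 0 ≠ 0 := (WW_pos hν0 (le_refl 0)).ne'
    have h3 : Tendsto (fun x => WW ν 1 (γ ^ 2 * x) / WW ν 1 x) (𝓝[>] 0)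
        (𝓝 (WW ν 1 0 / WW ν 1 0)) := hW2.div hW hW0
    rw [div_self hW0] at h3
    have h4 : Tendsto (fun x : ℝ => Real.exp (-(2 * (1 - γ) * √x))) (𝓝[>] 0) (𝓝 1) := by
      have h5 : Continuous (fun x : ℝ => Real.exp (-(2 * (1 - γ) * √x))) := by fun_prop
      have h6 := h5.tendsto 0
      simp only [Real.sqrt_zero, mul_zero, neg_zero, Real.exp_zero] at h6
      exact h6.mono_left nhdsWithin_le_nhds
    have h7 := (h4.mul h3).const_mul c
    simpa using h7
  have hganti : ∀ x y : ℝ, 0 < x → x ≤ y → g y ≤ g x := by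
    intro x y hx hxy
    exact le_of_tendsto_of_tendsto' (hlim y (hx.trans_le hxy)) (hlim x hx)
      (fun k => (hfCM k).antitone hx hxy)
  have hgle : ∀ x : ℝ, 0 < x → g x ≤ c := by
    intro x hx
    apply ge_of_tendsto hgtend
    filter_upwards [Ioc_mem_nhdsGT hx] with y hy
    exact hganti y x hy.1 hy.2
  have hgcont : ContinuousOn g (Ioi 0) := by
    have hW := (WW_continuousOn hν0).mono Ioi_subset_Ici_self
    have hW2 : ContinuousOn (fun x => WW ν 1 (γ ^ 2 * x)) (Ioi 0) := by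
      apply ContinuousOn.comp (t := Ioi 0) hW (by fun_prop)
      intro x hx
      have : (0:ℝ) < x := hx
      simp only [mem_Ioi]
      positivity
    have h3 : ContinuousOn (fun x => WW ν 1 (γ ^ 2 * x) / WW ν 1 x) (Ioi 0) := hW2.div hW
      (fun x hx => (WW_pos hν0 (le_of_lt hx)).ne')
    exact continuousOn_const.mul ((by fun_prop : ContinuousOn
      (fun x : ℝ => Real.exp (-(2 * (1 - γ) * √x))) (Ioi 0)).mul h3)
  have hgCM : CM g := CM.limit' hfCM c hgle hgcont hlim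
  refine (hgCM.smul (inv_pos.mpr hc0).le).congr (fun x _ => ?_)
  simp only [hgdef]
  rw [← mul_assoc, inv_mul_cancel₀ hc0.ne', one_mul]

end Pool.Agent.Lib.MP_749de9_pr
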