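import Pool.Agent.Lib.MP_749de9_pr.CM
open MeasureTheory Filter Topology Set ProbabilityTheory

namespace Pool.Agent.Lib.MP_749de9_pr

/-- `P` is a probability law on `[0, ∞)` whose Laplace transform is `L` (on `x > 0`). -/
structure IsLaw (P : Measure ℝ) (L : ℝ → ℝ) : Prop where
  prob : IsProbabilityMeasure P
  nonneg : P (Iio 0) = 0
  laplace : ∀ x : ℝ, 0 < x → ∫ t, Real.exp (-(x * t)) ∂P = L x

/-- `P` is self-decomposable: for every `c ∈ (0,1)` there are a random variable `X` with law `P`
and an independent random variable `Y` such that `c X + Y` has law `P`. -/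
def SelfDecomposable (P : Measure ℝ) : Prop :=
  ∀ c : ℝ, 0 < c → c < 1 → ∃ (Ω : Type) (_ : MeasurableSpace Ω) (μ : Measure Ω) (X Y : Ω → ℝ),
    IsProbabilityMeasure μ ∧ Measurable X ∧ Measurable Y ∧ IndepFun X Y μ ∧
      μ.map X = P ∧ μ.map (fun ω => c * X ω + Y ω) = P

/-! ### uniqueness -/

theorem unit_ext {ν ν' : Measure unitInterval} [IsFiniteMeasure ν] [IsFiniteMeasure ν']
    (h : ∀ n : ℕ, ∫ u, (u : ℝ) ^ n ∂ν = ∫ u, (u : ℝ) ^ n ∂ν') : ν = ν' := by
  have hint : ∀ (κ : Measure unitInterval) [IsFiniteMeasure κ] (f : C(unitInterval, ℝ)),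
      Integrable f κ := by
    intro κ _ f
    exact (BoundedContinuousFunction.mkOfCompact f).integrable κ
  -- polynomials
  have hpoly : ∀ p : Polynomial ℝ, ∫ u : unitInterval, p.eval (u : ℝ) ∂ν =
      ∫ u : unitInterval, p.eval (u : ℝ) ∂ν' := by
    intro p
    simp only [Polynomial.eval_eq_sum_range]
    rw [integral_finsetSum, integral_finsetSum]
    · apply Finset.sum_congr rfl
      intro i _
      rw [integral_const_mul, integral_const_mul, h i]
    · intro i _
      apply Integrable.const_mul
      exact hint ν' ⟨fun u : unitInterval => (u : ℝ) ^ i, by fun_prop⟩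
    · intro i _
      apply Integrable.const_mul
      exact hint ν ⟨fun u : unitInterval => (u : ℝ) ^ i, by fun_prop⟩
  apply ext_of_forall_integral_eq_of_IsFiniteMeasure
  intro f
  -- approximate
  have hb : ∀ ε : ℝ, 0 < ε → |∫ u, f u ∂ν - ∫ u, f u ∂ν'| ≤ ε * (ν.real univ + ν'.real univ) := by
    intro ε hε
    obtain ⟨p, hp⟩ := exists_polynomial_near_continuousMap 0 1 (f.toContinuousMap) ε hε
    have hp' : ∀ u : unitInterval, |p.eval (u : ℝ) - f u| ≤ ε := by
      intro u
      have := (ContinuousMap.norm_lt_iff _ hε).mp hp u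
      simp only [ContinuousMap.sub_apply, Real.norm_eq_abs] at this
      exact le_of_lt this
    have key : ∀ (κ : Measure unitInterval) [IsFiniteMeasure κ],
        |∫ u, f u ∂κ - ∫ u : unitInterval, p.eval (u : ℝ) ∂κ| ≤ ε * κ.real univ := by
      intro κ _
      have hpI : Integrable (fun u : unitInterval => p.eval (u : ℝ)) κ :=
        hint κ ⟨fun u : unitInterval => p.eval (u : ℝ), by fun_prop⟩
      have hfI : Integrable (fun u => f u) κ := f.integrable κ
      rw [← integral_sub hfI hpI]
      have h1 := norm_integral_le_of_norm_le_const (μ := κ) (f := fun u => f u - p.eval (u : ℝ))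
        (C := ε) (Eventually.of_forall (fun u => by
          rw [Real.norm_eq_abs, abs_sub_comm]; exact hp' u))
      rw [Real.norm_eq_abs] at h1
      exact h1
    have h1 := key ν
    have h2 := key ν'
    have h3 := hpoly p
    rw [h3] at h1
    rw [abs_le] at h1 h2 ⊢
    constructor <;> linarith [h1.1, h1.2, h2.1, h2.2]
  have hM : 0 ≤ ν.real univ + ν'.real univ := by positivity
  by_contra hne
  have hpos : 0 < |∫ u, f u ∂ν - ∫ u, f u ∂ν'| := abs_pos.mpr (sub_ne_zero.mpr hne)
  set D := |∫ u, f u ∂ν - ∫ u, f u ∂ν'| with hD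
  set M := ν.real univ + ν'.real univ with hM'
  have := hb (D / (2 * (M + 1))) (by positivity)
  have h2 : D / (2 * (M + 1)) * M < D := by
    rw [div_mul_eq_mul_div, div_lt_iff₀ (by positivity)]
    nlinarith
  linarith

/-- `t ↦ e^{-t}` truncated -/
noncomputable def TT (t : ℝ) : unitInterval :=
  ⟨Real.exp (-(max t 0)), (Real.exp_pos _).le, by
    rw [Real.exp_le_one_iff]
    have := le_max_right t 0
    linarith⟩

theorem measurable_TT : Measurable TT := by
  apply Measurable.subtype_mk
  fun_prop

/-- `u ↦ -log u` -/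
noncomputable def SS (u : unitInterval) : ℝ := -Real.log u

theorem measurable_SS : Measurable SS := by
  unfold SS
  exact (Real.measurable_log.comp measurable_subtype_coe).neg

theorem ae_nonneg_of {P : Measure ℝ} (h : P (Iio 0) = 0) : ∀ᵐ t ∂P, 0 ≤ t := by
  rw [ae_iff]
  have : {t : ℝ | ¬ 0 ≤ t} = Iio 0 := by ext t; simp
  rw [this]; exact h

theorem map_TT_map_SS {P : Measure ℝ} (h : P (Iio 0) = 0) : (P.map TT).map SS = P := by
  rw [Measure.map_map measurable_SS measurable_TT]
  have h1 : P.map (SS ∘ TT) = P.map id := by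
    apply Measure.map_congr
    filter_upwards [ae_nonneg_of h] with t ht
    simp only [Function.comp, SS, TT, id]
    rw [max_eq_left ht, Real.log_exp]
    ring
  rw [h1, Measure.map_id]

theorem IsLaw.moment {P : Measure ℝ} {L : ℝ → ℝ} (h : IsLaw P L) (n : ℕ) :
    ∫ u, (u : ℝ) ^ n ∂(P.map TT) = if n = 0 then 1 else L n := by
  have := h.prob
  rw [integral_map measurable_TT.aemeasurable (by
    apply Measurable.aestronglyMeasurable
    fun_prop)]
  split_ifs with hn
  · subst hn
    simp
  · rw [← h.laplace n (by positivity)]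
    apply integral_congr_ae
    filter_upwards [ae_nonneg_of h.nonneg] with t ht
    simp only [TT]
    rw [max_eq_left ht, ← Real.exp_nat_mul]
    congr 1; ring

theorem IsLaw.unique {P P' : Measure ℝ} {L : ℝ → ℝ} (h : IsLaw P L) (h' : IsLaw P' L) : P = P' := by
  have h1 := h.prob
  have h2 := h'.prob
  have hf1 : IsFiniteMeasure (P.map TT) := inferInstance
  have hf2 : IsFiniteMeasure (P'.map TT) := inferInstance
  have h3 : P.map TT = P'.map TT := unit_ext (fun n => by rw [h.moment, h'.moment])
  rw [← map_TT_map_SS h.nonneg, h3, map_TT_map_SS h'.nonneg]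

/-! ### existence -/

theorem CM.exists_law {f : ℝ → ℝ} (hf : CM f) (hlim : Tendsto f (𝓝[>] 0) (𝓝 1)) :
    ∃ P : Measure ℝ, IsLaw P f := by
  obtain ⟨ν, hν1, hν0, hν⟩ := hf.exists_mass_le (M := 1) (fun x hx => hf.le_of_tendsto hlim hx)
  have hmass : (ν : Measure unitInterval) univ = 1 := by
    have h1 : (1:ℝ) ≤ (ν : Measure unitInterval).real univ := by
      apply _root_.le_of_tendsto hlim
      filter_upwards [self_mem_nhdsWithin] with x hx
      have hx' : (0:ℝ) < x := hx
      rw [hν x hx']
      have h2 : ∫ u, (u : ℝ) ^ x ∂(ν : Measure unitInterval) ≤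
          ∫ _u, (1:ℝ) ∂(ν : Measure unitInterval) :=
        integral_mono (integrable_rpow_unit _ hx'.le) (integrable_const _)
          (fun u => rpow_le_one_unit u hx'.le)
      simpa using h2
    have h2 : (ν : Measure unitInterval).real univ ≤ 1 := hν1
    have h3 : (ν : Measure unitInterval).real univ = 1 := le_antisymm h2 h1
    rw [measureReal_def] at h3
    exact (ENNReal.toReal_eq_one_iff _).mp h3
  have hprob : IsProbabilityMeasure (ν : Measure unitInterval) := ⟨hmass⟩
  refine ⟨(ν : Measure unitInterval).map SS, ?_, ?_, ?_⟩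
  · exact Measure.isProbabilityMeasure_map measurable_SS.aemeasurable
  · rw [Measure.map_apply measurable_SS measurableSet_Iio]
    have : SS ⁻¹' (Iio 0) = ∅ := by
      ext u
      simp only [mem_preimage, mem_Iio, mem_empty_iff_false, iff_false, not_lt, SS]
      have := Real.log_nonpos u.2.1 u.2.2
      linarith
    rw [this]; simp
  · intro x hx
    rw [integral_map measurable_SS.aemeasurable (by
      apply Measurable.aestronglyMeasurable
      fun_prop), hν x hx]
    apply integral_congr_ae
    have h2 : ∀ᵐ u ∂(ν : Measure unitInterval), u ≠ 0 := by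
      rw [ae_iff]
      simpa using hν0
    filter_upwards [h2] with u hu
    have hu' : (0:ℝ) < u := lt_of_le_of_ne u.2.1 (fun h => hu (Subtype.ext h.symm))
    simp only [SS]
    rw [Real.rpow_def_of_pos hu']
    congr 1; ring

/-- The conversion theorem. -/
theorem law_and_selfDecomposable {L : ℝ → ℝ} (hpos : ∀ x : ℝ, 0 < x → 0 < L x)
    (hlim : Tendsto L (𝓝[>] 0) (𝓝 1))
    (hratio : ∀ γ : ℝ, 0 < γ → γ < 1 → CM (fun x => L x / L (γ ^ 2 * x))) :
    (∃ P : Measure ℝ, IsLaw P L) ∧ (∀ P : Measure ℝ, IsLaw P L → SelfDecomposable P) ∧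
    (∀ c : ℝ, 0 < c → c < 1 → ∃ Q : Measure ℝ, IsLaw Q (fun x => L x / L (c * x))) := by
  have hmul : ∀ c : ℝ, 0 < c → Tendsto (fun x : ℝ => c * x) (𝓝[>] 0) (𝓝[>] 0) := by
    intro c hc
    rw [tendsto_nhdsWithin_iff]
    constructor
    · have h : Tendsto (fun x : ℝ => c * x) (𝓝 0) (𝓝 (c * 0)) :=
        (continuous_const.mul continuous_id).tendsto 0
      rw [mul_zero] at h
      exact h.mono_left nhdsWithin_le_nhds
    · filter_upwards [self_mem_nhdsWithin] with x hx
      have : (0:ℝ) < x := hx
      simp only [mem_Ioi]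
      positivity
  have hlimR : ∀ c : ℝ, 0 < c → Tendsto (fun x => L x / L (c * x)) (𝓝[>] 0) (𝓝 1) := by
    intro c hc
    have h1 := hlim.div (hlim.comp (hmul c hc)) one_ne_zero
    rw [div_one] at h1
    exact h1
  have hratio' : ∀ c : ℝ, 0 < c → c < 1 → CM (fun x => L x / L (c * x)) := by
    intro c hc0 hc1
    have h1 := hratio (√c) (Real.sqrt_pos.mpr hc0) (by
      rw [Real.sqrt_lt' one_pos]; simpa using hc1)
    rw [Real.sq_sqrt hc0.le] at h1
    exact h1
  have hLCM : CM L := by
    apply CM.limit (f := fun n x => L x / L ((1 / ((n : ℝ) + 2)) * x)) _ 1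
    · intro n x hx
      exact (hratio' _ (by positivity) (by
        rw [div_lt_one (by positivity)]
        have : (0:ℝ) ≤ n := Nat.cast_nonneg n
        linarith)).le_of_tendsto (hlimR _ (by positivity)) hx
    · intro x hx
      have h1 : Tendsto (fun n : ℕ => (1 / ((n : ℝ) + 2)) * x) atTop (𝓝[>] 0) := by
        rw [tendsto_nhdsWithin_iff]
        constructor
        · have h2 : Tendsto (fun n : ℕ => 1 / ((n : ℝ) + 2)) atTop (𝓝 0) := by
            have h3 : Tendsto (fun n : ℕ => (n : ℝ) + 2) atTop atTop :=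
              tendsto_atTop_add_const_right _ _ tendsto_natCast_atTop_atTop
            exact h3.const_div_atTop 1
          have h4 := h2.mul_const x
          rw [zero_mul] at h4
          exact h4
        · refine Eventually.of_forall (fun n => ?_)
          simp only [mem_Ioi]
          positivity
      have h2 : Tendsto (fun n : ℕ => L x / L ((1 / ((n : ℝ) + 2)) * x)) atTop (𝓝 (L x / 1)) :=
        tendsto_const_nhds.div (hlim.comp h1) one_ne_zero
      rw [div_one] at h2
      exact h2
    · intro n
      exact hratio' _ (by positivity) (by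
        rw [div_lt_one (by positivity)]
        have : (0:ℝ) ≤ n := Nat.cast_nonneg n
        linarith)
  have hQ : ∀ c : ℝ, 0 < c → c < 1 → ∃ Q : Measure ℝ, IsLaw Q (fun x => L x / L (c * x)) :=
    fun c hc0 hc1 => (hratio' c hc0 hc1).exists_law (hlimR c hc0)
  refine ⟨hLCM.exists_law hlim, ?_, hQ⟩
  intro P hP c hc0 hc1
  obtain ⟨Q, hQl⟩ := hQ c hc0 hc1
  have hP1 := hP.prob
  have hQ1 := hQl.prob
  refine ⟨ℝ × ℝ, inferInstance, P.prod Q, Prod.fst, Prod.snd, inferInstance, measurable_fst,
    measurable_snd, ?_, ?_, ?_⟩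
  · exact indepFun_prod measurable_id measurable_id
  · rw [← Measure.fst]; exact Measure.fst_prod
  · have hmeas : Measurable (fun ω : ℝ × ℝ => c * ω.1 + ω.2) := by fun_prop
    have hlaw : IsLaw ((P.prod Q).map (fun ω : ℝ × ℝ => c * ω.1 + ω.2)) L := by
      refine ⟨Measure.isProbabilityMeasure_map hmeas.aemeasurable, ?_, ?_⟩
      · rw [Measure.map_apply hmeas measurableSet_Iio]
        have hsub : (fun ω : ℝ × ℝ => c * ω.1 + ω.2) ⁻¹' (Iio 0) ⊆
            (Iio 0 ×ˢ univ) ∪ (univ ×ˢ Iio 0) := by
          intro ω hω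
          simp only [mem_preimage, mem_Iio] at hω
          by_contra hcon
          simp only [mem_union, mem_prod, mem_Iio, mem_univ, and_true, true_and, not_or,
            not_lt] at hcon
          have : 0 ≤ c * ω.1 := mul_nonneg hc0.le hcon.1
          linarith [hcon.2]
        refine measure_mono_null hsub ?_
        rw [measure_union_null_iff]
        constructor
        · rw [Measure.prod_prod, hP.nonneg, zero_mul]
        · rw [Measure.prod_prod, hQl.nonneg, mul_zero]
      · intro x hx
        rw [integral_map hmeas.aemeasurable (by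
          apply Measurable.aestronglyMeasurable
          fun_prop)]
        have h1 : ∫ ω : ℝ × ℝ, Real.exp (-(x * (c * ω.1 + ω.2))) ∂(P.prod Q) =
            ∫ ω : ℝ × ℝ, Real.exp (-((c * x) * ω.1)) * Real.exp (-(x * ω.2)) ∂(P.prod Q) := by
          congr 1
          funext ω
          rw [← Real.exp_add]; congr 1; ring
        rw [h1, integral_prod_mul (fun t => Real.exp (-((c * x) * t)))
          (fun t => Real.exp (-(x * t))), hP.laplace (c * x) (by positivity), hQl.laplace x hx]
        have h2 := (hpos (c * x) (by positivity)).ne'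
        field_simp
    exact hlaw.unique hP

end Pool.Agent.Lib.MP_749de9_pr
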