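import Pool.Agent.Lib.MP_749de9_pr.IScale
import Pool.Agent.Lib.MP_749de9_pr.KScale
import Pool.Agent.Lib.MP_749de9_pr.Laplace
open MeasureTheory Filter Topology Set

namespace Pool.Agent.Lib.MP_749de9_pr

/-- The modified Bessel function of the first kind,
`I_μ(z) = ∑_k (z/2)^{2k+μ} / (k! Γ(k+μ+1))`, `z > 0`. -/
noncomputable def besselI (μ z : ℝ) : ℝ :=
  ∑' k : ℕ, (z / 2) ^ (2 * (k : ℝ) + μ) / ((k.factorial : ℝ) * Real.Gamma ((k : ℝ) + μ + 1))

theorem Gamma_rise {μ : ℝ} (hμ : -1 < μ) (k : ℕ) :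
    Real.Gamma ((k : ℝ) + μ + 1) = riseP (μ + 1) k * Real.Gamma (μ + 1) := by
  induction k with
  | zero => simp [riseP]
  | succ k ih =>
    have h1 : ((k + 1 : ℕ) : ℝ) + μ + 1 = ((k : ℝ) + μ + 1) + 1 := by push_cast; ring
    have hk : (0:ℝ) ≤ k := Nat.cast_nonneg k
    rw [h1, Real.Gamma_add_one (by linarith), ih, riseP_succ]
    ring

theorem besselI_eq {μ z : ℝ} (hμ : -1 < μ) (hz : 0 < z) :
    besselI μ z = (z / 2) ^ μ / Real.Gamma (μ + 1) * FI μ (z ^ 2 / 4) := by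
  unfold besselI FI
  rw [← tsum_mul_left]
  apply tsum_congr
  intro k
  have hG : 0 < Real.Gamma (μ + 1) := Real.Gamma_pos_of_pos (by linarith)
  have hz2 : 0 < z / 2 := by positivity
  rw [Gamma_rise hμ k, qI, Real.rpow_add hz2, Real.rpow_mul hz2.le]
  have e1 : ((z / 2) ^ (2:ℝ)) ^ (k : ℝ) = (z ^ 2 / 4) ^ k := by
    rw [Real.rpow_natCast]
    congr 1
    rw [show (2:ℝ) = ((2:ℕ):ℝ) by norm_num, Real.rpow_natCast]
    ring
  rw [e1]
  have hr : 0 < riseP (μ + 1) k := riseP_pos (by linarith) k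
  have hf : (0:ℝ) < k.factorial := by exact_mod_cast Nat.factorial_pos k
  field_simp

/-- (A) -/
noncomputable def chi (a b μ ν x : ℝ) : ℝ :=
  2 ^ (μ - ν + 1) * Real.Gamma (μ + 1) * b ^ ν / (a ^ μ * Real.Gamma ν) *
    Real.exp (-(a * √x)) * x ^ ((ν - μ) / 2) * besselI μ (a * √x) * besselK ν (b * √x)

/-- (B) -/
noncomputable def zeta (a b μ ν x : ℝ) : ℝ :=
  2 ^ (μ + ν) * Real.Gamma (μ + 1) * Real.Gamma (ν + 1) / (a ^ μ * b ^ ν) *
    Real.exp (-((a + b) * √x)) * x ^ (-(μ + ν) / 2) * besselI μ (a * √x) * besselI ν (b * √x)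

/-- (C) -/
noncomputable def eps (a b μ ν x : ℝ) : ℝ :=
  2 ^ (μ + ν - 1) * Real.Gamma ν * Real.Gamma (μ + 1) / (a ^ μ * b ^ ν) *
    Real.exp (-((a + b) * √x)) * x ^ (-(μ + ν) / 2) * (besselI μ (a * √x) / besselK ν (b * √x))

/-- (D) -/
noncomputable def rho (a b μ ν x : ℝ) : ℝ :=
  a ^ μ * b ^ ν / (2 ^ (μ + ν - 1) * Real.Gamma ν * Real.Gamma (μ + 1)) *
    x ^ ((μ + ν) / 2) * (besselK ν (b * √x) / besselI μ (a * √x))

/-- `L_μ(y) = e^{-2√y} F_μ(y)`. -/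
noncomputable def LL (μ y : ℝ) : ℝ := Real.exp (-(2 * √y)) * FI μ y

/-- `M_ν(y) = W_ν(1, y) / Γ(ν)`. -/
noncomputable def MM (ν y : ℝ) : ℝ := WW ν 1 y / Real.Gamma ν

theorem sqrt_aux {a x : ℝ} (ha : 0 < a) : √(a ^ 2 / 4 * x) = a * √x / 2 := by
  rw [Real.sqrt_mul (by positivity), Real.sqrt_div (by positivity), Real.sqrt_sq ha.le,
    show (4:ℝ) = 2 ^ 2 by norm_num, Real.sqrt_sq (by norm_num)]
  ring

theorem besselI_sqrt {a μ x : ℝ} (hμ : -1 < μ) (ha : 0 < a) (hx : 0 < x) :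
    besselI μ (a * √x) = a ^ μ * x ^ (μ / 2) / (2 ^ μ * Real.Gamma (μ + 1)) *
      FI μ (a ^ 2 / 4 * x) := by
  have hy : 0 < √x := Real.sqrt_pos.mpr hx
  rw [besselI_eq hμ (by positivity)]
  have e1 : (a * √x) ^ 2 / 4 = a ^ 2 / 4 * x := by
    rw [mul_pow, Real.sq_sqrt hx.le]; ring
  have e2 : (a * √x / 2) ^ μ = a ^ μ * x ^ (μ / 2) / 2 ^ μ := by
    rw [Real.div_rpow (by positivity) (by norm_num), Real.mul_rpow ha.le hy.le, Real.sqrt_eq_rpow,
      ← Real.rpow_mul hx.le]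
    congr 3; ring
  rw [e1, e2]
  have hG : 0 < Real.Gamma (μ + 1) := Real.Gamma_pos_of_pos (by linarith)
  field_simp

theorem besselK_sqrt {b ν x : ℝ} (hν : 0 < ν) (hb : 0 < b) (hx : 0 < x) :
    besselK ν (b * √x) = WW ν 1 (b ^ 2 / 4 * x) * 2 ^ ν / (2 * (b ^ ν * x ^ (ν / 2))) := by
  have hy : 0 < √x := Real.sqrt_pos.mpr hx
  have hbx : 0 < b ^ 2 / 4 * x := by positivity
  have h1 := WW_eq_besselK hν hbx
  have e1 : 2 * √(b ^ 2 / 4 * x) = b * √x := by rw [sqrt_aux hb]; ring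
  have e2 : (b ^ 2 / 4 * x) ^ (ν / 2) = b ^ ν * x ^ (ν / 2) / 2 ^ ν := by
    have e3 : b ^ 2 / 4 * x = (b * √x / 2) ^ (2:ℝ) := by
      rw [show (2:ℝ) = ((2:ℕ):ℝ) by norm_num, Real.rpow_natCast, div_pow, mul_pow,
        Real.sq_sqrt hx.le]
      push_cast
      ring
    rw [e3, ← Real.rpow_mul (by positivity)]
    have e4 : 2 * (ν / 2) = ν := by ring
    rw [e4, Real.div_rpow (by positivity) (by norm_num), Real.mul_rpow hb.le hy.le,
      Real.sqrt_eq_rpow, ← Real.rpow_mul hx.le]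
    congr 3; ring
  rw [e1, e2] at h1
  have hbν : 0 < b ^ ν := Real.rpow_pos_of_pos hb _
  have hxν : 0 < x ^ (ν / 2) := Real.rpow_pos_of_pos hx _
  have h2ν : (0:ℝ) < 2 ^ ν := by positivity
  rw [h1]
  field_simp

theorem exp_aux {a x : ℝ} (ha : 0 < a) : Real.exp (-(2 * √(a ^ 2 / 4 * x))) = Real.exp (-(a * √x)) := by
  rw [sqrt_aux ha]; congr 1; ring

theorem chi_eq {a b μ ν x : ℝ} (hμ : -1 < μ) (hν : 0 < ν) (ha : 0 < a) (hb : 0 < b) (hx : 0 < x) :
    chi a b μ ν x = LL μ (a ^ 2 / 4 * x) * MM ν (b ^ 2 / 4 * x) := by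
  unfold chi LL MM
  rw [besselI_sqrt hμ ha hx, besselK_sqrt hν hb hx, exp_aux ha]
  have hG : 0 < Real.Gamma (μ + 1) := Real.Gamma_pos_of_pos (by linarith)
  have hG' : 0 < Real.Gamma ν := Real.Gamma_pos_of_pos hν
  have haμ : 0 < a ^ μ := Real.rpow_pos_of_pos ha _
  have hbν : 0 < b ^ ν := Real.rpow_pos_of_pos hb _
  have hxμ : 0 < x ^ (μ / 2) := Real.rpow_pos_of_pos hx _
  have hxν : 0 < x ^ (ν / 2) := Real.rpow_pos_of_pos hx _
  have h2ν : (0:ℝ) < 2 ^ ν := by positivity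
  have h2μ : (0:ℝ) < 2 ^ μ := by positivity
  have e1 : x ^ ((ν - μ) / 2) = x ^ (ν / 2) / x ^ (μ / 2) := by
    rw [← Real.rpow_sub hx]; congr 1; ring
  have e2 : (2:ℝ) ^ (μ - ν + 1) = 2 ^ μ / 2 ^ ν * 2 := by
    rw [Real.rpow_add (by norm_num), Real.rpow_sub (by norm_num), Real.rpow_one]
  rw [e1, e2]
  generalize FI μ (a ^ 2 / 4 * x) = F
  generalize WW ν 1 (b ^ 2 / 4 * x) = W
  generalize Real.Gamma (μ + 1) = G at *
  generalize Real.Gamma ν = G' at *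
  generalize a ^ μ = A at *
  generalize b ^ ν = B at *
  generalize x ^ (μ / 2) = X at *
  generalize x ^ (ν / 2) = Y at *
  generalize (2:ℝ) ^ ν = U at *
  generalize (2:ℝ) ^ μ = V at *
  field_simp

theorem zeta_eq {a b μ ν x : ℝ} (hμ : -1 < μ) (hν : -1 < ν) (ha : 0 < a) (hb : 0 < b) (hx : 0 < x) :
    zeta a b μ ν x = LL μ (a ^ 2 / 4 * x) * LL ν (b ^ 2 / 4 * x) := by
  unfold zeta LL
  rw [besselI_sqrt hμ ha hx, besselI_sqrt hν hb hx, exp_aux ha, exp_aux hb]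
  have hG : 0 < Real.Gamma (μ + 1) := Real.Gamma_pos_of_pos (by linarith)
  have hG' : 0 < Real.Gamma (ν + 1) := Real.Gamma_pos_of_pos (by linarith)
  have haμ : 0 < a ^ μ := Real.rpow_pos_of_pos ha _
  have hbν : 0 < b ^ ν := Real.rpow_pos_of_pos hb _
  have hxμ : 0 < x ^ (μ / 2) := Real.rpow_pos_of_pos hx _
  have hxν : 0 < x ^ (ν / 2) := Real.rpow_pos_of_pos hx _
  have h2ν : (0:ℝ) < 2 ^ ν := by positivity
  have h2μ : (0:ℝ) < 2 ^ μ := by positivity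
  have e1 : x ^ (-(μ + ν) / 2) = 1 / (x ^ (μ / 2) * x ^ (ν / 2)) := by
    rw [← Real.rpow_add hx, one_div, ← Real.rpow_neg hx.le]; congr 1; ring
  have e2 : (2:ℝ) ^ (μ + ν) = 2 ^ μ * 2 ^ ν := by
    rw [Real.rpow_add (by norm_num)]
  have e3 : Real.exp (-((a + b) * √x)) = Real.exp (-(a * √x)) * Real.exp (-(b * √x)) := by
    rw [← Real.exp_add]; congr 1; ring
  rw [e1, e2, e3]
  generalize FI μ (a ^ 2 / 4 * x) = F
  generalize FI ν (b ^ 2 / 4 * x) = W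
  generalize Real.Gamma (μ + 1) = G at *
  generalize Real.Gamma (ν + 1) = G' at *
  generalize a ^ μ = A at *
  generalize b ^ ν = B at *
  generalize x ^ (μ / 2) = X at *
  generalize x ^ (ν / 2) = Y at *
  generalize (2:ℝ) ^ ν = U at *
  generalize (2:ℝ) ^ μ = V at *
  field_simp

theorem eps_eq {a b μ ν x : ℝ} (hμ : -1 < μ) (hν : 0 < ν) (ha : 0 < a) (hb : 0 < b) (hx : 0 < x) :
    eps a b μ ν x = LL μ (a ^ 2 / 4 * x) * (Real.exp (-(2 * √(b ^ 2 / 4 * x))) /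
      MM ν (b ^ 2 / 4 * x)) := by
  unfold eps LL MM
  rw [besselI_sqrt hμ ha hx, besselK_sqrt hν hb hx, exp_aux ha, exp_aux hb]
  have hW := WW_pos hν (by positivity : 0 ≤ b ^ 2 / 4 * x)
  have hG : 0 < Real.Gamma (μ + 1) := Real.Gamma_pos_of_pos (by linarith)
  have hG' : 0 < Real.Gamma ν := Real.Gamma_pos_of_pos hν
  have haμ : 0 < a ^ μ := Real.rpow_pos_of_pos ha _
  have hbν : 0 < b ^ ν := Real.rpow_pos_of_pos hb _
  have hxμ : 0 < x ^ (μ / 2) := Real.rpow_pos_of_pos hx _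
  have hxν : 0 < x ^ (ν / 2) := Real.rpow_pos_of_pos hx _
  have h2ν : (0:ℝ) < 2 ^ ν := by positivity
  have h2μ : (0:ℝ) < 2 ^ μ := by positivity
  have e1 : x ^ (-(μ + ν) / 2) = 1 / (x ^ (μ / 2) * x ^ (ν / 2)) := by
    rw [← Real.rpow_add hx, one_div, ← Real.rpow_neg hx.le]; congr 1; ring
  have e2 : (2:ℝ) ^ (μ + ν - 1) = 2 ^ μ * 2 ^ ν / 2 := by
    rw [Real.rpow_sub (by norm_num), Real.rpow_add (by norm_num), Real.rpow_one]
  have e3 : Real.exp (-((a + b) * √x)) = Real.exp (-(a * √x)) * Real.exp (-(b * √x)) := by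
    rw [← Real.exp_add]; congr 1; ring
  rw [e1, e2, e3]
  generalize FI μ (a ^ 2 / 4 * x) = F
  generalize WW ν 1 (b ^ 2 / 4 * x) = W at *
  generalize Real.Gamma (μ + 1) = G at *
  generalize Real.Gamma ν = G' at *
  generalize a ^ μ = A at *
  generalize b ^ ν = B at *
  generalize x ^ (μ / 2) = X at *
  generalize x ^ (ν / 2) = Y at *
  generalize (2:ℝ) ^ ν = U at *
  generalize (2:ℝ) ^ μ = V at *
  field_simp

theorem rho_eq {a b μ ν x : ℝ} (hμ : -1 < μ) (hν : 0 < ν) (ha : 0 < a) (hb : 0 < b) (hx : 0 < x) :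
    rho a b μ ν x = MM ν (b ^ 2 / 4 * x) / FI μ (a ^ 2 / 4 * x) := by
  unfold rho MM
  rw [besselI_sqrt hμ ha hx, besselK_sqrt hν hb hx]
  have hF := FI_pos hμ (by positivity : 0 ≤ a ^ 2 / 4 * x)
  have hG : 0 < Real.Gamma (μ + 1) := Real.Gamma_pos_of_pos (by linarith)
  have hG' : 0 < Real.Gamma ν := Real.Gamma_pos_of_pos hν
  have haμ : 0 < a ^ μ := Real.rpow_pos_of_pos ha _
  have hbν : 0 < b ^ ν := Real.rpow_pos_of_pos hb _
  have hxμ : 0 < x ^ (μ / 2) := Real.rpow_pos_of_pos hx _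
  have hxν : 0 < x ^ (ν / 2) := Real.rpow_pos_of_pos hx _
  have h2ν : (0:ℝ) < 2 ^ ν := by positivity
  have h2μ : (0:ℝ) < 2 ^ μ := by positivity
  have e1 : x ^ ((μ + ν) / 2) = x ^ (μ / 2) * x ^ (ν / 2) := by
    rw [← Real.rpow_add hx]; congr 1; ring
  have e2 : (2:ℝ) ^ (μ + ν - 1) = 2 ^ μ * 2 ^ ν / 2 := by
    rw [Real.rpow_sub (by norm_num), Real.rpow_add (by norm_num), Real.rpow_one]
  rw [e1, e2]
  generalize FI μ (a ^ 2 / 4 * x) = F at *
  generalize WW ν 1 (b ^ 2 / 4 * x) = W at *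
  generalize Real.Gamma (μ + 1) = G at *
  generalize Real.Gamma ν = G' at *
  generalize a ^ μ = A at *
  generalize b ^ ν = B at *
  generalize x ^ (μ / 2) = X at *
  generalize x ^ (ν / 2) = Y at *
  generalize (2:ℝ) ^ ν = U at *
  generalize (2:ℝ) ^ μ = V at *
  field_simp

/-! ### the building blocks -/

/-- A good factor. -/
structure Good (f : ℝ → ℝ) : Prop where
  pos : ∀ x : ℝ, 0 < x → 0 < f x
  lim : Tendsto f (𝓝[>] 0) (𝓝 1)
  ratio : ∀ γ : ℝ, 0 < γ → γ < 1 → CM (fun x => f x / f (γ ^ 2 * x))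

theorem Good.mul {f g : ℝ → ℝ} (hf : Good f) (hg : Good g) : Good (fun x => f x * g x) where
  pos x hx := mul_pos (hf.pos x hx) (hg.pos x hx)
  lim := by simpa using hf.lim.mul hg.lim
  ratio γ h0 h1 := by
    refine ((hf.ratio γ h0 h1).mul (hg.ratio γ h0 h1)).congr (fun x _ => ?_)
    rw [div_mul_div_comm]

theorem Good.comp_mul {f : ℝ → ℝ} (hf : Good f) {c : ℝ} (hc : 0 < c) :
    Good (fun x => f (c * x)) where
  pos x hx := hf.pos _ (mul_pos hc hx)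
  lim := hf.lim.comp (mul_tendsto_zero_right hc)
  ratio γ h0 h1 := by
    refine ((hf.ratio γ h0 h1).comp_mul hc).congr (fun x _ => ?_)
    have : c * (γ ^ 2 * x) = γ ^ 2 * (c * x) := by ring
    rw [this]

theorem Good.congr {f g : ℝ → ℝ} (hf : Good f) (h : ∀ x : ℝ, 0 < x → g x = f x) : Good g where
  pos x hx := by rw [h x hx]; exact hf.pos x hx
  lim := by
    refine hf.lim.congr' ?_
    filter_upwards [self_mem_nhdsWithin] with x hx
    exact (h x hx).symm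
  ratio γ h0 h1 := by
    refine (hf.ratio γ h0 h1).congr (fun x hx => ?_)
    rw [h x hx, h _ (by positivity)]

theorem FI_lim {μ : ℝ} (hμ : -1 < μ) : Tendsto (FI μ) (𝓝[>] 0) (𝓝 1) := by
  have h := (continuous_FI hμ).tendsto 0
  rw [FI_zero] at h
  exact h.mono_left nhdsWithin_le_nhds

theorem exp_lim : Tendsto (fun x : ℝ => Real.exp (-(2 * √x))) (𝓝[>] 0) (𝓝 1) := by
  have h5 : Continuous (fun x : ℝ => Real.exp (-(2 * √x))) := by fun_prop
  have h6 := h5.tendsto 0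
  simp only [Real.sqrt_zero, mul_zero, neg_zero, Real.exp_zero] at h6
  exact h6.mono_left nhdsWithin_le_nhds

theorem good_LL {μ : ℝ} (hμ : 1 / 2 ≤ μ) : Good (LL μ) where
  pos x hx := mul_pos (Real.exp_pos _) (FI_pos (by linarith) hx.le)
  lim := by
    have h := exp_lim.mul (FI_lim (by linarith : -1 < μ))
    rw [one_mul] at h
    exact h
  ratio γ h0 h1 := by
    refine (L_ratio_CM hμ h0.le h1.le).1.congr (fun x hx => ?_)
    unfold LL
    rw [mul_div_mul_comm, ← Real.exp_sub, Real.sqrt_mul (by positivity), Real.sqrt_sq h0.le]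
    congr 2
    ring

theorem good_MM {ν : ℝ} (hν : 0 < ν) : Good (MM ν) where
  pos x hx := div_pos (WW_pos hν hx.le) (Real.Gamma_pos_of_pos hν)
  lim := by
    have h := (WW_tendsto_zero hν).div_const (Real.Gamma ν)
    rw [WW_zero hν, div_self (Real.Gamma_pos_of_pos hν).ne'] at h
    exact h
  ratio γ h0 h1 := by
    refine (W_ratio_CM hν h0 h1).congr (fun x hx => ?_)
    unfold MM
    rw [div_div_div_cancel_right₀ (Real.Gamma_pos_of_pos hν).ne']

theorem good_inv_MM {ν : ℝ} (hν : 1 / 2 < ν) :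
    Good (fun x => Real.exp (-(2 * √x)) / MM ν x) where
  pos x hx := div_pos (Real.exp_pos _) ((good_MM (by linarith)).pos x hx)
  lim := by
    have h := exp_lim.div (good_MM (by linarith : 0 < ν)).lim one_ne_zero
    rw [div_one] at h
    exact h
  ratio γ h0 h1 := by
    refine (W_ratio2_CM hν h0 h1).congr (fun x hx => ?_)
    have hG := Real.Gamma_pos_of_pos (by linarith : 0 < ν)
    have hW1 := WW_pos (by linarith : 0 < ν) hx.le
    have hW2 := WW_pos (by linarith : 0 < ν) (by positivity : 0 ≤ γ ^ 2 * x)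
    have e1 : Real.exp (-(2 * (1 - γ) * √x)) = Real.exp (-(2 * √x)) /
        Real.exp (-(2 * √(γ ^ 2 * x))) := by
      rw [← Real.exp_sub, Real.sqrt_mul (by positivity), Real.sqrt_sq h0.le]
      congr 1; ring
    rw [e1]
    unfold MM
    have h3 := Real.exp_pos (-(2 * √(γ ^ 2 * x)))
    generalize Real.exp (-(2 * √(γ ^ 2 * x))) = e at *
    generalize WW ν 1 (γ ^ 2 * x) = w at *
    generalize WW ν 1 x = w' at *
    generalize Real.Gamma ν = G at *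
    field_simp

theorem good_inv_FI {μ : ℝ} (hμ : -1 < μ) : Good (fun x => 1 / FI μ x) where
  pos x hx := one_div_pos.mpr (FI_pos hμ hx.le)
  lim := by
    have h := (tendsto_const_nhds (x := (1:ℝ))).div (FI_lim hμ) one_ne_zero
    rw [div_one] at h
    exact h
  ratio γ h0 h1 := by
    refine (FI_ratio_CM hμ h0.le h1.le).congr (fun x hx => ?_)
    have h2 := FI_pos hμ hx.le
    have h3 := FI_pos hμ (by positivity : 0 ≤ γ ^ 2 * x)
    generalize FI μ (γ ^ 2 * x) = w at *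
    generalize FI μ x = w' at *
    field_simp

theorem good_chi {a b μ ν : ℝ} (ha : 0 < a) (hb : 0 < b) (hν : 0 < ν) (hμ : 1 / 2 < μ) :
    Good (chi a b μ ν) :=
  (((good_LL hμ.le).comp_mul (by positivity : 0 < a ^ 2 / 4)).mul
    ((good_MM hν).comp_mul (by positivity : 0 < b ^ 2 / 4))).congr
    (fun _ hx => chi_eq (by linarith) hν ha hb hx)

theorem good_zeta {a b μ ν : ℝ} (ha : 0 < a) (hb : 0 < b) (hμ : 1 / 2 < μ) (hν : 1 / 2 < ν) :
    Good (zeta a b μ ν) :=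
  (((good_LL hμ.le).comp_mul (by positivity : 0 < a ^ 2 / 4)).mul
    ((good_LL hν.le).comp_mul (by positivity : 0 < b ^ 2 / 4))).congr
    (fun _ hx => zeta_eq (by linarith) (by linarith) ha hb hx)

theorem good_eps {a b μ ν : ℝ} (ha : 0 < a) (hb : 0 < b) (hμ : 1 / 2 < μ) (hν : 1 / 2 < ν) :
    Good (eps a b μ ν) :=
  (((good_LL hμ.le).comp_mul (by positivity : 0 < a ^ 2 / 4)).mul
    ((good_inv_MM hν).comp_mul (by positivity : 0 < b ^ 2 / 4))).congr
    (fun _ hx => eps_eq (by linarith) (by linarith) ha hb hx)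

theorem good_rho {a b μ ν : ℝ} (ha : 0 < a) (hb : 0 < b) (hν : 0 < ν) (hμ : -1 < μ) :
    Good (rho a b μ ν) :=
  (((good_MM hν).comp_mul (by positivity : 0 < b ^ 2 / 4)).mul
    ((good_inv_FI hμ).comp_mul (by positivity : 0 < a ^ 2 / 4))).congr
    (fun x hx => by rw [rho_eq hμ hν ha hb hx, mul_one_div])

end Pool.Agent.Lib.MP_749de9_pr
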