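import Pool.Agent.Lib.MP_749de9_pr.CM
open MeasureTheory Filter Topology Set

namespace Pool.Agent.Lib.MP_749de9_pr

/-! ### Ultraspherical lattice -/

/-- falling product -/
noncomputable def fallP (a : ℝ) (k : ℕ) : ℝ := ∏ j ∈ Finset.range k, (a - j)
/-- rising product -/
noncomputable def riseP (a : ℝ) (k : ℕ) : ℝ := ∏ j ∈ Finset.range k, (a + j)

theorem fallP_succ (a : ℝ) (k : ℕ) : fallP a (k + 1) = fallP a k * (a - k) := by
  unfold fallP; rw [Finset.prod_range_succ]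

theorem riseP_succ (a : ℝ) (k : ℕ) : riseP a (k + 1) = riseP a k * (a + k) := by
  unfold riseP; rw [Finset.prod_range_succ]

theorem fallP_succ' (a : ℝ) (k : ℕ) : fallP a (k + 1) = a * fallP (a - 1) k := by
  unfold fallP
  rw [Finset.prod_range_succ']
  simp only [Nat.cast_zero, sub_zero]
  rw [mul_comm]
  congr 1
  apply Finset.prod_congr rfl
  intro j _
  push_cast
  ring

theorem riseP_succ' (a : ℝ) (k : ℕ) : riseP a (k + 1) = a * riseP (a + 1) k := by
  unfold riseP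
  rw [Finset.prod_range_succ']
  simp only [Nat.cast_zero, add_zero]
  rw [mul_comm]
  congr 1
  apply Finset.prod_congr rfl
  intro j _
  push_cast
  ring

@[simp] theorem fallP_zero (a : ℝ) : fallP a 0 = 1 := by simp [fallP]
@[simp] theorem riseP_zero (a : ℝ) : riseP a 0 = 1 := by simp [riseP]

theorem fallP_nat_eq_zero {n k : ℕ} (h : n < k) : fallP (n : ℝ) k = 0 := by
  unfold fallP
  exact Finset.prod_eq_zero (Finset.mem_range.mpr h) (sub_self _)

theorem fallP_nat_nonneg (n k : ℕ) : 0 ≤ fallP (n : ℝ) k := by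
  by_cases h : n < k
  · rw [fallP_nat_eq_zero h]
  · unfold fallP
    apply Finset.prod_nonneg
    intro j hj
    have := Finset.mem_range.mp hj
    have : (j : ℝ) ≤ n := by exact_mod_cast (by omega : j ≤ n)
    linarith

theorem riseP_pos {a : ℝ} (ha : 0 < a) (k : ℕ) : 0 < riseP a k := by
  unfold riseP
  exact Finset.prod_pos (fun j _ => by positivity)

/-- `(μ+1)_k k!` -/
noncomputable def qI (μ : ℝ) (k : ℕ) : ℝ := riseP (μ + 1) k * k.factorial

theorem qI_pos {μ : ℝ} (hμ : -1 < μ) (k : ℕ) : 0 < qI μ k :=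
  mul_pos (riseP_pos (by linarith) k) (by positivity)

theorem qI_succ (μ : ℝ) (k : ℕ) : qI μ (k + 1) = qI μ k * ((μ + 1 + k) * (k + 1)) := by
  unfold qI
  rw [riseP_succ, Nat.factorial_succ]
  push_cast
  ring

@[simp] theorem qI_zero (μ : ℝ) : qI μ 0 = 1 := by simp [qI]

/-- coefficients -/
noncomputable def coefR (μ : ℝ) (n k : ℕ) : ℝ := fallP (n : ℝ) k * riseP (n + 2 * μ + 1) k / qI μ k

/-- the polynomials -/
noncomputable def polyR (μ : ℝ) (n : ℕ) (y : ℝ) : ℝ := ∑ k ∈ Finset.range (n + 1), coefR μ n k * y ^ k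

theorem coefR_zero (μ : ℝ) (n : ℕ) : coefR μ n 0 = 1 := by simp [coefR]

theorem coefR_eq_zero (μ : ℝ) {n k : ℕ} (h : n < k) : coefR μ n k = 0 := by
  unfold coefR; rw [fallP_nat_eq_zero h]; simp

theorem coefR_nonneg {μ : ℝ} (hμ : -1 < μ) (n k : ℕ) : 0 ≤ coefR μ n k := by
  rcases Nat.eq_zero_or_pos n with hn | hn
  · subst hn
    rcases Nat.eq_zero_or_pos k with hk | hk
    · subst hk; rw [coefR_zero]; exact zero_le_one
    · rw [coefR_eq_zero μ hk]
  · have h1 : (1:ℝ) ≤ n := by exact_mod_cast hn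
    unfold coefR
    apply div_nonneg _ (qI_pos hμ k).le
    exact mul_nonneg (fallP_nat_nonneg n k) (riseP_pos (by linarith) k).le

theorem polyR_eq_sum (μ : ℝ) (n m : ℕ) (h : n ≤ m) (y : ℝ) :
    polyR μ n y = ∑ k ∈ Finset.range (m + 1), coefR μ n k * y ^ k := by
  unfold polyR
  apply Finset.sum_subset
  · intro k hk
    rw [Finset.mem_range] at hk ⊢
    omega
  · intro k _ hk
    rw [Finset.mem_range] at hk
    rw [coefR_eq_zero μ (by omega), zero_mul]

theorem one_le_polyR {μ : ℝ} (hμ : -1 < μ) (n : ℕ) {y : ℝ} (hy : 0 ≤ y) : 1 ≤ polyR μ n y := by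
  unfold polyR
  have h1 := Finset.single_le_sum (s := Finset.range (n + 1)) (f := fun k => coefR μ n k * y ^ k)
    (fun k _ => mul_nonneg (coefR_nonneg hμ n k) (pow_nonneg hy k)) (Finset.mem_range.mpr (Nat.succ_pos n))
  simpa [coefR_zero] using h1

theorem polyR_zero (μ y : ℝ) : polyR μ 0 y = 1 := by simp [polyR, coefR_zero]

theorem polyR_one {μ : ℝ} (hμ : -1 < μ) (y : ℝ) : polyR μ 1 y = 1 + 2 * y := by
  unfold polyR
  rw [Finset.sum_range_succ, Finset.sum_range_one, coefR_zero]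
  have : coefR μ 1 1 = 2 := by
    unfold coefR
    have h1 : fallP ((1:ℕ) : ℝ) 1 = 1 := by simp [fallP]
    have h2 : riseP (((1:ℕ) : ℝ) + 2 * μ + 1) 1 = 2 * μ + 2 := by simp [riseP]; ring
    have h3 : qI μ 1 = μ + 1 := by simp [qI, riseP]
    rw [h1, h2, h3]
    have : μ + 1 ≠ 0 := by linarith
    rw [one_mul, div_eq_iff this]
    ring
  rw [this]
  ring

/-- up-probability -/
noncomputable def lamR (μ : ℝ) (n : ℕ) : ℝ := (n + 2 * μ + 1) / (2 * n + 2 * μ + 1)
/-- down-probability -/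
noncomputable def muR (μ : ℝ) (n : ℕ) : ℝ := n / (2 * n + 2 * μ + 1)

theorem coef_rec {μ : ℝ} (hμ : -1 < μ) (n k : ℕ) :
    coefR μ (n + 1) (k + 1) + 2 * coefR μ (n + 1) k =
      lamR μ (n + 1) * coefR μ (n + 2) (k + 1) + muR μ (n + 1) * coefR μ n (k + 1) := by
  unfold coefR lamR muR
  have hn : (0:ℝ) ≤ n := Nat.cast_nonneg n
  have hk : (0:ℝ) ≤ k := Nat.cast_nonneg k
  set N : ℝ := (n : ℝ) + 1 with hN
  have e1 : ((n + 1 : ℕ) : ℝ) = N := by push_cast; rfl
  have e2 : ((n + 2 : ℕ) : ℝ) = N + 1 := by rw [hN]; push_cast; ring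
  have e3 : (n : ℝ) = N - 1 := by rw [hN]; ring
  have hNpos : 0 < N := by rw [hN]; positivity
  rw [e1, e2]
  have e4 : fallP (n : ℝ) (k + 1) = fallP N k * (N - k) * (N - (k + 1)) / N := by
    have h1 := fallP_succ' N (k + 1)
    have h2 := fallP_succ N (k + 1)
    have h3 := fallP_succ N k
    rw [h1, h3] at h2
    rw [e3, eq_div_iff hNpos.ne']
    push_cast at h2
    rw [mul_comm, h2]
  have e5 : fallP (N + 1) (k + 1) = (N + 1) * fallP N k := by
    rw [fallP_succ']; congr 2; ring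
  have ha : 0 < N + 2 * μ + 1 := by rw [hN]; linarith
  have e6 : riseP (N + 1 + 2 * μ + 1) (k + 1) =
      riseP (N + 2 * μ + 1) k * (N + 2 * μ + 1 + k) * (N + 2 * μ + 1 + (k + 1)) / (N + 2 * μ + 1) := by
    have h1 := riseP_succ' (N + 2 * μ + 1) (k + 1)
    have h2 := riseP_succ (N + 2 * μ + 1) (k + 1)
    have h3 := riseP_succ (N + 2 * μ + 1) k
    rw [h1, h3] at h2
    rw [eq_div_iff ha.ne']
    push_cast at h2
    have h4 : N + 1 + 2 * μ + 1 = N + 2 * μ + 1 + 1 := by ring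
    rw [h4, mul_comm, h2]
  have e7 : riseP ((n : ℝ) + 2 * μ + 1) (k + 1) = (N + 2 * μ) * riseP (N + 2 * μ + 1) k := by
    rw [riseP_succ', e3]
    congr 1
    · ring
    · congr 1; ring
  rw [e4, e5, e6, e7, fallP_succ, riseP_succ, qI_succ]
  have hq := (qI_pos hμ k).ne'
  have h9 : (μ + 1 + k) ≠ 0 := by
    have : 0 < μ + 1 + k := by linarith
    exact this.ne'
  have h10 : ((k:ℝ) + 1) ≠ 0 := by positivity
  obtain ⟨D, hD⟩ : ∃ D : ℝ, D = 2 * N + 2 * μ + 1 := ⟨_, rfl⟩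
  have h8 : D ≠ 0 := by
    have : 0 < 2 * N + 2 * μ + 1 := by rw [hN]; linarith
    rw [hD]; exact this.ne'
  obtain ⟨A, hA⟩ : ∃ A : ℝ, A = N + 2 * μ + 1 := ⟨_, rfl⟩
  rw [← hA] at ha
  rw [← hD, ← hA]
  have hA' := ha.ne'
  generalize riseP A k = r
  generalize fallP N k = f
  generalize qI μ k = q at hq
  have hN' := hNpos.ne'
  field_simp
  rw [hD, hA]
  ring

theorem lam_add_mu {μ : ℝ} (hμ : -1 < μ) (n : ℕ) : lamR μ (n + 1) + muR μ (n + 1) = 1 := by
  unfold lamR muR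
  have hn : (0:ℝ) ≤ n := Nat.cast_nonneg n
  have : (2 * ((n + 1 : ℕ) : ℝ) + 2 * μ + 1) ≠ 0 := by
    push_cast
    have : 0 < 2 * ((n:ℝ) + 1) + 2 * μ + 1 := by linarith
    exact this.ne'
  rw [← add_div, div_eq_one_iff_eq this]
  ring

theorem polyR_rec {μ : ℝ} (hμ : -1 < μ) (n : ℕ) (y : ℝ) :
    (1 + 2 * y) * polyR μ (n + 1) y =
      lamR μ (n + 1) * polyR μ (n + 2) y + muR μ (n + 1) * polyR μ n y := by
  have h1 : polyR μ (n + 1) y = ∑ k ∈ Finset.range (n + 2), coefR μ (n + 1) k * y ^ k := rfl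
  have h1' : polyR μ (n + 1) y = ∑ k ∈ Finset.range (n + 3), coefR μ (n + 1) k * y ^ k :=
    polyR_eq_sum μ (n + 1) (n + 2) (by omega) y
  have h2 : polyR μ (n + 2) y = ∑ k ∈ Finset.range (n + 3), coefR μ (n + 2) k * y ^ k := rfl
  have h3 : polyR μ n y = ∑ k ∈ Finset.range (n + 3), coefR μ n k * y ^ k :=
    polyR_eq_sum μ n (n + 2) (by omega) y
  have h4 : (1 + 2 * y) * polyR μ (n + 1) y = (∑ k ∈ Finset.range (n + 3), coefR μ (n + 1) k * y ^ k) +
      ∑ k ∈ Finset.range (n + 2), 2 * coefR μ (n + 1) k * y ^ (k + 1) := by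
    rw [add_mul, one_mul]
    congr 1
    rw [h1, Finset.mul_sum]
    apply Finset.sum_congr rfl
    intro k _
    rw [pow_succ]; ring
  rw [h4, h2, h3, Finset.sum_range_succ', Finset.sum_range_succ' (n := n + 2),
    Finset.sum_range_succ' (n := n + 2)]
  simp only [coefR_zero, pow_zero, mul_one]
  have h5 : lamR μ (n + 1) * (∑ k ∈ Finset.range (n + 2), coefR μ (n + 2) (k + 1) * y ^ (k + 1) + 1) +
      muR μ (n + 1) * (∑ k ∈ Finset.range (n + 2), coefR μ n (k + 1) * y ^ (k + 1) + 1) =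
      ∑ k ∈ Finset.range (n + 2), (lamR μ (n + 1) * coefR μ (n + 2) (k + 1) +
        muR μ (n + 1) * coefR μ n (k + 1)) * y ^ (k + 1) + 1 := by
    have h6 := lam_add_mu hμ n
    rw [mul_add, mul_add, Finset.mul_sum, Finset.mul_sum]
    simp only [add_mul, Finset.sum_add_distrib, mul_assoc]
    linear_combination h6
  rw [h5]
  have h7 : ∀ k ∈ Finset.range (n + 2), (lamR μ (n + 1) * coefR μ (n + 2) (k + 1) +
        muR μ (n + 1) * coefR μ n (k + 1)) * y ^ (k + 1) = coefR μ (n + 1) (k + 1) * y ^ (k + 1) +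
          2 * coefR μ (n + 1) k * y ^ (k + 1) := by
    intro k _
    rw [← coef_rec hμ n k]; ring
  rw [Finset.sum_congr rfl h7, Finset.sum_add_distrib]
  ring

/-- ratio -/
noncomputable def rhoR (μ : ℝ) (n : ℕ) (y : ℝ) : ℝ := polyR μ n y / polyR μ (n + 1) y

theorem polyR_pos {μ : ℝ} (hμ : -1 < μ) (n : ℕ) {y : ℝ} (hy : 0 ≤ y) : 0 < polyR μ n y :=
  lt_of_lt_of_le one_pos (one_le_polyR hμ n hy)

theorem rhoR_pos {μ : ℝ} (hμ : -1 < μ) (n : ℕ) {y : ℝ} (hy : 0 ≤ y) : 0 < rhoR μ n y :=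
  div_pos (polyR_pos hμ n hy) (polyR_pos hμ (n + 1) hy)

theorem muR_nonneg {μ : ℝ} (hμ : -1 < μ) (n : ℕ) : 0 ≤ muR μ (n + 1) := by
  unfold muR
  have hn : (0:ℝ) ≤ n := Nat.cast_nonneg n
  apply div_nonneg (by positivity)
  push_cast
  linarith

theorem lamR_pos {μ : ℝ} (hμ : -1 < μ) (n : ℕ) : 0 < lamR μ (n + 1) := by
  unfold lamR
  have hn : (0:ℝ) ≤ n := Nat.cast_nonneg n
  push_cast
  apply div_pos <;> linarith

theorem rhoR_zero {μ : ℝ} (hμ : -1 < μ) (y : ℝ) : rhoR μ 0 y = 1 / (1 + 2 * y) := by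
  unfold rhoR
  rw [polyR_zero, polyR_one hμ]

theorem rhoR_succ {μ : ℝ} (hμ : -1 < μ) (n : ℕ) {y : ℝ} (hy : 0 ≤ y) :
    lamR μ (n + 1) = rhoR μ (n + 1) y * (1 + 2 * y - muR μ (n + 1) * rhoR μ n y) := by
  have h1 := polyR_rec hμ n y
  have h2 := (polyR_pos hμ (n + 1) hy).ne'
  have h3 := (polyR_pos hμ (n + 2) hy).ne'
  unfold rhoR
  have h4 : (n + 1 + 1) = n + 2 := rfl
  rw [h4]
  field_simp
  linarith

theorem rhoR_le_one {μ : ℝ} (hμ : -1 < μ) (n : ℕ) {y : ℝ} (hy : 0 ≤ y) : rhoR μ n y ≤ 1 := by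
  induction n with
  | zero =>
    rw [rhoR_zero hμ, div_le_one (by linarith)]
    linarith
  | succ n ih =>
    have h1 := rhoR_succ hμ n hy
    have h2 := lam_add_mu hμ n
    have h3 := muR_nonneg hμ n
    have h4 := rhoR_pos hμ (n + 1) hy
    have h5 := lamR_pos hμ n
    have h6 : lamR μ (n + 1) ≤ 1 + 2 * y - muR μ (n + 1) * rhoR μ n y := by nlinarith
    by_contra hcon
    push Not at hcon
    nlinarith

theorem rhoR_succ' {μ : ℝ} (hμ : -1 < μ) (n : ℕ) {y : ℝ} (hy : 0 ≤ y) :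
    rhoR μ (n + 1) y = (lamR μ (n + 1) / 2) * (1 / (1 / 2 + y - (muR μ (n + 1) / 2) * rhoR μ n y)) := by
  have h1 := rhoR_succ hμ n hy
  have h2 := lam_add_mu hμ n
  have h3 := muR_nonneg hμ n
  have h5 := lamR_pos hμ n
  have h7 := rhoR_le_one hμ n hy
  have h6 : lamR μ (n + 1) ≤ 1 + 2 * y - muR μ (n + 1) * rhoR μ n y := by nlinarith
  have h8 : (1 / 2 + y - (muR μ (n + 1) / 2) * rhoR μ n y) ≠ 0 := by
    have : 0 < (1 / 2 + y - (muR μ (n + 1) / 2) * rhoR μ n y) := by linarith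
    exact this.ne'
  rw [mul_one_div, eq_div_iff h8]
  linarith

theorem rhoR_CM {μ : ℝ} (hμ : -1 < μ) (n : ℕ) : CM (rhoR μ n) := by
  induction n with
  | zero =>
    refine ((CM.inv_add (D := 1 / 2) (by norm_num)).smul (c := 1 / 2) (by norm_num)).congr ?_
    intro x hx
    rw [rhoR_zero hμ]
    have h1 : 1 / 2 + x ≠ 0 := by positivity
    have h2 : 1 + 2 * x ≠ 0 := by positivity
    rw [mul_one_div, div_eq_div_iff h2 h1]
    ring
  | succ n ih =>
    have h2 := lam_add_mu hμ n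
    have h3 := muR_nonneg hμ n
    have h5 := lamR_pos hμ n
    refine ((CM.geom ih (fun x hx => rhoR_le_one hμ n hx.le) (B := muR μ (n + 1) / 2) (D := 1 / 2)
      (by linarith) (by linarith)).smul (c := lamR μ (n + 1) / 2) (by linarith)).congr ?_
    intro x hx
    exact rhoR_succ' hμ n hx.le

/-- ratio of two polynomials -/
theorem polyR_ratio_CM {μ : ℝ} (hμ : -1 < μ) (m k : ℕ) :
    CM (fun y => polyR μ m y / polyR μ (m + k) y) := by
  induction k with
  | zero =>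
    refine (CM.const zero_le_one).congr (fun x hx => ?_)
    rw [add_zero, div_self (polyR_pos hμ m hx.le).ne']
  | succ k ih =>
    refine (ih.mul (rhoR_CM hμ (m + k))).congr (fun x hx => ?_)
    unfold rhoR
    have h1 := (polyR_pos hμ (m + k) (le_of_lt hx)).ne'
    have h2 := (polyR_pos hμ (m + k + 1) (le_of_lt hx)).ne'
    rw [← add_assoc]
    field_simp

/-! ### The simple random walk -/

/-- `ρ̃(y) = exp(-2 arsinh √y)`. -/
noncomputable def rhoT (y : ℝ) : ℝ := Real.exp (-2 * Real.arsinh (Real.sqrt y))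

theorem rhoT_pos (y : ℝ) : 0 < rhoT y := Real.exp_pos _

theorem rhoT_le_one (y : ℝ) : rhoT y ≤ 1 := by
  unfold rhoT
  rw [Real.exp_le_one_iff]
  have : 0 ≤ Real.arsinh (Real.sqrt y) := Real.arsinh_nonneg_iff.mpr (Real.sqrt_nonneg y)
  linarith

theorem rhoT_lt_one {y : ℝ} (hy : 0 < y) : rhoT y < 1 := by
  unfold rhoT
  rw [Real.exp_lt_one_iff]
  have : 0 < Real.arsinh (Real.sqrt y) := Real.arsinh_pos_iff.mpr (Real.sqrt_pos.mpr hy)
  linarith

theorem rhoT_eq {y : ℝ} (hy : 0 ≤ y) : 1 + rhoT y ^ 2 = 2 * (1 + 2 * y) * rhoT y := by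
  set a := Real.arsinh (Real.sqrt y) with ha
  have h1 : Real.sinh a ^ 2 = y := by
    rw [ha, Real.sinh_arsinh, Real.sq_sqrt hy]
  have h2 : Real.cosh (2 * a) = 1 + 2 * y := by
    rw [Real.cosh_two_mul, Real.cosh_sq, h1]; ring
  have h3 : rhoT y = Real.exp (-(2 * a)) := by
    unfold rhoT; rw [← ha]; congr 1; ring
  rw [h3, ← h2, Real.cosh_eq, ← Real.exp_nat_mul]
  have h4 : Real.exp (2 * a) * Real.exp (-(2 * a)) = 1 := by
    rw [← Real.exp_add]; simp
  have h5 : Real.exp (((2:ℕ):ℝ) * -(2 * a)) = Real.exp (-(2 * a)) * Real.exp (-(2 * a)) := by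
    rw [← Real.exp_add]; congr 1; push_cast; ring
  rw [h5]
  linear_combination -h4

/-- approximants of `ρ̃` -/
noncomputable def rApp : ℕ → ℝ → ℝ
  | 0, _ => 0
  | (k + 1), y => (1 / 4) * (1 / (1 / 2 + y - (1 / 4) * rApp k y))

theorem rApp_bounds (k : ℕ) {y : ℝ} (hy : 0 < y) : 0 ≤ rApp k y ∧ rApp k y ≤ rhoT y := by
  induction k with
  | zero => exact ⟨le_rfl, (rhoT_pos y).le⟩
  | succ k ih =>
    obtain ⟨h1, h2⟩ := ih
    have h3 := rhoT_le_one y
    have h4 := rhoT_pos y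
    have h5 := rhoT_eq hy.le
    have hden : 0 < 1 / 2 + y - (1 / 4) * rApp k y := by linarith
    simp only [rApp]
    refine ⟨by positivity, ?_⟩
    rw [mul_one_div, div_le_iff₀ hden]
    nlinarith

theorem rApp_CM (k : ℕ) : CM (rApp k) := by
  induction k with
  | zero => exact CM.const le_rfl
  | succ k ih =>
    exact (CM.geom ih (fun x hx => (rApp_bounds k hx).2.trans (rhoT_le_one x)) (B := 1 / 4)
      (D := 1 / 2) (by norm_num) (by norm_num)).smul (by norm_num)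

theorem rApp_diff (k : ℕ) {y : ℝ} (hy : 0 < y) : rhoT y - rApp k y ≤ (rhoT y ^ 2) ^ k := by
  induction k with
  | zero =>
    simp only [rApp, pow_zero, sub_zero]
    exact rhoT_le_one y
  | succ k ih =>
    obtain ⟨h1, h2⟩ := rApp_bounds k hy
    have h3 := rhoT_le_one y
    have h4 := rhoT_pos y
    have h5 := rhoT_eq hy.le
    have hden : 0 < 1 / 2 + y - (1 / 4) * rApp k y := by linarith
    obtain ⟨h6, h7⟩ := rApp_bounds (k + 1) hy
    have h8 : rApp (k + 1) y * (1 / 2 + y - (1 / 4) * rApp k y) = 1 / 4 := by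
      simp only [rApp]
      rw [mul_one_div, div_mul_cancel₀ _ hden.ne']
    have h9 : rhoT y - rApp (k + 1) y = rhoT y * rApp (k + 1) y * (rhoT y - rApp k y) := by
      have h10 : rhoT y * (1 / 2 + y - (1 / 4) * rhoT y) = 1 / 4 := by nlinarith
      have h11 : (rhoT y - rApp (k + 1) y) * (1/4) =
        (rhoT y * rApp (k + 1) y * (rhoT y - rApp k y)) * (1/4) := by
        calc (rhoT y - rApp (k + 1) y) * (1/4)
            = rhoT y * (1/4) - rApp (k + 1) y * (1/4) := by ring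
          _ = rhoT y * (rApp (k + 1) y * (1 / 2 + y - (1 / 4) * rApp k y)) -
              rApp (k + 1) y * (rhoT y * (1 / 2 + y - (1 / 4) * rhoT y)) := by rw [h8, h10]
          _ = _ := by ring
      linarith
    rw [h9, pow_succ]
    have h12 : 0 ≤ rhoT y - rApp k y := by linarith
    calc rhoT y * rApp (k + 1) y * (rhoT y - rApp k y)
        ≤ rhoT y * rhoT y * (rhoT y - rApp k y) := by
          apply mul_le_mul_of_nonneg_right _ h12
          exact mul_le_mul_of_nonneg_left h7 h4.le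
      _ ≤ rhoT y * rhoT y * (rhoT y ^ 2) ^ k := by
          apply mul_le_mul_of_nonneg_left ih (by positivity)
      _ = (rhoT y ^ 2) ^ k * rhoT y ^ 2 := by ring

theorem rhoT_CM : CM rhoT := by
  apply CM.limit (f := rApp) rApp_CM 1
  · intro n x hx
    exact (rApp_bounds n hx).2.trans (rhoT_le_one x)
  · intro x hx
    have h1 : Tendsto (fun k : ℕ => (rhoT x ^ 2) ^ k) atTop (𝓝 0) := by
      apply tendsto_pow_atTop_nhds_zero_of_lt_one (by positivity)
      have := rhoT_lt_one hx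
      have := rhoT_pos x
      nlinarith
    have h2 : Tendsto (fun k : ℕ => rhoT x - rApp k x) atTop (𝓝 0) :=
      squeeze_zero (fun k => sub_nonneg.mpr (rApp_bounds k hx).2) (fun k => rApp_diff k hx) h1
    have h3 := h2.const_sub (rhoT x)
    simpa using h3

/-! ### Comparison -/

theorem lamR_zero {μ : ℝ} (hμ : 1 / 2 ≤ μ) : lamR μ 0 = 1 := by
  unfold lamR
  simp only [Nat.cast_zero, mul_zero, zero_add]
  exact div_self (by linarith)

/-- `ρ̃ R_{n+1} / R_n` -/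
noncomputable def gR (μ : ℝ) (n : ℕ) (y : ℝ) : ℝ := rhoT y * (polyR μ (n + 1) y / polyR μ n y)

theorem gR_eq {μ : ℝ} (hμ : -1 < μ) (n : ℕ) {y : ℝ} (hy : 0 ≤ y) : rhoR μ n y * gR μ n y = rhoT y := by
  unfold gR rhoR
  have h1 := (polyR_pos hμ n hy).ne'
  have h2 := (polyR_pos hμ (n + 1) hy).ne'
  field_simp

theorem lam_mu_ineq {μ : ℝ} (hμ : 1 / 2 ≤ μ) (n : ℕ) : muR μ (n + 1) ≤ 1 / (4 * lamR μ n) := by
  unfold lamR muR
  have hn : (0:ℝ) ≤ n := Nat.cast_nonneg n
  have h1 : 0 < (n:ℝ) + 2 * μ + 1 := by linarith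
  have h2 : 0 < 2 * (n:ℝ) + 2 * μ + 1 := by linarith
  have h3 : 0 < 2 * ((n:ℝ) + 1) + 2 * μ + 1 := by linarith
  push_cast
  have h4 : 1 / (4 * (((n:ℝ) + 2 * μ + 1) / (2 * (n:ℝ) + 2 * μ + 1))) =
      (2 * (n:ℝ) + 2 * μ + 1) / (4 * ((n:ℝ) + 2 * μ + 1)) := by
    field_simp
  rw [h4, div_le_div_iff₀ h3 (by positivity)]
  nlinarith [mul_nonneg (by linarith : (0:ℝ) ≤ 2 * μ + 1) (by linarith : (0:ℝ) ≤ 2 * μ - 1)]

theorem gR_sub_CM {μ : ℝ} (hμ : 1 / 2 ≤ μ) (n : ℕ) : CM (fun y => gR μ n y - 1 / (2 * lamR μ n)) := by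
  have hμ' : -1 < μ := by linarith
  induction n with
  | zero =>
    refine ((rhoT_CM.pow 2).smul (c := 1 / 2) (by norm_num)).congr (fun y hy => ?_)
    unfold gR
    rw [polyR_zero, polyR_one hμ', lamR_zero hμ]
    have := rhoT_eq hy.le
    linarith
  | succ n ih =>
    have hlam : 0 < lamR μ (n + 1) := lamR_pos hμ' n
    have hlam0 : 0 < lamR μ n := by
      rcases n with _ | n
      · rw [lamR_zero hμ]; exact one_pos
      · exact lamR_pos hμ' n
    have hin := lam_mu_ineq hμ n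
    have h1 : CM (fun y => (1 / lamR μ (n + 1)) * (rhoT y * rhoR μ n y *
        ((1 / 2) * (gR μ n y - 1 / (2 * lamR μ n)) + (1 / (4 * lamR μ n) - muR μ (n + 1))))) :=
      ((rhoT_CM.mul (rhoR_CM hμ' n)).mul ((ih.smul (by norm_num)).add
        (CM.const (by linarith)))).smul (by positivity)
    refine h1.congr (fun y hy => ?_)
    have h2 := rhoR_succ hμ' n hy.le
    have h3 := gR_eq hμ' (n + 1) hy.le
    have h4 := gR_eq hμ' n hy.le
    have h5 := rhoT_eq hy.le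
    have h6 := (rhoR_pos hμ' (n + 1) hy.le)
    -- multiply by lam
    have h7 : gR μ (n + 1) y * lamR μ (n + 1) = rhoT y * (1 + 2 * y - muR μ (n + 1) * rhoR μ n y) := by
      rw [h2, ← h3]; ring
    have h8 : gR μ (n + 1) y = (rhoT y * (1 + 2 * y - muR μ (n + 1) * rhoR μ n y)) / lamR μ (n + 1) := by
      rw [eq_div_iff hlam.ne']; exact h7
    rw [h8]
    have h9 : rhoT y * (1 + 2 * y) = (1 + rhoT y * (rhoR μ n y * gR μ n y)) / 2 := by
      rw [h4]; nlinarith
    have h10 : rhoT y * (1 + 2 * y - muR μ (n + 1) * rhoR μ n y) =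
        (1 + rhoT y * (rhoR μ n y * gR μ n y)) / 2 - rhoT y * (muR μ (n + 1) * rhoR μ n y) := by
      rw [← h9]; ring
    rw [h10]
    field_simp
    ring

theorem gR_CM {μ : ℝ} (hμ : 1 / 2 ≤ μ) (n : ℕ) : CM (gR μ n) := by
  have hlam0 : 0 < lamR μ n := by
    rcases n with _ | n
    · rw [lamR_zero hμ]; exact one_pos
    · exact lamR_pos (by linarith) n
  refine ((gR_sub_CM hμ n).add (CM.const (c := 1 / (2 * lamR μ n)) (by positivity))).congr
    (fun y _ => ?_)
  ring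

theorem rhoT_le_rhoR {μ : ℝ} (hμ : 1 / 2 ≤ μ) (n : ℕ) {y : ℝ} (hy : 0 ≤ y) : rhoT y ≤ rhoR μ n y := by
  have hμ' : -1 < μ := by linarith
  have h1 := rhoT_le_one y
  have h2 := rhoT_pos y
  have h3 := rhoT_eq hy
  induction n with
  | zero =>
    rw [rhoR_zero hμ', le_div_iff₀ (by linarith)]
    nlinarith
  | succ n ih =>
    have h4 := rhoR_succ hμ' n hy
    have h5 := lam_add_mu hμ' n
    have h6 := muR_nonneg hμ' n
    have h7 : muR μ (n + 1) ≤ 1 / 2 := by
      unfold muR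
      have hn : (0:ℝ) ≤ n := Nat.cast_nonneg n
      push_cast
      rw [div_le_iff₀ (by linarith)]
      linarith
    have h8 : 0 < 1 + 2 * y - muR μ (n + 1) * rhoR μ n y := by
      have := rhoR_le_one hμ' n hy
      have := rhoR_pos hμ' n hy
      nlinarith
    have h9 : rhoT y * (1 + 2 * y - muR μ (n + 1) * rhoR μ n y) ≤
        rhoR μ (n + 1) y * (1 + 2 * y - muR μ (n + 1) * rhoR μ n y) := by
      rw [← h4]
      have h10 : muR μ (n + 1) * rhoT y ≤ muR μ (n + 1) * rhoR μ n y :=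
        mul_le_mul_of_nonneg_left ih h6
      have h11 : rhoT y ^ 2 ≤ 1 := by nlinarith
      nlinarith
    exact le_of_mul_le_mul_right h9 h8

theorem gR_le_one {μ : ℝ} (hμ : 1 / 2 ≤ μ) (n : ℕ) {y : ℝ} (hy : 0 ≤ y) : gR μ n y ≤ 1 := by
  have hμ' : -1 < μ := by linarith
  have h1 := gR_eq hμ' n hy
  have h2 := rhoT_le_rhoR hμ n hy
  have h3 := rhoR_pos hμ' n hy
  by_contra hcon
  push Not at hcon
  nlinarith

theorem gR_prod_CM {μ : ℝ} (hμ : 1 / 2 ≤ μ) (m k : ℕ) :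
    CM (fun y => rhoT y ^ k * (polyR μ (m + k) y / polyR μ m y)) ∧
      ∀ y : ℝ, 0 ≤ y → rhoT y ^ k * (polyR μ (m + k) y / polyR μ m y) ≤ 1 := by
  have hμ' : -1 < μ := by linarith
  induction k with
  | zero =>
    constructor
    · refine (CM.const zero_le_one).congr (fun x hx => ?_)
      rw [add_zero, div_self (polyR_pos hμ' m hx.le).ne', pow_zero, mul_one]
    · intro y hy
      rw [add_zero, div_self (polyR_pos hμ' m hy).ne', pow_zero, mul_one]
  | succ k ih =>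
    have heq : ∀ y : ℝ, 0 ≤ y → rhoT y ^ (k + 1) * (polyR μ (m + (k + 1)) y / polyR μ m y) =
        (rhoT y ^ k * (polyR μ (m + k) y / polyR μ m y)) * gR μ (m + k) y := by
      intro y hy
      unfold gR
      have h1 := (polyR_pos hμ' (m + k) hy).ne'
      have h2 := (polyR_pos hμ' m hy).ne'
      rw [← add_assoc, pow_succ]
      field_simp
    constructor
    · exact (ih.1.mul (gR_CM hμ (m + k))).congr (fun y hy => heq y (le_of_lt hy))
    · intro y hy
      rw [heq y hy]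
      have h1 := gR_le_one hμ (m + k) hy
      have h2 := ih.2 y hy
      have h3 : 0 ≤ gR μ (m + k) y := by
        unfold gR
        exact mul_nonneg (rhoT_pos y).le (div_nonneg (polyR_pos hμ' _ hy).le (polyR_pos hμ' _ hy).le)
      have h4 : 0 ≤ rhoT y ^ k * (polyR μ (m + k) y / polyR μ m y) := by
        have := (polyR_pos hμ' (m + k) hy).le
        have := (polyR_pos hμ' m hy).le
        have := (rhoT_pos y).le
        positivity
      exact mul_le_one₀ h2 h3 h1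

end Pool.Agent.Lib.MP_749de9_pr
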