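import Pool.Agent.Lib.MP_749de9_pr.ILattice
open MeasureTheory Filter Topology Set

namespace Pool.Agent.Lib.MP_749de9_pr

/-- `F_μ(x) = ∑ x^k / ((μ+1)_k k!)`. -/
noncomputable def FI (μ x : ℝ) : ℝ := ∑' k : ℕ, x ^ k / qI μ k

theorem summable_FI {μ : ℝ} (hμ : -1 < μ) (x : ℝ) : Summable (fun k : ℕ => x ^ k / qI μ k) := by
  by_cases hx : x = 0
  · subst hx
    apply summable_of_ne_finset_zero (s := {0})
    intro k hk
    rw [Finset.mem_singleton] at hk
    rw [zero_pow hk, zero_div]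
  · apply summable_of_ratio_test_tendsto_lt_one (l := 0) zero_lt_one
    · refine Eventually.of_forall (fun k => ?_)
      exact div_ne_zero (pow_ne_zero k hx) (qI_pos hμ k).ne'
    · have h1 : ∀ k : ℕ, ‖x ^ (k + 1) / qI μ (k + 1)‖ / ‖x ^ k / qI μ k‖ =
          |x| / ((μ + 1 + k) * (k + 1)) := by
        intro k
        have hq := qI_pos hμ k
        have hk : (0:ℝ) ≤ k := Nat.cast_nonneg k
        have h2 : 0 < (μ + 1 + k) * (k + 1) := by
          apply mul_pos <;> linarith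
        rw [qI_succ, Real.norm_eq_abs, Real.norm_eq_abs, abs_div, abs_div, abs_mul, abs_of_pos hq,
          abs_of_pos h2, abs_pow, abs_pow, pow_succ]
        have hx' : |x| ≠ 0 := abs_ne_zero.mpr hx
        field_simp
      simp only [h1]
      have h3 : Tendsto (fun k : ℕ => (μ + 1 + (k:ℝ)) * ((k:ℝ) + 1)) atTop atTop := by
        apply Tendsto.atTop_mul_atTop₀
        · exact tendsto_atTop_add_const_left _ _ tendsto_natCast_atTop_atTop
        · exact tendsto_atTop_add_const_right _ _ tendsto_natCast_atTop_atTop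
      exact h3.const_div_atTop _

theorem FI_zero (μ : ℝ) : FI μ 0 = 1 := by
  unfold FI
  rw [tsum_eq_single 0]
  · simp
  · intro k hk
    rw [zero_pow hk, zero_div]

theorem one_le_FI {μ : ℝ} (hμ : -1 < μ) {x : ℝ} (hx : 0 ≤ x) : 1 ≤ FI μ x := by
  have h1 := (summable_FI hμ x).le_tsum 0 (fun k _ => div_nonneg (pow_nonneg hx k) (qI_pos hμ k).le)
  simpa [FI] using h1

theorem FI_pos {μ : ℝ} (hμ : -1 < μ) {x : ℝ} (hx : 0 ≤ x) : 0 < FI μ x :=
  lt_of_lt_of_le one_pos (one_le_FI hμ hx)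

theorem continuous_FI {μ : ℝ} (hμ : -1 < μ) : Continuous (FI μ) := by
  rw [continuous_iff_continuousAt]
  intro x
  have h1 : ContinuousOn (FI μ) (Metric.ball 0 (|x| + 1)) := by
    unfold FI
    apply continuousOn_tsum (u := fun k : ℕ => (|x| + 1) ^ k / qI μ k)
    · intro k
      exact (continuous_pow k).div_const _ |>.continuousOn
    · exact summable_FI hμ _
    · intro k y hy
      rw [Real.norm_eq_abs, abs_div, abs_pow, abs_of_pos (qI_pos hμ k)]
      apply div_le_div_of_nonneg_right _ (qI_pos hμ k).le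
      apply pow_le_pow_left₀ (abs_nonneg y)
      rw [Metric.mem_ball, dist_zero_right, Real.norm_eq_abs] at hy
      exact hy.le
  apply h1.continuousAt
  apply Metric.isOpen_ball.mem_nhds
  rw [Metric.mem_ball, dist_zero_right, Real.norm_eq_abs]
  linarith

theorem polyR_eq_tsum (μ : ℝ) (n : ℕ) (y : ℝ) : polyR μ n y = ∑' k : ℕ, coefR μ n k * y ^ k := by
  unfold polyR
  rw [tsum_eq_sum]
  intro k hk
  rw [Finset.mem_range] at hk
  rw [coefR_eq_zero μ (by omega), zero_mul]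

theorem coefR_mul_pow (μ : ℝ) (n k : ℕ) (x N : ℝ) :
    coefR μ n k * (x / N ^ 2) ^ k =
      (∏ j ∈ Finset.range k, (((n : ℝ) - j) / N * (((n : ℝ) + 2 * μ + 1 + j) / N))) * (x ^ k / qI μ k) := by
  unfold coefR fallP riseP
  rw [Finset.prod_mul_distrib, Finset.prod_div_distrib, Finset.prod_div_distrib, Finset.prod_const,
    Finset.card_range, div_pow, ← pow_mul]
  by_cases hN : N = 0
  · subst hN
    rcases Nat.eq_zero_or_pos k with hk | hk
    · subst hk; simp
    · rw [zero_pow (by omega), zero_pow (by omega)]; simp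
  · field_simp
    ring

theorem polyR_tendsto {μ : ℝ} (hμ : -1 < μ) {x : ℝ} (hx : 0 ≤ x) (n : ℕ → ℕ) (hn : ∀ N, n N ≤ N)
    {σ : ℝ} (hσ : Tendsto (fun N : ℕ => (n N : ℝ) / N) atTop (𝓝 σ)) :
    Tendsto (fun N : ℕ => polyR μ (n N) (x / (N : ℝ) ^ 2)) atTop (𝓝 (FI μ (σ ^ 2 * x))) := by
  set C : ℝ := 1 + |2 * μ + 1| with hC
  have hC0 : 0 ≤ C := by positivity
  simp only [polyR_eq_tsum]
  unfold FI
  apply tendsto_tsum_of_dominated_convergence (bound := fun k : ℕ => (C * x) ^ k / qI μ k)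
  · exact summable_FI hμ _
  · intro k
    simp only [coefR_mul_pow]
    have h1 : (σ ^ 2 * x) ^ k / qI μ k = (∏ _j ∈ Finset.range k, σ * σ) * (x ^ k / qI μ k) := by
      rw [Finset.prod_const, Finset.card_range, mul_pow, ← pow_two, mul_div_assoc]
    rw [h1]
    apply Tendsto.mul_const
    apply tendsto_finsetProd
    intro j _
    have hinv : ∀ c : ℝ, Tendsto (fun N : ℕ => c / (N : ℝ)) atTop (𝓝 0) := fun c =>
      tendsto_const_nhds.div_atTop tendsto_natCast_atTop_atTop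
    apply Tendsto.mul
    · have h2 := hσ.sub (hinv j)
      rw [sub_zero] at h2
      refine h2.congr (fun N => ?_)
      ring
    · have h2 := hσ.add (hinv (2 * μ + 1 + j))
      rw [add_zero] at h2
      refine h2.congr (fun N => ?_)
      ring
  · filter_upwards [eventually_ge_atTop 1] with N hN k
    have hN' : (1:ℝ) ≤ N := by exact_mod_cast hN
    rw [Real.norm_eq_abs]
    by_cases hk : n N < k
    · rw [coefR_eq_zero μ hk, zero_mul, abs_zero]
      exact div_nonneg (pow_nonneg (mul_nonneg hC0 hx) k) (qI_pos hμ k).le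
    · rw [coefR_mul_pow, abs_mul, abs_of_nonneg (div_nonneg (pow_nonneg hx k) (qI_pos hμ k).le),
        mul_pow, mul_div_assoc]
      apply mul_le_mul_of_nonneg_right _ (div_nonneg (pow_nonneg hx k) (qI_pos hμ k).le)
      rw [Finset.abs_prod]
      calc ∏ j ∈ Finset.range k, |((n N : ℝ) - j) / N * (((n N : ℝ) + 2 * μ + 1 + j) / N)|
          ≤ ∏ _j ∈ Finset.range k, C := by
            apply Finset.prod_le_prod (fun j _ => abs_nonneg _)
            intro j hj
            have hj' := Finset.mem_range.mp hj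
            have hjn : (j : ℝ) + 1 ≤ n N := by exact_mod_cast (by omega : j + 1 ≤ n N)
            have hj0 : (0:ℝ) ≤ j := Nat.cast_nonneg j
            have hnN : (n N : ℝ) ≤ N := by exact_mod_cast hn N
            have h1 : ((n N : ℝ) - j) / N * (((n N : ℝ) + 2 * μ + 1 + j) / N) =
                (((n N : ℝ) - j) * ((n N : ℝ) + 2 * μ + 1 + j)) / ((N : ℝ) ^ 2) := by
              field_simp
            have h2 : 0 ≤ ((n N : ℝ) - j) * ((n N : ℝ) + 2 * μ + 1 + j) := by
              apply mul_nonneg <;> linarith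
            rw [h1, abs_of_nonneg (div_nonneg h2 (by positivity)), div_le_iff₀ (by positivity)]
            have h3 : 0 ≤ (j:ℝ) * (2 * μ + 1 + j) := by
              rcases Nat.eq_zero_or_pos j with h | h
              · subst h; simp
              · have : (1:ℝ) ≤ j := by exact_mod_cast h
                apply mul_nonneg hj0
                linarith
            have h4 : ((n N : ℝ) - j) * ((n N : ℝ) + 2 * μ + 1 + j) ≤
                (n N : ℝ) ^ 2 + |2 * μ + 1| * (n N : ℝ) := by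
              have h5 : (2 * μ + 1) * (n N : ℝ) ≤ |2 * μ + 1| * (n N : ℝ) :=
                mul_le_mul_of_nonneg_right (le_abs_self _) (Nat.cast_nonneg _)
              nlinarith
            have h6 : (n N : ℝ) ^ 2 ≤ (N : ℝ) ^ 2 := pow_le_pow_left₀ (Nat.cast_nonneg _) hnN 2
            have h7 : (n N : ℝ) ≤ (N : ℝ) ^ 2 := by nlinarith
            have h8 := abs_nonneg (2 * μ + 1)
            rw [hC]
            nlinarith
        _ = C ^ k := by rw [Finset.prod_const, Finset.card_range]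

theorem arsinh_scaled {x : ℝ} : Tendsto (fun N : ℕ => (N : ℝ) * Real.arsinh (Real.sqrt (x / (N : ℝ) ^ 2))) atTop
    (𝓝 (Real.sqrt x)) := by
  have h1 := Real.hasDerivAt_arsinh 0
  have h2 : HasDerivAt Real.arsinh 1 0 := by
    convert h1 using 1
    simp
  rw [hasDerivAt_iff_tendsto_slope_zero] at h2
  simp only [zero_add, Real.arsinh_zero, sub_zero, smul_eq_mul] at h2
  by_cases hx : Real.sqrt x = 0
  · have h3 : (fun N : ℕ => (N : ℝ) * Real.arsinh (Real.sqrt (x / (N : ℝ) ^ 2))) = fun _ => 0 := by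
      funext N
      rw [Real.sqrt_div' _ (by positivity), hx]
      simp
    rw [h3, hx]
    exact tendsto_const_nhds
  · have hpos : 0 < Real.sqrt x := lt_of_le_of_ne (Real.sqrt_nonneg x) (Ne.symm hx)
    have h3 : Tendsto (fun N : ℕ => Real.sqrt x / (N : ℝ)) atTop (𝓝[≠] 0) := by
      rw [tendsto_nhdsWithin_iff]
      constructor
      · exact tendsto_const_nhds.div_atTop tendsto_natCast_atTop_atTop
      · filter_upwards [eventually_ge_atTop 1] with N hN
        have : (0:ℝ) < N := by exact_mod_cast hN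
        exact (div_pos hpos this).ne'
    have h4 := (h2.comp h3).const_mul (Real.sqrt x)
    rw [mul_one] at h4
    refine h4.congr' ?_
    filter_upwards [eventually_ge_atTop 1] with N hN
    have hN' : (0:ℝ) < N := by exact_mod_cast hN
    have h5 : Real.sqrt (x / (N : ℝ) ^ 2) = Real.sqrt x / N := by
      rw [Real.sqrt_div' _ (by positivity), Real.sqrt_sq hN'.le]
    simp only [Function.comp]
    rw [h5]
    field_simp

theorem rhoT_pow_tendsto {x : ℝ} (k : ℕ → ℕ) {τ : ℝ}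
    (hτ : Tendsto (fun N : ℕ => (k N : ℝ) / N) atTop (𝓝 τ)) :
    Tendsto (fun N : ℕ => rhoT (x / (N : ℝ) ^ 2) ^ (k N)) atTop (𝓝 (Real.exp (-2 * τ * Real.sqrt x))) := by
  have h1 : Tendsto (fun N : ℕ => -2 * ((k N : ℝ) / N) *
      ((N : ℝ) * Real.arsinh (Real.sqrt (x / (N : ℝ) ^ 2)))) atTop (𝓝 (-2 * τ * Real.sqrt x)) :=
    (hτ.const_mul (-2)).mul arsinh_scaled
  have h2 := (Real.continuous_exp.tendsto _).comp h1
  refine h2.congr' ?_
  filter_upwards [eventually_ge_atTop 1] with N hN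
  have hN' : (N:ℝ) ≠ 0 := by
    have : (0:ℝ) < N := by exact_mod_cast hN
    exact this.ne'
  simp only [Function.comp, rhoT]
  rw [← Real.exp_nat_mul]
  congr 1
  field_simp

theorem floor_ratio {γ : ℝ} (hγ : 0 ≤ γ) :
    Tendsto (fun N : ℕ => ((⌊γ * N⌋₊ : ℕ) : ℝ) / N) atTop (𝓝 γ) := by
  have h1 := tendsto_nat_floor_mul_div_atTop (R := ℝ) hγ
  exact h1.comp tendsto_natCast_atTop_atTop

/-- ratio of `F_μ` at two points, `μ > -1`. -/
theorem FI_ratio_CM {μ : ℝ} (hμ : -1 < μ) {γ : ℝ} (hγ0 : 0 ≤ γ) (hγ1 : γ ≤ 1) :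
    CM (fun x => FI μ (γ ^ 2 * x) / FI μ x) := by
  set m : ℕ → ℕ := fun N => ⌊γ * N⌋₊ with hm
  have hmN : ∀ N, m N ≤ N := by
    intro N
    apply Nat.floor_le_of_le
    have : (0:ℝ) ≤ N := Nat.cast_nonneg N
    nlinarith
  have hCM : ∀ N : ℕ, CM (fun x => polyR μ (m (N+1)) (x / ((N + 1 : ℕ) : ℝ) ^ 2) /
      polyR μ (N + 1) (x / ((N + 1 : ℕ) : ℝ) ^ 2)) := by
    intro N
    have h1 := polyR_ratio_CM hμ (m (N+1)) (N + 1 - m (N+1))
    have h2 : m (N+1) + (N + 1 - m (N+1)) = N + 1 := Nat.add_sub_cancel' (hmN (N+1))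
    rw [h2] at h1
    have h3 := h1.comp_mul (c := 1 / ((N + 1 : ℕ) : ℝ) ^ 2) (by positivity)
    refine h3.congr (fun x _ => ?_)
    have : x / ((N + 1 : ℕ) : ℝ) ^ 2 = 1 / ((N + 1 : ℕ) : ℝ) ^ 2 * x := by ring
    rw [this]
  apply CM.limit hCM 1
  · intro N x hx
    have h1 := hmN (N+1)
    have hy : 0 ≤ x / ((N + 1 : ℕ) : ℝ) ^ 2 := by positivity
    have h2 : ∀ k, polyR μ (m (N+1)) (x / ((N + 1 : ℕ) : ℝ) ^ 2) /
        polyR μ (m (N+1) + k) (x / ((N + 1 : ℕ) : ℝ) ^ 2) ≤ 1 := by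
      intro k
      induction k with
      | zero => rw [add_zero, div_self (polyR_pos hμ _ hy).ne']
      | succ k ih =>
        have h3 := rhoR_le_one hμ (m (N+1) + k) hy
        unfold rhoR at h3
        have h4 := polyR_pos hμ (m (N+1)) hy
        have h5 := polyR_pos hμ (m (N+1) + k) hy
        have h6 := polyR_pos hμ (m (N+1) + k + 1) hy
        rw [div_le_one h6] at h3
        rw [div_le_one h5] at ih
        rw [← add_assoc, div_le_one h6]
        linarith
    have h3 := h2 (N + 1 - m (N+1))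
    rwa [Nat.add_sub_cancel' h1] at h3
  · intro x hx
    have h1 : Tendsto (fun N : ℕ => polyR μ (m N) (x / (N : ℝ) ^ 2) / polyR μ N (x / (N : ℝ) ^ 2)) atTop
        (𝓝 (FI μ (γ ^ 2 * x) / FI μ x)) := by
      apply Tendsto.div
      · exact polyR_tendsto hμ hx.le m hmN (floor_ratio hγ0)
      · have h2 := polyR_tendsto hμ hx.le (fun N => N) (fun N => le_rfl) (σ := 1) (by
          apply tendsto_const_nhds.congr'
          filter_upwards [eventually_ge_atTop 1] with N hN
          have : (0:ℝ) < N := by exact_mod_cast hN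
          rw [div_self this.ne'])
        simpa using h2
      · exact (FI_pos hμ hx.le).ne'
    exact (tendsto_add_atTop_iff_nat 1).mpr h1

/-- comparison with the stable law, `μ ≥ 1/2`. -/
theorem L_ratio_CM {μ : ℝ} (hμ : 1 / 2 ≤ μ) {γ : ℝ} (hγ0 : 0 ≤ γ) (hγ1 : γ ≤ 1) :
    CM (fun x => Real.exp (-2 * (1 - γ) * Real.sqrt x) * (FI μ x / FI μ (γ ^ 2 * x))) ∧
    ∀ x : ℝ, 0 < x → Real.exp (-2 * (1 - γ) * Real.sqrt x) * (FI μ x / FI μ (γ ^ 2 * x)) ≤ 1 := by
  have hμ' : -1 < μ := by linarith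
  set m : ℕ → ℕ := fun N => ⌊γ * N⌋₊ with hm
  have hmN : ∀ N, m N ≤ N := by
    intro N
    apply Nat.floor_le_of_le
    have : (0:ℝ) ≤ N := Nat.cast_nonneg N
    nlinarith
  have hCM : ∀ N : ℕ, CM (fun x => rhoT (x / ((N + 1 : ℕ) : ℝ) ^ 2) ^ (N + 1 - m (N + 1)) *
      (polyR μ (N + 1) (x / ((N + 1 : ℕ) : ℝ) ^ 2) / polyR μ (m (N+1)) (x / ((N + 1 : ℕ) : ℝ) ^ 2))) := by
    intro N
    have h1 := (gR_prod_CM hμ (m (N+1)) (N + 1 - m (N+1))).1
    have h2 : m (N+1) + (N + 1 - m (N+1)) = N + 1 := Nat.add_sub_cancel' (hmN (N+1))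
    rw [h2] at h1
    have h3 := h1.comp_mul (c := 1 / ((N + 1 : ℕ) : ℝ) ^ 2) (by positivity)
    refine h3.congr (fun x _ => ?_)
    have : x / ((N + 1 : ℕ) : ℝ) ^ 2 = 1 / ((N + 1 : ℕ) : ℝ) ^ 2 * x := by ring
    rw [this]
  have hle : ∀ N : ℕ, ∀ x : ℝ, 0 < x → rhoT (x / ((N + 1 : ℕ) : ℝ) ^ 2) ^ (N + 1 - m (N + 1)) *
      (polyR μ (N + 1) (x / ((N + 1 : ℕ) : ℝ) ^ 2) / polyR μ (m (N+1)) (x / ((N + 1 : ℕ) : ℝ) ^ 2)) ≤ 1 := by
    intro N x hx
    have h1 := (gR_prod_CM hμ (m (N+1)) (N + 1 - m (N+1))).2 (x / ((N + 1 : ℕ) : ℝ) ^ 2) (by positivity)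
    have h2 : m (N+1) + (N + 1 - m (N+1)) = N + 1 := Nat.add_sub_cancel' (hmN (N+1))
    rwa [h2] at h1
  have hlim : ∀ x : ℝ, 0 < x → Tendsto (fun N : ℕ => rhoT (x / ((N + 1 : ℕ) : ℝ) ^ 2) ^ (N + 1 - m (N + 1)) *
      (polyR μ (N + 1) (x / ((N + 1 : ℕ) : ℝ) ^ 2) / polyR μ (m (N+1)) (x / ((N + 1 : ℕ) : ℝ) ^ 2))) atTop
      (𝓝 (Real.exp (-2 * (1 - γ) * Real.sqrt x) * (FI μ x / FI μ (γ ^ 2 * x)))) := by
    intro x hx
    have h1 : Tendsto (fun N : ℕ => rhoT (x / (N : ℝ) ^ 2) ^ (N - m N) *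
        (polyR μ N (x / (N : ℝ) ^ 2) / polyR μ (m N) (x / (N : ℝ) ^ 2))) atTop
        (𝓝 (Real.exp (-2 * (1 - γ) * Real.sqrt x) * (FI μ x / FI μ (γ ^ 2 * x)))) := by
      apply Tendsto.mul
      · apply rhoT_pow_tendsto
        have h2 : Tendsto (fun N : ℕ => 1 - ((m N : ℕ) : ℝ) / N) atTop (𝓝 (1 - γ)) :=
          (floor_ratio hγ0).const_sub 1
        refine h2.congr' ?_
        filter_upwards [eventually_ge_atTop 1] with N hN
        have hN' : (0:ℝ) < N := by exact_mod_cast hN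
        rw [Nat.cast_sub (hmN N)]
        field_simp
      · apply Tendsto.div
        · have h2 := polyR_tendsto hμ' hx.le (fun N => N) (fun N => le_rfl) (σ := 1) (by
            apply tendsto_const_nhds.congr'
            filter_upwards [eventually_ge_atTop 1] with N hN
            have : (0:ℝ) < N := by exact_mod_cast hN
            rw [div_self this.ne'])
          simpa using h2
        · exact polyR_tendsto hμ' hx.le m hmN (floor_ratio hγ0)
        · exact (FI_pos hμ' (by positivity)).ne'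
    exact (tendsto_add_atTop_iff_nat 1).mpr h1
  exact ⟨CM.limit hCM 1 hle hlim, fun x hx => le_of_tendsto' (hlim x hx) (fun N => hle N x hx)⟩

end Pool.Agent.Lib.MP_749de9_pr
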