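import Pool.Agent.Lib.MP_749de9_pr.CM
open MeasureTheory Filter Topology Set

namespace Pool.Agent.Lib.MP_749de9_pr

/-! ### The Laguerre-type lattice for `K_ν` -/

/-- integrand -/
noncomputable def phiJ (ν s x t : ℝ) : ℝ := Real.exp (-(x * t)) * (t ^ s * (1 + t) ^ (-(s + ν + 1)))

/-- `J_s(x) = ∫_0^∞ e^{-xt} t^s (1+t)^{-(s+ν+1)} dt`. -/
noncomputable def JJ (ν s x : ℝ) : ℝ := ∫ t in Ioi (0:ℝ), phiJ ν s x t

theorem phiJ_nonneg (ν s x : ℝ) {t : ℝ} (ht : 0 ≤ t) : 0 ≤ phiJ ν s x t := by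
  unfold phiJ; positivity

theorem phiJ_pos (ν s x : ℝ) {t : ℝ} (ht : 0 < t) : 0 < phiJ ν s x t := by
  unfold phiJ; positivity

theorem phiJ_le {ν s x t : ℝ} (hν : 0 < ν) (hs : 0 ≤ s) (ht : 0 ≤ t) :
    phiJ ν s x t ≤ Real.exp (-(x * t)) := by
  unfold phiJ
  have h1 : t ^ s * (1 + t) ^ (-(s + ν + 1)) ≤ 1 := by
    have h2 : t ^ s ≤ (1 + t) ^ s := Real.rpow_le_rpow ht (by linarith) hs
    have h3 : 0 < (1 + t) ^ (-(s + ν + 1)) := by positivity
    calc t ^ s * (1 + t) ^ (-(s + ν + 1)) ≤ (1 + t) ^ s * (1 + t) ^ (-(s + ν + 1)) :=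
          mul_le_mul_of_nonneg_right h2 h3.le
      _ = (1 + t) ^ (-(ν + 1)) := by
          rw [← Real.rpow_add (by linarith)]; congr 1; ring
      _ ≤ 1 := Real.rpow_le_one_of_one_le_of_nonpos (by linarith) (by linarith)
  exact mul_le_of_le_one_right (Real.exp_pos _).le h1

theorem measurable_phiJ (ν s x : ℝ) : Measurable (phiJ ν s x) := by
  unfold phiJ
  fun_prop

theorem integrableOn_exp {x : ℝ} (hx : 0 < x) :
    IntegrableOn (fun t => Real.exp (-(x * t))) (Ioi 0) := by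
  have := integrableOn_exp_mul_Ioi (a := -x) (by linarith) 0
  refine this.congr_fun (fun t _ => ?_) measurableSet_Ioi
  simp

theorem integrableOn_phiJ {ν s x : ℝ} (hν : 0 < ν) (hs : 0 ≤ s) (hx : 0 < x) :
    IntegrableOn (phiJ ν s x) (Ioi 0) := by
  refine Integrable.mono' (integrableOn_exp hx) (measurable_phiJ ν s x).aestronglyMeasurable ?_
  rw [ae_restrict_iff' measurableSet_Ioi]
  refine Eventually.of_forall (fun t ht => ?_)
  rw [Real.norm_eq_abs, abs_of_nonneg (phiJ_nonneg ν s x (le_of_lt ht))]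
  exact phiJ_le hν hs (le_of_lt ht)

theorem JJ_pos {ν s x : ℝ} (hν : 0 < ν) (hs : 0 ≤ s) (hx : 0 < x) : 0 < JJ ν s x := by
  unfold JJ
  rw [setIntegral_pos_iff_support_of_nonneg_ae]
  · have : Function.support (phiJ ν s x) ∩ Ioi 0 = Ioi 0 := by
      ext t
      simp only [mem_inter_iff, Function.mem_support, mem_Ioi, and_iff_right_iff_imp]
      intro ht
      exact (phiJ_pos ν s x ht).ne'
    rw [this]
    simp
  · rw [EventuallyLE, ae_restrict_iff' measurableSet_Ioi]
    exact Eventually.of_forall (fun t ht => phiJ_nonneg ν s x (le_of_lt ht))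
  · exact integrableOn_phiJ hν hs hx

theorem phiJ_succ {ν s x t : ℝ} (ht : 0 < t) :
    phiJ ν (s + 1) x t = phiJ ν s x t * (t / (1 + t)) := by
  unfold phiJ
  have h1 : (1 + t) ^ (-(s + 1 + ν + 1)) = (1 + t) ^ (-(s + ν + 1)) * (1 + t)⁻¹ := by
    rw [← Real.rpow_neg_one (1 + t), ← Real.rpow_add (by linarith)]
    congr 1; ring
  rw [Real.rpow_add ht, Real.rpow_one, h1]
  ring

theorem JJ_succ_le {ν s x : ℝ} (hν : 0 < ν) (hs : 0 ≤ s) (hx : 0 < x) : JJ ν (s + 1) x ≤ JJ ν s x := by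
  unfold JJ
  apply setIntegral_mono_on (integrableOn_phiJ hν (by linarith) hx) (integrableOn_phiJ hν hs hx)
    measurableSet_Ioi
  intro t ht
  have ht' : (0:ℝ) < t := ht
  rw [phiJ_succ ht']
  apply mul_le_of_le_one_right (phiJ_nonneg ν s x ht'.le)
  rw [div_le_one (by linarith)]
  linarith

theorem JJ_rec {ν s x : ℝ} (hν : 0 < ν) (hs : 0 ≤ s) (hx : 0 < x) :
    (s + 1 + ν + 1) * JJ ν (s + 1 + 1) x + (s + 1) * JJ ν s x =
      (2 * (s + 1) + ν + 1 + x) * JJ ν (s + 1) x := by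
  set ψ : ℝ → ℝ := phiJ ν (s + 1) x with hψ
  set ψ' : ℝ → ℝ := fun t => (s + 1 + ν + 1) * phiJ ν (s + 1 + 1) x t + (s + 1) * phiJ ν s x t -
    (2 * (s + 1) + ν + 1 + x) * phiJ ν (s + 1) x t with hψ'
  have hi0 := integrableOn_phiJ hν hs hx
  have hi1 := integrableOn_phiJ hν (by linarith : 0 ≤ s + 1) hx
  have hi2 := integrableOn_phiJ hν (by linarith : 0 ≤ s + 1 + 1) hx
  have hderiv : ∀ t ∈ Ioi (0:ℝ), HasDerivAt ψ (ψ' t) t := by
    intro t ht
    have ht' : (0:ℝ) < t := ht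
    have h1 : HasDerivAt (fun t : ℝ => Real.exp (-(x * t))) (Real.exp (-(x * t)) * (-(x * 1))) t :=
      (((hasDerivAt_id t).const_mul x).neg).exp
    have h2 : HasDerivAt (fun t : ℝ => t ^ (s + 1)) ((s + 1) * t ^ (s + 1 - 1)) t :=
      Real.hasDerivAt_rpow_const (Or.inl ht'.ne')
    have h3 : HasDerivAt (fun t : ℝ => (1 + t) ^ (-(s + 1 + ν + 1)))
        (1 * (-(s + 1 + ν + 1)) * (1 + t) ^ (-(s + 1 + ν + 1) - 1)) t :=
      ((hasDerivAt_id t).const_add 1).rpow_const (Or.inl (by simp only [id]; linarith))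
    have h4 := h1.mul (h2.mul h3)
    have h5 : ψ = ((fun t : ℝ => Real.exp (-(x * t))) * ((fun t : ℝ => t ^ (s + 1)) *
      (fun t : ℝ => (1 + t) ^ (-(s + 1 + ν + 1))))) := by
      funext t; simp only [hψ, phiJ, Pi.mul_apply]
    rw [h5]
    refine h4.congr_deriv ?_
    simp only [hψ', phiJ, Pi.mul_apply]
    have e1 : (s + 1 - 1) = s := by ring
    rw [e1]
    -- base quantities
    have e2 : t ^ (s + 1) = t ^ s * t := by rw [Real.rpow_add ht', Real.rpow_one]
    have e3 : t ^ (s + 1 + 1) = t ^ s * t * t := by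
      rw [Real.rpow_add ht', Real.rpow_one, e2]
    have hp : (0:ℝ) < 1 + t := by linarith
    have e4 : (1 + t) ^ (-(s + ν + 1)) = (1 + t) ^ (-(s + 1 + 1 + ν + 1)) * (1 + t) ^ 2 := by
      rw [← Real.rpow_natCast (1 + t) 2, ← Real.rpow_add hp]
      congr 1; push_cast; ring
    have e5 : (1 + t) ^ (-(s + 1 + ν + 1)) = (1 + t) ^ (-(s + 1 + 1 + ν + 1)) * (1 + t) := by
      nth_rewrite 3 [← Real.rpow_one (1 + t)]
      rw [← Real.rpow_add hp]
      congr 1; ring
    have e6 : (1 + t) ^ (-(s + 1 + ν + 1) - 1) = (1 + t) ^ (-(s + 1 + 1 + ν + 1)) := by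
      congr 1; ring
    rw [e6, e5, e4, e3, e2]
    ring
  have hint : IntegrableOn ψ' (Ioi 0) :=
    ((hi2.const_mul _).add (hi0.const_mul _)).sub (hi1.const_mul _)
  have hcont : ContinuousWithinAt ψ (Ici 0) 0 := by
    apply ContinuousAt.continuousWithinAt
    apply ContinuousAt.mul
    · fun_prop
    · apply ContinuousAt.mul
      · exact Real.continuousAt_rpow_const _ _ (Or.inr (by linarith))
      · apply ContinuousAt.rpow_const (by fun_prop)
        left; norm_num
  have hlim : Tendsto ψ atTop (𝓝 0) := by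
    apply squeeze_zero' (g := fun t => Real.exp (-(x * t)))
    · filter_upwards [eventually_ge_atTop 0] with t ht
      exact phiJ_nonneg _ _ _ ht
    · filter_upwards [eventually_ge_atTop 0] with t ht
      exact phiJ_le hν (by linarith) ht
    · have : Tendsto (fun t : ℝ => x * t) atTop atTop := tendsto_id.const_mul_atTop hx
      exact Real.tendsto_exp_neg_atTop_nhds_zero.comp this
  have hFTC := integral_Ioi_of_hasDerivAt_of_tendsto hcont hderiv hint hlim
  have h0 : ψ 0 = 0 := by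
    simp only [hψ, phiJ]
    rw [Real.zero_rpow (by linarith : s + 1 ≠ 0)]
    ring
  have hFTC' : ∫ t in Ioi (0:ℝ), ψ' t = 0 := by
    rw [hFTC, h0, sub_zero]
  have hA : IntegrableOn (fun t => (s + 1 + ν + 1) * phiJ ν (s + 1 + 1) x t) (Ioi 0) := hi2.const_mul _
  have hB : IntegrableOn (fun t => (s + 1) * phiJ ν s x t) (Ioi 0) := hi0.const_mul _
  have hC : IntegrableOn (fun t => (2 * (s + 1) + ν + 1 + x) * phiJ ν (s + 1) x t) (Ioi 0) :=
    hi1.const_mul _
  have hAB : IntegrableOn (fun t => (s + 1 + ν + 1) * phiJ ν (s + 1 + 1) x t +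
    (s + 1) * phiJ ν s x t) (Ioi 0) := hA.add hB
  have hE : ∫ t in Ioi (0:ℝ), ψ' t = (s + 1 + ν + 1) * (∫ t in Ioi (0:ℝ), phiJ ν (s + 1 + 1) x t) +
      (s + 1) * (∫ t in Ioi (0:ℝ), phiJ ν s x t) -
      (2 * (s + 1) + ν + 1 + x) * (∫ t in Ioi (0:ℝ), phiJ ν (s + 1) x t) := by
    have e1 : ∫ t in Ioi (0:ℝ), ψ' t = (∫ t in Ioi (0:ℝ), ((s + 1 + ν + 1) * phiJ ν (s + 1 + 1) x t +
        (s + 1) * phiJ ν s x t)) -
        ∫ t in Ioi (0:ℝ), (2 * (s + 1) + ν + 1 + x) * phiJ ν (s + 1) x t :=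
      integral_sub hAB hC
    have e2 : (∫ t in Ioi (0:ℝ), ((s + 1 + ν + 1) * phiJ ν (s + 1 + 1) x t +
        (s + 1) * phiJ ν s x t)) = (∫ t in Ioi (0:ℝ), (s + 1 + ν + 1) * phiJ ν (s + 1 + 1) x t) +
        ∫ t in Ioi (0:ℝ), (s + 1) * phiJ ν s x t := integral_add hA hB
    rw [e1, e2, integral_const_mul, integral_const_mul, integral_const_mul]
  unfold JJ
  linarith

/-- superpolynomial decay -/
theorem JJ_decay {ν s x : ℝ} (hν : 0 < ν) (hs : 0 ≤ s) (hx : 0 < x) (p : ℕ) :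
    ∃ C : ℝ, ∀ k : ℕ, (k : ℝ) ^ p * JJ ν (s + k) x ≤ C := by
  have hint : IntegrableOn (fun t => Real.exp (-(x * t)) * (1 + t) ^ p) (Ioi (0:ℝ)) := by
    have hc : ContinuousOn (fun t : ℝ => Real.exp (-(x * t)) * (1 + t) ^ p) (Ici 0) := by
      fun_prop
    have hb : (fun t : ℝ => Real.exp (-(x * t)) * (1 + t) ^ p) =O[atTop]
        (fun t => Real.exp (-((x / 2) * t))) := by
      have h1 : ∀ t : ℝ, 0 ≤ t → Real.exp (-(x * t)) * (1 + t) ^ p ≤
          (p.factorial * (2 / x) ^ p * Real.exp (x / 2)) * Real.exp (-((x / 2) * t)) := by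
        intro t ht
        have h2 : ((x / 2) * (1 + t)) ^ p / p.factorial ≤ Real.exp ((x / 2) * (1 + t)) :=
          Real.pow_div_factorial_le_exp _ (by positivity) p
        have h3 : (1 + t) ^ p ≤ p.factorial * (2 / x) ^ p * Real.exp ((x / 2) * (1 + t)) := by
          rw [div_le_iff₀ (by positivity)] at h2
          have h4 : (1 + t) ^ p = (2 / x) ^ p * ((x / 2) * (1 + t)) ^ p := by
            rw [← mul_pow]; congr 1; field_simp
          rw [h4]
          calc (2 / x) ^ p * ((x / 2) * (1 + t)) ^ p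
              ≤ (2 / x) ^ p * (Real.exp ((x / 2) * (1 + t)) * p.factorial) :=
                mul_le_mul_of_nonneg_left h2 (by positivity)
            _ = _ := by ring
        calc Real.exp (-(x * t)) * (1 + t) ^ p
            ≤ Real.exp (-(x * t)) * (p.factorial * (2 / x) ^ p * Real.exp ((x / 2) * (1 + t))) :=
              mul_le_mul_of_nonneg_left h3 (Real.exp_pos _).le
          _ = (p.factorial * (2 / x) ^ p) * (Real.exp (-(x * t)) * Real.exp ((x / 2) * (1 + t))) := by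
              ring
          _ = (p.factorial * (2 / x) ^ p) * (Real.exp (x / 2) * Real.exp (-((x / 2) * t))) := by
              rw [← Real.exp_add, ← Real.exp_add]; congr 2; ring
          _ = _ := by ring
      refine Asymptotics.IsBigO.of_bound (p.factorial * (2 / x) ^ p * Real.exp (x / 2)) ?_
      filter_upwards [eventually_ge_atTop 0] with t ht
      rw [Real.norm_eq_abs, Real.norm_eq_abs, abs_of_nonneg (by positivity),
        abs_of_nonneg (by positivity)]
      exact h1 t ht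
    exact integrable_of_isBigO_exp_neg (half_pos hx) hc (by simpa using hb)
  refine ⟨p.factorial * ∫ t in Ioi (0:ℝ), Real.exp (-(x * t)) * (1 + t) ^ p, fun k => ?_⟩
  unfold JJ
  rw [← integral_const_mul, ← integral_const_mul]
  apply setIntegral_mono_on ((integrableOn_phiJ hν (by positivity) hx).const_mul _)
    (hint.const_mul _) measurableSet_Ioi
  intro t ht
  have ht' : (0:ℝ) < t := ht
  have hp : (0:ℝ) < 1 + t := by linarith
  have h1 : phiJ ν (s + k) x t = phiJ ν s x t * (t / (1 + t)) ^ k := by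
    induction k with
    | zero => simp
    | succ k ih =>
      have : s + ((k + 1 : ℕ) : ℝ) = s + k + 1 := by push_cast; ring
      rw [this, phiJ_succ ht', ih, pow_succ]
      ring
  have h2 : (k : ℝ) ^ p * (t / (1 + t)) ^ k ≤ p.factorial * (1 + t) ^ p := by
    have h3 : (t / (1 + t)) ≤ Real.exp (-(1 / (1 + t))) := by
      have := Real.add_one_le_exp (-(1 / (1 + t)))
      have h4 : t / (1 + t) = -(1 / (1 + t)) + 1 := by field_simp; ring
      rw [h4]; exact this
    have h4 : (t / (1 + t)) ^ k ≤ Real.exp (-(k / (1 + t))) := by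
      calc (t / (1 + t)) ^ k ≤ (Real.exp (-(1 / (1 + t)))) ^ k :=
            pow_le_pow_left₀ (by positivity) h3 k
        _ = Real.exp (-(k / (1 + t))) := by
            rw [← Real.exp_nat_mul]; congr 1; ring
    have h5 : ((k : ℝ) / (1 + t)) ^ p / p.factorial ≤ Real.exp (k / (1 + t)) :=
      Real.pow_div_factorial_le_exp _ (by positivity) p
    have h6 : (k : ℝ) ^ p ≤ p.factorial * (1 + t) ^ p * Real.exp (k / (1 + t)) := by
      rw [div_pow, div_div, div_le_iff₀ (by positivity)] at h5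
      nlinarith
    calc (k : ℝ) ^ p * (t / (1 + t)) ^ k
        ≤ (p.factorial * (1 + t) ^ p * Real.exp (k / (1 + t))) * Real.exp (-(k / (1 + t))) :=
          mul_le_mul h6 h4 (by positivity) (by positivity)
      _ = p.factorial * (1 + t) ^ p * (Real.exp (k / (1 + t)) * Real.exp (-(k / (1 + t)))) := by ring
      _ = p.factorial * (1 + t) ^ p := by rw [← Real.exp_add]; simp
  rw [h1]
  calc (k : ℝ) ^ p * (phiJ ν s x t * (t / (1 + t)) ^ k)
      = phiJ ν s x t * ((k : ℝ) ^ p * (t / (1 + t)) ^ k) := by ring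
    _ ≤ Real.exp (-(x * t)) * (p.factorial * (1 + t) ^ p) := by
        apply mul_le_mul (phiJ_le hν hs ht'.le) h2 (by positivity) (Real.exp_pos _).le
    _ = p.factorial * (Real.exp (-(x * t)) * (1 + t) ^ p) := by ring

end Pool.Agent.Lib.MP_749de9_pr
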