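import Pool.Agent.Lib.MP_749de9_pr.KLattice
open MeasureTheory Filter Topology Set

namespace Pool.Agent.Lib.MP_749de9_pr

/-- `κ_s = J_{s+1}/J_s`. -/
noncomputable def kap (ν s x : ℝ) : ℝ := JJ ν (s + 1) x / JJ ν s x

theorem kap_pos {ν s x : ℝ} (hν : 0 < ν) (hs : 0 ≤ s) (hx : 0 < x) : 0 < kap ν s x :=
  div_pos (JJ_pos hν (by linarith) hx) (JJ_pos hν hs hx)

theorem kap_le_one {ν s x : ℝ} (hν : 0 < ν) (hs : 0 ≤ s) (hx : 0 < x) : kap ν s x ≤ 1 := by
  unfold kap
  rw [div_le_one (JJ_pos hν hs hx)]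
  exact JJ_succ_le hν hs hx

theorem kap_rec {ν s x : ℝ} (hν : 0 < ν) (hs : 0 ≤ s) (hx : 0 < x) :
    kap ν s x * (2 * s + ν + 3 + x - (s + ν + 2) * kap ν (s + 1) x) = s + 1 := by
  have h := JJ_rec hν hs hx
  have h0 := JJ_pos hν hs hx
  have h1 := JJ_pos hν (by linarith : 0 ≤ s + 1) hx
  unfold kap
  generalize JJ ν (s + 1 + 1) x = a at *
  generalize JJ ν (s + 1) x = b at *
  generalize JJ ν s x = c at *
  field_simp
  linarith

/-- approximants -/
noncomputable def kapA (ν : ℝ) : ℕ → ℝ → ℝ → ℝ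
  | 0, _, _ => 0
  | k + 1, s, x => (s + 1) * (1 / (2 * s + ν + 3 + x - (s + ν + 2) * kapA ν k (s + 1) x))

theorem kapA_CM {ν : ℝ} (hν : 0 < ν) (k : ℕ) : ∀ s : ℝ, 0 ≤ s →
    CM (fun x => kapA ν k s x) ∧ ∀ x : ℝ, 0 < x → kapA ν k s x ≤ 1 := by
  induction k with
  | zero =>
    intro s _
    refine ⟨CM.const (le_refl 0), fun x _ => ?_⟩
    simp [kapA]
  | succ k ih =>
    intro s hs
    obtain ⟨h1, h2⟩ := ih (s + 1) (by linarith)
    constructor
    · have h3 := (CM.geom h1 h2 (B := s + ν + 2) (D := 2 * s + ν + 3) (by linarith)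
        (by linarith)).smul (by linarith : 0 ≤ s + 1)
      exact h3.congr (fun x _ => rfl)
    · intro x hx
      have h3 := h2 x hx
      simp only [kapA]
      have h4 : s + 1 ≤ 2 * s + ν + 3 + x - (s + ν + 2) * kapA ν k (s + 1) x := by nlinarith
      rw [mul_one_div, div_le_one (by linarith)]
      exact h4

theorem kapA_le {ν x : ℝ} (hν : 0 < ν) (hx : 0 < x) (k : ℕ) : ∀ s : ℝ, 0 ≤ s →
    kapA ν k s x ≤ kap ν s x := by
  induction k with
  | zero =>
    intro s hs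
    simp only [kapA]
    exact (kap_pos hν hs hx).le
  | succ k ih =>
    intro s hs
    have h1 := ih (s + 1) (by linarith)
    have h2 := kap_rec hν hs hx
    have h3 := kap_le_one hν (by linarith : 0 ≤ s + 1) hx
    simp only [kapA]
    have h4 : 0 < 2 * s + ν + 3 + x - (s + ν + 2) * kap ν (s + 1) x := by nlinarith
    have h5 : kap ν s x = (s + 1) * (1 / (2 * s + ν + 3 + x - (s + ν + 2) * kap ν (s + 1) x)) := by
      rw [mul_one_div, eq_div_iff h4.ne', h2]
    rw [h5]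
    apply mul_le_mul_of_nonneg_left _ (by linarith)
    apply one_div_le_one_div_of_le h4
    nlinarith

/-- auxiliary: Bernoulli-type inequality -/
theorem bern_aux {c s : ℝ} (hs : 0 ≤ s) {p : ℕ} (hp : c ≤ p) :
    (s + 1 + c) / (s + 1) ≤ ((s + 2) / (s + 1)) ^ p := by
  have h1 : (s + 1 + c) / (s + 1) = 1 + c * (1 / (s + 1)) := by field_simp
  have h2 : (s + 2) / (s + 1) = 1 + 1 / (s + 1) := by field_simp; ring
  have h3 : 1 + (p : ℝ) * (1 / (s + 1)) ≤ (1 + 1 / (s + 1)) ^ p :=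
    one_add_mul_le_pow (by have : 0 < 1 / (s + 1) := by positivity
                           linarith) p
  have h4 : c * (1 / (s + 1)) ≤ p * (1 / (s + 1)) := mul_le_mul_of_nonneg_right hp (by positivity)
  rw [h1, h2]
  linarith

theorem kap_sub_kapA {ν x : ℝ} (hν : 0 < ν) (hx : 0 < x) {p : ℕ} (hp : ν + 1 ≤ p) (k : ℕ) :
    ∀ s : ℝ, 0 ≤ s → kap ν s x - kapA ν k s x ≤
      ((s + k + 1) / (s + 1)) ^ p * (JJ ν (s + k) x / JJ ν s x) ^ 2 := by
  induction k with
  | zero =>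
    intro s hs
    have h0 := JJ_pos hν hs hx
    have h1 : (s + ((0:ℕ):ℝ) + 1) / (s + 1) = 1 := by
      simp only [Nat.cast_zero, add_zero]
      exact div_self (by linarith)
    simp only [kapA]
    rw [h1]
    simp only [Nat.cast_zero, add_zero, one_pow, one_mul, sub_zero]
    rw [div_self h0.ne']
    simpa using kap_le_one hν hs hx
  | succ k ih =>
    intro s hs
    have hs1 : 0 ≤ s + 1 := by linarith
    have h1 := ih (s + 1) hs1
    have hrec := kap_rec hν hs hx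
    have hle := kapA_le hν hx k (s + 1) hs1
    have hk1 := kap_le_one hν hs1 hx
    have hkp := kap_pos hν hs hx
    have hAle := kapA_le hν hx (k + 1) s hs
    set κ := kap ν s x with hκ
    set κ1 := kap ν (s + 1) x with hκ1
    set A := kapA ν k (s + 1) x with hA
    set A1 := kapA ν (k + 1) s x with hA1
    have hE : 0 < 2 * s + ν + 3 + x - (s + ν + 2) * κ1 := by nlinarith
    have hEA : 0 < 2 * s + ν + 3 + x - (s + ν + 2) * A := by nlinarith
    have hArec : A1 * (2 * s + ν + 3 + x - (s + ν + 2) * A) = s + 1 := by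
      rw [hA1]
      simp only [kapA]
      rw [← hA, mul_assoc, one_div, inv_mul_cancel₀ hEA.ne', mul_one]
    have hAnn : 0 ≤ A1 := by
      have : 0 < A1 * (2 * s + ν + 3 + x - (s + ν + 2) * A) := by rw [hArec]; linarith
      exact (pos_of_mul_pos_left this hEA.le).le
    -- difference identity
    have hdiff : κ - A1 = κ * A1 * ((s + ν + 2) / (s + 1)) * (κ1 - A) := by
      have e1 : κ * A1 * (s + ν + 2) * (κ1 - A) = (s + 1) * (κ - A1) := by
        have : κ * A1 * (s + ν + 2) * (κ1 - A) =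
          κ * (A1 * (2 * s + ν + 3 + x - (s + ν + 2) * A)) -
          A1 * (κ * (2 * s + ν + 3 + x - (s + ν + 2) * κ1)) := by ring
        rw [this, hArec, hrec]; ring
      have hs1' : s + 1 ≠ 0 := by linarith
      field_simp
      linarith
    have hb : (s + ν + 2) / (s + 1) ≤ ((s + 2) / (s + 1)) ^ p := by
      have := bern_aux hs hp
      have e : s + 1 + (ν + 1) = s + ν + 2 := by ring
      rw [e] at this
      exact this
    have hstep : κ - A1 ≤ κ ^ 2 * ((s + 2) / (s + 1)) ^ p * (κ1 - A) := by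
      rw [hdiff]
      apply mul_le_mul_of_nonneg_right _ (by linarith)
      apply mul_le_mul _ hb (by positivity) (by positivity)
      rw [sq]
      exact mul_le_mul_of_nonneg_left hAle hkp.le
    refine hstep.trans ?_
    have h0 := JJ_pos hν hs hx
    have hJ1 := JJ_pos hν hs1 hx
    calc κ ^ 2 * ((s + 2) / (s + 1)) ^ p * (κ1 - A)
        ≤ κ ^ 2 * ((s + 2) / (s + 1)) ^ p * (((s + 1 + k + 1) / (s + 1 + 1)) ^ p *
          (JJ ν (s + 1 + k) x / JJ ν (s + 1) x) ^ 2) :=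
          mul_le_mul_of_nonneg_left h1 (by positivity)
      _ = (((s + 2) / (s + 1)) * ((s + 1 + k + 1) / (s + 1 + 1))) ^ p *
          (κ * (JJ ν (s + 1 + k) x / JJ ν (s + 1) x)) ^ 2 := by
          rw [mul_pow, mul_pow]; ring
      _ = ((s + ((k + 1 : ℕ) : ℝ) + 1) / (s + 1)) ^ p *
          (JJ ν (s + ((k + 1 : ℕ) : ℝ)) x / JJ ν s x) ^ 2 := by
          have e1 : s + ((k + 1 : ℕ) : ℝ) = s + 1 + k := by push_cast; ring
          rw [e1, hκ]
          unfold kap
          congr 2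
          · have hs1' : s + 1 ≠ 0 := by linarith
            have hs2' : s + 2 ≠ 0 := by linarith
            have e2 : s + 1 + 1 = s + 2 := by ring
            rw [e2]
            field_simp
          · generalize JJ ν (s + 1 + ↑k) x = a
            generalize JJ ν (s + 1) x = b at *
            generalize JJ ν s x = c at *
            field_simp

/-- superpolynomial decay, limit form -/
theorem JJ_decay_tendsto {ν s x : ℝ} (hν : 0 < ν) (hs : 0 ≤ s) (hx : 0 < x) (p : ℕ) (a : ℝ)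
    (ha : 0 ≤ a) :
    Tendsto (fun k : ℕ => (a + k) ^ p * JJ ν (s + k) x) atTop (𝓝 0) := by
  obtain ⟨C, hC⟩ := JJ_decay hν hs hx (p + 1)
  have h1 : Tendsto (fun k : ℕ => (a + 1) ^ p * C * (1 / (k : ℝ))) atTop
      (𝓝 ((a + 1) ^ p * C * 0)) := tendsto_const_nhds.mul tendsto_one_div_atTop_nhds_zero_nat
  rw [mul_zero] at h1
  refine squeeze_zero' ?_ ?_ h1
  · filter_upwards with k
    have := JJ_pos hν (by positivity : 0 ≤ s + k) hx
    positivity
  · filter_upwards [eventually_ge_atTop 1] with k hk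
    have hk' : (1:ℝ) ≤ k := by exact_mod_cast hk
    have hJ := JJ_pos hν (by positivity : 0 ≤ s + k) hx
    have h2 : a + k ≤ (a + 1) * k := by nlinarith
    have h3 : (a + k) ^ p ≤ (a + 1) ^ p * (k : ℝ) ^ p := by
      rw [← mul_pow]
      exact pow_le_pow_left₀ (by positivity) h2 p
    have h4 := hC k
    calc (a + k) ^ p * JJ ν (s + k) x ≤ (a + 1) ^ p * (k : ℝ) ^ p * JJ ν (s + k) x :=
          mul_le_mul_of_nonneg_right h3 hJ.le
      _ = (a + 1) ^ p * ((k : ℝ) ^ (p + 1) * JJ ν (s + k) x) * (1 / k) := by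
          rw [pow_succ (k : ℝ) p]
          field_simp
      _ ≤ (a + 1) ^ p * C * (1 / k) := by
          apply mul_le_mul_of_nonneg_right _ (by positivity)
          exact mul_le_mul_of_nonneg_left h4 (by positivity)

theorem JJ_add_nat_le {ν s x : ℝ} (hν : 0 < ν) (hs : 0 ≤ s) (hx : 0 < x) (k : ℕ) :
    JJ ν (s + k) x ≤ JJ ν s x := by
  induction k with
  | zero => simp
  | succ k ih =>
    have e : s + ((k + 1 : ℕ) : ℝ) = s + k + 1 := by push_cast; ring
    rw [e]
    exact (JJ_succ_le hν (by positivity) hx).trans ih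

theorem kapA_tendsto {ν s x : ℝ} (hν : 0 < ν) (hs : 0 ≤ s) (hx : 0 < x) :
    Tendsto (fun k => kapA ν k s x) atTop (𝓝 (kap ν s x)) := by
  obtain ⟨p, hp⟩ := exists_nat_ge (ν + 1)
  have h0 := JJ_pos hν hs hx
  have h1 : Tendsto (fun k : ℕ => (1 / (s + 1)) ^ p * (1 / JJ ν s x) *
      ((s + 1 + k) ^ p * JJ ν (s + k) x)) atTop (𝓝 ((1 / (s + 1)) ^ p * (1 / JJ ν s x) * 0)) :=
    tendsto_const_nhds.mul (JJ_decay_tendsto hν hs hx p (s + 1) (by linarith))
  rw [mul_zero] at h1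
  have h2 : Tendsto (fun k => kap ν s x - kapA ν k s x) atTop (𝓝 0) := by
    refine squeeze_zero (fun k => ?_) (fun k => ?_) h1
    · have := kapA_le hν hx k s hs
      linarith
    · refine (kap_sub_kapA hν hx hp k s hs).trans ?_
      have hJ := JJ_pos hν (by positivity : 0 ≤ s + k) hx
      have hJle := JJ_add_nat_le hν hs hx k
      have e1 : (JJ ν (s + k) x / JJ ν s x) ^ 2 ≤ 1 / JJ ν s x * JJ ν (s + k) x := by
        rw [div_pow, sq, sq]
        rw [div_le_iff₀ (by positivity)]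
        have : 1 / JJ ν s x * JJ ν (s + k) x * (JJ ν s x * JJ ν s x) =
          JJ ν (s + k) x * JJ ν s x := by field_simp
        rw [this]
        exact mul_le_mul_of_nonneg_left hJle hJ.le
      calc ((s + k + 1) / (s + 1)) ^ p * (JJ ν (s + k) x / JJ ν s x) ^ 2
          ≤ ((s + k + 1) / (s + 1)) ^ p * (1 / JJ ν s x * JJ ν (s + k) x) :=
            mul_le_mul_of_nonneg_left e1 (by positivity)
        _ = _ := by
            have : s + 1 + (k : ℝ) = s + k + 1 := by ring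
            rw [this, div_pow, div_pow, one_pow]
            ring
  have h3 : Tendsto (fun k => kap ν s x - (kap ν s x - kapA ν k s x)) atTop
      (𝓝 (kap ν s x - 0)) := tendsto_const_nhds.sub h2
  simpa using h3

theorem kap_CM {ν s : ℝ} (hν : 0 < ν) (hs : 0 ≤ s) : CM (fun x => kap ν s x) :=
  CM.limit (f := fun k x => kapA ν k s x) (fun k => (kapA_CM hν k s hs).1) 1
    (fun k x hx => (kapA_CM hν k s hs).2 x hx) (fun _ hx => kapA_tendsto hν hs hx)

/-! ### comparison with `ν' < ν` -/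

theorem kap_mul_le {ν t x : ℝ} (hν : 0 < ν) (ht : 0 ≤ t) (hx : 0 < x) :
    kap ν t x * (2 * t + ν + 3 + x) ≤ 2 * t + ν + 3 := by
  have h1 := kap_rec hν ht hx
  have h2 := kap_pos hν ht hx
  have h3 := kap_le_one hν ht hx
  have h4 := kap_pos hν (by linarith : 0 ≤ t + 1) hx
  have h5 := kap_le_one hν (by linarith : 0 ≤ t + 1) hx
  have h6 : kap ν t x * kap ν (t + 1) x ≤ 1 := mul_le_one₀ h3 h4.le h5
  have h7 : kap ν t x * (2 * t + ν + 3 + x) = t + 1 + (t + ν + 2) *
      (kap ν t x * kap ν (t + 1) x) := by linarith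
  rw [h7]
  nlinarith

theorem one_div_kap_le {ν s x : ℝ} (hν : 0 < ν) (hs : 0 ≤ s) (hx : 0 < x) :
    1 / kap ν s x ≤ (2 * s + ν + 3 + x) / (s + 1) := by
  have h1 := kap_rec hν hs hx
  have h2 := kap_pos hν hs hx
  have h4 := kap_pos hν (by linarith : 0 ≤ s + 1) hx
  rw [div_le_div_iff₀ h2 (by linarith)]
  have : 0 ≤ kap ν s x * ((s + ν + 2) * kap ν (s + 1) x) := by positivity
  nlinarith

/-- `h_s`. -/
noncomputable def hh (ν ν' δ s x : ℝ) : ℝ := kap ν' (s + δ) x / kap ν s x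

/-- `l_s`. -/
noncomputable def ll (ν ν' δ s x : ℝ) : ℝ := hh ν ν' δ s x - (s + 1 + δ) / (s + 1)

theorem ll_rec {ν ν' δ s x : ℝ} (hν : 0 < ν) (hν' : 0 < ν') (hδ : 0 ≤ δ) (hd : 2 * δ + ν' = ν)
    (hs : 0 ≤ s) (hx : 0 < x) :
    ll ν ν' δ s x = kap ν' (s + δ) x * kap ν (s + 1) x / (s + 1) *
      ((s + δ + ν' + 2) * ll ν ν' δ (s + 1) x + δ * (δ + ν') / (s + 2)) := by
  have h1 := kap_rec hν hs hx
  have h2 := kap_rec hν' (by linarith : 0 ≤ s + δ) hx
  have p1 := kap_pos hν hs hx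
  have p2 := kap_pos hν (by linarith : 0 ≤ s + 1) hx
  have p3 := kap_pos hν' (by linarith : 0 ≤ s + δ) hx
  have p4 := kap_pos hν' (by linarith : 0 ≤ s + 1 + δ) hx
  have hs1' : s + 1 ≠ 0 := by linarith
  have hs2' : s + 2 ≠ 0 := by linarith
  have e1 : s + δ + 1 = s + 1 + δ := by ring
  rw [e1] at h2
  unfold ll hh
  have e2 : s + 1 + 1 = s + 2 := by ring
  rw [e2]
  generalize kap ν s x = a at *
  generalize kap ν (s + 1) x = b at *
  generalize kap ν' (s + δ) x = c at *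
  generalize kap ν' (s + 1 + δ) x = d at *
  -- c / a - (s+1+δ)/(s+1) = c b /(s+1) * (λ' (d / b - (s+2+δ)/(s+2)) + δ(δ+ν')/(s+2))
  have key : c / a - (s + 1 + δ) / (s + 1) = c / (s + 1) * ((s + δ + ν' + 2) * d - (s + ν + 2) * b) := by
    have hE : a * (2 * s + ν + 3 + x - (s + ν + 2) * b) = s + 1 := h1
    have hE' : c * (2 * (s + δ) + ν' + 3 + x - (s + δ + ν' + 2) * d) = s + 1 + δ := h2
    have : c * (s + 1) - (s + 1 + δ) * a = a * (c * ((s + δ + ν' + 2) * d - (s + ν + 2) * b)) := by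
      have t1 : c * (s + 1) = c * (a * (2 * s + ν + 3 + x - (s + ν + 2) * b)) := by rw [hE]
      have t2 : (s + 1 + δ) * a = c * (2 * (s + δ) + ν' + 3 + x - (s + δ + ν' + 2) * d) * a := by
        rw [hE']
      rw [t1, t2, ← hd]
      ring
    field_simp
    linarith
  rw [key]
  have e3 : c * b / (s + 1) * ((s + δ + ν' + 2) * (d / b - (s + 1 + 1 + δ) / (s + 2)) +
      δ * (δ + ν') / (s + 2)) = c / (s + 1) * ((s + δ + ν' + 2) * d -
      b * ((s + δ + ν' + 2) * ((s + 2 + δ) / (s + 2)) - δ * (δ + ν') / (s + 2))) := by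
    have : s + 1 + 1 + δ = s + 2 + δ := by ring
    rw [this]
    field_simp
    ring
  rw [e2] at e3
  rw [e3]
  have e4 : (s + δ + ν' + 2) * ((s + 2 + δ) / (s + 2)) - δ * (δ + ν') / (s + 2) = s + ν + 2 := by
    rw [← hd]
    field_simp
    ring
  rw [e4]
  ring

/-- approximants to `l` -/
noncomputable def llA (ν ν' δ : ℝ) : ℕ → ℝ → ℝ → ℝ
  | 0, _, _ => 0
  | k + 1, s, x => kap ν' (s + δ) x * kap ν (s + 1) x / (s + 1) *
      ((s + δ + ν' + 2) * llA ν ν' δ k (s + 1) x + δ * (δ + ν') / (s + 2))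

theorem llA_CM {ν ν' δ : ℝ} (hν : 0 < ν) (hν' : 0 < ν') (hδ : 0 ≤ δ) (k : ℕ) : ∀ s : ℝ, 0 ≤ s →
    CM (fun x => llA ν ν' δ k s x) := by
  induction k with
  | zero => intro s _; exact CM.const (le_refl 0)
  | succ k ih =>
    intro s hs
    have h1 := ih (s + 1) (by linarith)
    have h2 : CM (fun x => (s + δ + ν' + 2) * llA ν ν' δ k (s + 1) x + δ * (δ + ν') / (s + 2)) :=
      (h1.smul (by positivity)).add (CM.const (by positivity))
    have h3 : CM (fun x => 1 / (s + 1) * (kap ν' (s + δ) x * kap ν (s + 1) x)) :=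
      ((kap_CM hν' (by linarith : 0 ≤ s + δ)).mul (kap_CM hν (by linarith : 0 ≤ s + 1))).smul
        (by positivity)
    refine (h3.mul h2).congr (fun x _ => ?_)
    simp only [llA]
    ring

theorem ll_abs_le {ν ν' δ s x : ℝ} (hν : 0 < ν) (hν' : 0 < ν') (hδ : 0 ≤ δ)
    (hs : 0 ≤ s) (hx : 0 < x) : |ll ν ν' δ s x| ≤ ν + 4 + x + δ := by
  have h1 : hh ν ν' δ s x ≤ 1 / kap ν s x := by
    unfold hh
    exact div_le_div_of_nonneg_right (kap_le_one hν' (by linarith) hx) (kap_pos hν hs hx).le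
  have h2 := one_div_kap_le hν hs hx
  have h3 : 0 < hh ν ν' δ s x := div_pos (kap_pos hν' (by linarith) hx) (kap_pos hν hs hx)
  have h4 : (2 * s + ν + 3 + x) / (s + 1) ≤ ν + 3 + x := by
    rw [div_le_iff₀ (by linarith)]
    nlinarith
  have h5 : (s + 1 + δ) / (s + 1) ≤ 1 + δ := by
    rw [div_le_iff₀ (by linarith)]
    nlinarith
  have h6 : 0 ≤ (s + 1 + δ) / (s + 1) := by positivity
  unfold ll
  rw [abs_le]
  constructor <;> linarith

theorem ll_sub_llA {ν ν' δ x : ℝ} (hν : 0 < ν) (hν' : 0 < ν') (hδ : 0 ≤ δ) (hd : 2 * δ + ν' = ν)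
    (hx : 0 < x) {p : ℕ} (hp : δ + ν' + 1 ≤ p) (k : ℕ) :
    ∀ s : ℝ, 0 ≤ s → |ll ν ν' δ s x - llA ν ν' δ k s x| ≤
      (ν + 4 + x + δ) * (((s + k + 1) / (s + 1)) ^ p * (JJ ν' (s + δ + k) x / JJ ν' (s + δ) x)) := by
  induction k with
  | zero =>
    intro s hs
    have h0 := JJ_pos hν' (by linarith : 0 ≤ s + δ) hx
    have h1 : (s + ((0:ℕ):ℝ) + 1) / (s + 1) = 1 := by
      simp only [Nat.cast_zero, add_zero]
      exact div_self (by linarith)
    simp only [llA]
    rw [h1]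
    simp only [Nat.cast_zero, add_zero, one_pow, one_mul, sub_zero]
    rw [div_self h0.ne', mul_one]
    exact ll_abs_le hν hν' hδ hs hx
  | succ k ih =>
    intro s hs
    have hs1 : 0 ≤ s + 1 := by linarith
    have h1 := ih (s + 1) hs1
    have p2 := kap_pos hν hs1 hx
    have p2' := kap_le_one hν hs1 hx
    have p3 := kap_pos hν' (by linarith : 0 ≤ s + δ) hx
    have hb : (s + δ + ν' + 2) / (s + 1) ≤ ((s + 2) / (s + 1)) ^ p := by
      have := bern_aux hs hp
      have e : s + 1 + (δ + ν' + 1) = s + δ + ν' + 2 := by ring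
      rw [e] at this
      exact this
    have hdiff : ll ν ν' δ s x - llA ν ν' δ (k + 1) s x =
        kap ν' (s + δ) x * kap ν (s + 1) x * ((s + δ + ν' + 2) / (s + 1)) *
          (ll ν ν' δ (s + 1) x - llA ν ν' δ k (s + 1) x) := by
      rw [ll_rec hν hν' hδ hd hs hx]
      simp only [llA]
      ring
    rw [hdiff, abs_mul]
    have hcoef : |kap ν' (s + δ) x * kap ν (s + 1) x * ((s + δ + ν' + 2) / (s + 1))| ≤
        kap ν' (s + δ) x * ((s + 2) / (s + 1)) ^ p := by
      rw [abs_of_nonneg (by positivity)]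
      apply mul_le_mul _ hb (by positivity) (by positivity)
      exact mul_le_of_le_one_right p3.le p2'
    have hC : 0 ≤ ν + 4 + x + δ := by linarith
    have hJ0 := JJ_pos hν' (by linarith : 0 ≤ s + δ) hx
    have hJ1 := JJ_pos hν' (by linarith : 0 ≤ s + δ + 1) hx
    calc |kap ν' (s + δ) x * kap ν (s + 1) x * ((s + δ + ν' + 2) / (s + 1))| *
          |ll ν ν' δ (s + 1) x - llA ν ν' δ k (s + 1) x|
        ≤ (kap ν' (s + δ) x * ((s + 2) / (s + 1)) ^ p) * ((ν + 4 + x + δ) *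
          (((s + 1 + k + 1) / (s + 1 + 1)) ^ p *
          (JJ ν' (s + 1 + δ + k) x / JJ ν' (s + 1 + δ) x))) :=
          mul_le_mul hcoef h1 (abs_nonneg _) (by positivity)
      _ = (ν + 4 + x + δ) * ((((s + 2) / (s + 1)) * ((s + 1 + k + 1) / (s + 1 + 1))) ^ p *
          (kap ν' (s + δ) x * (JJ ν' (s + 1 + δ + k) x / JJ ν' (s + 1 + δ) x))) := by
          rw [mul_pow]; ring
      _ = (ν + 4 + x + δ) * (((s + ((k + 1 : ℕ) : ℝ) + 1) / (s + 1)) ^ p *
          (JJ ν' (s + δ + ((k + 1 : ℕ) : ℝ)) x / JJ ν' (s + δ) x)) := by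
          have e1 : s + δ + ((k + 1 : ℕ) : ℝ) = s + 1 + δ + k := by push_cast; ring
          have e1' : s + ((k + 1 : ℕ) : ℝ) = s + 1 + k := by push_cast; ring
          have e3 : s + δ + 1 = s + 1 + δ := by ring
          rw [e1, e1']
          unfold kap
          rw [e3]
          rw [e3] at hJ1
          have hs1' : s + 1 ≠ 0 := by linarith
          have hs2' : s + 2 ≠ 0 := by linarith
          have e2 : s + 1 + 1 = s + 2 := by ring
          have e4 : (s + 2) / (s + 1) * ((s + 1 + k + 1) / (s + 1 + 1)) =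
              (s + 1 + k + 1) / (s + 1) := by
            rw [e2]
            field_simp
          have e5 : JJ ν' (s + 1 + δ) x / JJ ν' (s + δ) x * (JJ ν' (s + 1 + δ + ↑k) x /
              JJ ν' (s + 1 + δ) x) = JJ ν' (s + 1 + δ + ↑k) x / JJ ν' (s + δ) x := by
            generalize JJ ν' (s + 1 + δ + ↑k) x = a
            generalize JJ ν' (s + 1 + δ) x = b at *
            generalize JJ ν' (s + δ) x = c at *
            field_simp
          rw [e4, e5]

theorem llA_tendsto {ν ν' δ s x : ℝ} (hν : 0 < ν) (hν' : 0 < ν') (hδ : 0 ≤ δ)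
    (hd : 2 * δ + ν' = ν) (hs : 0 ≤ s) (hx : 0 < x) :
    Tendsto (fun k => llA ν ν' δ k s x) atTop (𝓝 (ll ν ν' δ s x)) := by
  obtain ⟨p, hp⟩ := exists_nat_ge (δ + ν' + 1)
  have hsd : 0 ≤ s + δ := by linarith
  have h0 := JJ_pos hν' hsd hx
  have h1 : Tendsto (fun k : ℕ => (ν + 4 + x + δ) * ((1 / (s + 1)) ^ p * (1 / JJ ν' (s + δ) x)) *
      ((s + 1 + k) ^ p * JJ ν' (s + δ + k) x)) atTop
      (𝓝 ((ν + 4 + x + δ) * ((1 / (s + 1)) ^ p * (1 / JJ ν' (s + δ) x)) * 0)) :=
    tendsto_const_nhds.mul (JJ_decay_tendsto hν' hsd hx p (s + 1) (by linarith))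
  rw [mul_zero] at h1
  rw [tendsto_iff_norm_sub_tendsto_zero]
  refine squeeze_zero (fun k => norm_nonneg _) (fun k => ?_) h1
  rw [Real.norm_eq_abs, abs_sub_comm]
  refine (ll_sub_llA hν hν' hδ hd hx hp k s hs).trans (le_of_eq ?_)
  have e : s + 1 + (k : ℝ) = s + k + 1 := by ring
  rw [e, div_pow, div_pow, one_pow]
  ring

theorem hh_CM {ν ν' δ s : ℝ} (hν : 0 < ν) (hν' : 0 < ν') (hδ : 0 ≤ δ)
    (hd : 2 * δ + ν' = ν) (hs : 0 ≤ s) : CM (fun x => hh ν ν' δ s x) := by
  have hsd : 0 ≤ s + δ := by linarith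
  apply CM.limit' (f := fun k x => llA ν ν' δ k s x + (s + 1 + δ) / (s + 1))
    (fun k => (llA_CM hν hν' hδ k s hs).add (CM.const (by positivity)))
    ((2 * s + ν + 3) / (s + 1))
  · intro x hx
    have h1 := kap_mul_le hν' hsd hx
    have h2 := one_div_kap_le hν hs hx
    have h3 := kap_pos hν' hsd hx
    unfold hh
    rw [div_eq_mul_one_div]
    calc kap ν' (s + δ) x * (1 / kap ν s x)
        ≤ kap ν' (s + δ) x * ((2 * s + ν + 3 + x) / (s + 1)) :=
          mul_le_mul_of_nonneg_left h2 h3.le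
      _ = (kap ν' (s + δ) x * (2 * (s + δ) + ν' + 3 + x)) / (s + 1) := by
          rw [← hd]; ring
      _ ≤ (2 * (s + δ) + ν' + 3) / (s + 1) :=
          div_le_div_of_nonneg_right h1 (by linarith)
      _ = _ := by rw [← hd]; ring
  · have h1 := (kap_CM hν' hsd).continuousOn
    have h2 := (kap_CM hν hs).continuousOn
    exact h1.div h2 (fun x hx => (kap_pos hν hs hx).ne')
  · intro x hx
    have h1 := (llA_tendsto hν hν' hδ hd hs hx).add_const ((s + 1 + δ) / (s + 1))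
    have h2 : ll ν ν' δ s x + (s + 1 + δ) / (s + 1) = hh ν ν' δ s x := by
      unfold ll; ring
    rw [h2] at h1
    exact h1

/-! ### chains -/

theorem JJ_ratio_eq_prod {ν s x : ℝ} (hν : 0 < ν) (hs : 0 ≤ s) (hx : 0 < x) (k : ℕ) :
    JJ ν (s + k) x / JJ ν s x = ∏ j ∈ Finset.range k, kap ν (s + j) x := by
  induction k with
  | zero =>
    simp [div_self (JJ_pos hν hs hx).ne']
  | succ k ih =>
    rw [Finset.prod_range_succ, ← ih]
    unfold kap
    have e : s + ((k + 1 : ℕ) : ℝ) = s + k + 1 := by push_cast; ring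
    rw [e]
    have h1 := JJ_pos hν (by positivity : 0 ≤ s + k) hx
    have h2 := JJ_pos hν hs hx
    generalize JJ ν (s + k) x = a at *
    field_simp

theorem JJ_ratio_CM {ν s : ℝ} (hν : 0 < ν) (hs : 0 ≤ s) (k : ℕ) :
    CM (fun x => JJ ν (s + k) x / JJ ν s x) := by
  refine (CM.prod (Finset.range k) (f := fun j x => kap ν (s + j) x)
    (fun j _ => kap_CM hν (by positivity))).congr (fun x hx => ?_)
  exact JJ_ratio_eq_prod hν hs hx k

theorem JJ_ratio2_CM {ν ν' δ s : ℝ} (hν : 0 < ν) (hν' : 0 < ν') (hδ : 0 ≤ δ)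
    (hd : 2 * δ + ν' = ν) (hs : 0 ≤ s) (k : ℕ) :
    CM (fun x => (JJ ν' (s + δ + k) x / JJ ν' (s + δ) x) / (JJ ν (s + k) x / JJ ν s x)) := by
  refine (CM.prod (Finset.range k) (f := fun j x => hh ν ν' δ (s + j) x)
    (fun j _ => hh_CM hν hν' hδ hd (by positivity))).congr (fun x hx => ?_)
  rw [JJ_ratio_eq_prod hν hs hx k, JJ_ratio_eq_prod hν' (by linarith) hx k,
    ← Finset.prod_div_distrib]
  apply Finset.prod_congr rfl
  intro j _
  unfold hh
  have : s + δ + (j : ℝ) = s + j + δ := by ring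
  rw [this]

end Pool.Agent.Lib.MP_749de9_pr
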